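import Mathlib

/-!
# Irreducible representations of unital C*-algebras separate points

We call a unital star-representation irreducible when its commutant consists of scalars.
We build, from extreme points of the state space and the GNS construction, enough irreducible
representations to separate the points of a unital C*-algebra.
-/

open scoped ComplexOrder InnerProductSpace
open Complex

namespace Pool.Agent.MP_dbaee1_an

universe u v

/-- A representation with trivial commutant on a nonzero Hilbert space. -/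
def IsIrr {A : Type u} [CStarAlgebra A] {H : Type v} [NormedAddCommGroup H]
    [InnerProductSpace ℂ H] [CompleteSpace H] (π : A →⋆ₐ[ℂ] (H →L[ℂ] H)) : Prop :=
  Nontrivial H ∧ ∀ T : H →L[ℂ] H, (∀ a, T * π a = π a * T) → ∃ c : ℂ, T = c • (1 : H →L[ℂ] H)

section States

variable {A : Type u} [CStarAlgebra A] [PartialOrder A] [StarOrderedRing A]

/-- Cauchy-Schwarz for positive functionals. -/
lemma cs (f : A →ₚ[ℂ] ℂ) (a b : A) :
    ‖f (star a * b)‖ ^ 2 ≤ (f (star a * a)).re * (f (star b * b)).re := by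
  have h := norm_inner_le_norm (𝕜 := ℂ) (f.toPreGNS a) (f.toPreGNS b)
  rw [PositiveLinearMap.preGNS_inner_def] at h
  simp only [PositiveLinearMap.ofPreGNS_toPreGNS] at h
  have h2 : ‖f (star a * b)‖ ^ 2 ≤ (‖f.toPreGNS a‖ * ‖f.toPreGNS b‖) ^ 2 := by
    gcongr
  rw [mul_pow] at h2
  have e1 : ‖f.toPreGNS a‖ ^ 2 = (f (star a * a)).re := by
    have := f.preGNS_norm_sq (f.toPreGNS a)
    simp only [PositiveLinearMap.ofPreGNS_toPreGNS] at this
    rw [← this]
    norm_cast
  have e2 : ‖f.toPreGNS b‖ ^ 2 = (f (star b * b)).re := by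
    have := f.preGNS_norm_sq (f.toPreGNS b)
    simp only [PositiveLinearMap.ofPreGNS_toPreGNS] at this
    rw [← this]
    norm_cast
  rw [e1, e2] at h2
  exact h2

lemma norm_apply_le (f : A →ₚ[ℂ] ℂ) (a : A) : ‖f a‖ ≤ (f 1).re * ‖a‖ := by
  have h := cs f 1 a
  simp only [star_one, one_mul] at h
  have hf1 : 0 ≤ f 1 := f.map_nonneg zero_le_one
  have hf1' : 0 ≤ (f 1).re := (Complex.le_def.mp hf1).1
  have h2 : (f (star a * a)).re ≤ (f 1).re * ‖a‖ ^ 2 := by
    have := f.norm_apply_le_of_nonneg (star a * a) (star_mul_self_nonneg a)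
    have h3 : (f (star a * a)).re ≤ ‖f (star a * a)‖ := Complex.re_le_norm _
    have h4 : ‖f 1‖ = (f 1).re := by
      have := Complex.norm_of_nonneg' hf1
      rw [← this]; simp
    rw [h4, CStarRing.norm_star_mul_self, ← sq] at this
    linarith
  have h5 : ‖f a‖ ^ 2 ≤ ((f 1).re * ‖a‖) ^ 2 := by
    calc ‖f a‖ ^ 2 ≤ (f 1).re * (f (star a * a)).re := h
      _ ≤ (f 1).re * ((f 1).re * ‖a‖ ^ 2) := by gcongr
      _ = ((f 1).re * ‖a‖) ^ 2 := by ring
  exact (pow_le_pow_iff_left₀ (norm_nonneg _) (by positivity) two_ne_zero).mp h5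

/-- The state space, as a set of functions. -/
def states (A : Type u) [CStarAlgebra A] [PartialOrder A] [StarOrderedRing A] : Set (A → ℂ) :=
  {φ | ∃ f : A →ₚ[ℂ] ℂ, f 1 = 1 ∧ ∀ a, f a = φ a}

lemma states_eq : states A = {φ : A → ℂ | (∀ a b, φ (a + b) = φ a + φ b) ∧
    (∀ (c : ℂ) a, φ (c • a) = c * φ a) ∧ (∀ a, 0 ≤ a → 0 ≤ φ a) ∧ φ 1 = 1 ∧
    (∀ a, ‖φ a‖ ≤ ‖a‖)} := by
  ext φ
  constructor
  · rintro ⟨f, hf1, hf⟩
    refine ⟨fun a b => by simp [← hf], fun c a => by simp [← hf],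
      fun a ha => by rw [← hf]; exact f.map_nonneg ha, by rw [← hf, hf1], fun a => ?_⟩
    rw [← hf]
    simpa [hf1] using norm_apply_le f a
  · rintro ⟨h1, h2, h3, h4, -⟩
    let l : A →ₗ[ℂ] ℂ := { toFun := φ, map_add' := h1, map_smul' := by simpa using h2 }
    refine ⟨PositiveLinearMap.mk₀ l (fun a ha => h3 a ha), h4, fun a => rfl⟩

lemma isCompact_states : IsCompact (states A) := by
  have hK : IsCompact (Set.pi Set.univ fun a : A => Metric.closedBall (0 : ℂ) ‖a‖) :=
    isCompact_univ_pi fun a => isCompact_closedBall _ _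
  refine hK.of_isClosed_subset ?_ ?_
  · rw [states_eq]
    simp only [Set.ofPred_and, Set.ofPred_forall]
    refine IsClosed.inter ?_ (IsClosed.inter ?_ (IsClosed.inter ?_ (IsClosed.inter ?_ ?_)))
    · exact isClosed_iInter fun a => isClosed_iInter fun b =>
        isClosed_eq (by fun_prop) (by fun_prop)
    · exact isClosed_iInter fun c => isClosed_iInter fun a =>
        isClosed_eq (continuous_apply _) (continuous_const.mul (continuous_apply _))
    · exact isClosed_iInter fun a => isClosed_iInter fun _ =>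
        isClosed_le continuous_const (continuous_apply a)
    · exact isClosed_eq (continuous_apply _) continuous_const
    · exact isClosed_iInter fun a => isClosed_le (continuous_apply a).norm continuous_const
  · intro φ hφ
    rw [states_eq] at hφ
    intro a _
    simpa using hφ.2.2.2.2 a

lemma convex_states : Convex ℝ (states A) := by
  rw [states_eq]
  rintro φ ⟨h1, h2, h3, h4, h5⟩ ψ ⟨k1, k2, k3, k4, k5⟩ s t hs ht hst
  refine ⟨fun a b => ?_, fun c a => ?_, fun a ha => ?_, ?_, fun a => ?_⟩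
  · simp only [Pi.add_apply, Pi.smul_apply, h1, k1, smul_add]; ring
  · simp only [Pi.add_apply, Pi.smul_apply, h2, k2, Complex.real_smul]; ring
  · simp only [Pi.add_apply, Pi.smul_apply]
    exact add_nonneg (smul_nonneg hs (h3 a ha)) (smul_nonneg ht (k3 a ha))
  · simp only [Pi.add_apply, Pi.smul_apply, h4, k4, Complex.real_smul, mul_one]
    exact_mod_cast hst
  · simp only [Pi.add_apply, Pi.smul_apply]
    calc ‖s • φ a + t • ψ a‖ ≤ ‖s • φ a‖ + ‖t • ψ a‖ := norm_add_le _ _
      _ = s * ‖φ a‖ + t * ‖ψ a‖ := by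
        rw [norm_smul, norm_smul, Real.norm_of_nonneg hs, Real.norm_of_nonneg ht]
      _ ≤ s * ‖a‖ + t * ‖a‖ := by gcongr; exact h5 a; exact k5 a
      _ = ‖a‖ := by rw [← add_mul, hst, one_mul]

/-- For a nonzero positive element there is a state that does not vanish on it. -/
lemma exists_state_pos (b : A) (hb : 0 ≤ b) (hb0 : b ≠ 0) :
    ∃ φ ∈ states A, 0 < (φ b).re := by
  have hnot : -b ∉ {x : A | 0 ≤ x} := by
    intro h
    exact hb0 (le_antisymm (by simpa using h) hb)
  have hconv : Convex ℝ {x : A | 0 ≤ x} := by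
    intro x hx y hy s t hs ht _
    exact add_nonneg (smul_nonneg hs hx) (smul_nonneg ht hy)
  have hclosed : IsClosed {x : A | 0 ≤ x} := by
    exact CStarAlgebra.isClosed_nonneg
  obtain ⟨g, u, hg1, hg2⟩ := geometric_hahn_banach_closed_point hconv hclosed hnot
  have hu : 0 < u := by simpa using hg1 0 (by simp)
  have hgpos : ∀ x : A, 0 ≤ x → g x ≤ 0 := by
    intro x hx
    by_contra hcon
    push Not at hcon
    have h1 := hg1 ((u / g x) • x) (smul_nonneg (by positivity) hx)
    rw [map_smul, smul_eq_mul, div_mul_cancel₀ _ hcon.ne'] at h1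
    exact lt_irrefl _ h1
  have hgb : g b < 0 := by
    rw [map_neg] at hg2
    linarith
  let l : A →ₗ[ℂ] ℂ :=
    { toFun := fun x => ((-g (realPart x : A) : ℝ) : ℂ) + ((-g (imaginaryPart x : A) : ℝ) : ℂ) * I
      map_add' := by
        intro x y
        simp only [map_add, AddSubgroup.coe_add, Complex.ofReal_neg, Complex.ofReal_add]
        ring
      map_smul' := by
        intro c x
        rw [realPart_smul, imaginaryPart_smul]
        simp only [AddSubgroupClass.coe_sub, AddSubgroup.coe_add, selfAdjoint.val_smul, map_sub,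
          map_add, map_smul, smul_eq_mul, RingHom.id_apply]
        apply Complex.ext
        · simp
          ring
        · simp
          ring }
  have hl : ∀ x : A, 0 ≤ x → l x = ((-g x : ℝ) : ℂ) := by
    intro x hx
    have hsa : IsSelfAdjoint x := IsSelfAdjoint.of_nonneg hx
    change ((-g (realPart x : A) : ℝ) : ℂ) + ((-g (imaginaryPart x : A) : ℝ) : ℂ) * I = _
    rw [hsa.coe_realPart, hsa.imaginaryPart]
    simp
  have hlpos : ∀ x : A, 0 ≤ x → 0 ≤ l x := by
    intro x hx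
    rw [hl x hx]
    exact_mod_cast (by linarith [hgpos x hx] : (0 : ℝ) ≤ -g x)
  let f : A →ₚ[ℂ] ℂ := PositiveLinearMap.mk₀ l hlpos
  have hfb : 0 < (f b).re := by
    change 0 < (l b).re
    rw [hl b hb]
    simpa using hgb
  have hf1 : 0 < (f 1).re := by
    have h1 : (f b).re ≤ ‖f b‖ := Complex.re_le_norm _
    have h2 := norm_apply_le f b
    by_contra hcon
    push Not at hcon
    have : (f 1).re * ‖b‖ ≤ 0 := mul_nonpos_of_nonpos_of_nonneg hcon (norm_nonneg _)
    linarith
  have hf1' : f 1 = (((f 1).re : ℝ) : ℂ) := by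
    have : 0 ≤ f 1 := f.map_nonneg zero_le_one
    apply Complex.ext
    · simp
    · simpa using (Complex.le_def.mp this).2.symm
  refine ⟨fun a => (((f 1).re⁻¹ : ℝ) : ℂ) * f a, ?_, ?_⟩
  · rw [states_eq]
    refine ⟨fun a b => by simp [mul_add], fun c a => by simp; ring, fun a ha => ?_, ?_, fun a => ?_⟩
    · apply mul_nonneg
      · exact_mod_cast inv_nonneg.mpr hf1.le
      · exact f.map_nonneg ha
    · change (((f 1).re⁻¹ : ℝ) : ℂ) * f 1 = 1
      calc (((f 1).re⁻¹ : ℝ) : ℂ) * f 1 = (((f 1).re⁻¹ : ℝ) : ℂ) * (((f 1).re : ℝ) : ℂ) := by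
            rw [← hf1']
        _ = 1 := by
            rw [← Complex.ofReal_mul, inv_mul_cancel₀ hf1.ne']
            simp
    · rw [norm_mul, Complex.norm_real, Real.norm_of_nonneg (inv_nonneg.mpr hf1.le)]
      have := norm_apply_le f a
      rw [inv_mul_le_iff₀ hf1]
      exact this
  · change 0 < ((((f 1).re⁻¹ : ℝ) : ℂ) * f b).re
    rw [Complex.re_ofReal_mul]
    positivity

/-- For a nonzero positive element there is an extreme state that does not vanish on it. -/
lemma exists_extreme_state_pos (b : A) (hb : 0 ≤ b) (hb0 : b ≠ 0) :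
    ∃ φ ∈ (states A).extremePoints ℝ, 0 < (φ b).re := by
  by_contra hcon
  push Not at hcon
  obtain ⟨φ, hφ, hφb⟩ := exists_state_pos b hb hb0
  have hKM := closure_convexHull_extremePoints (isCompact_states (A := A)) convex_states
  have hsub : closure (convexHull ℝ ((states A).extremePoints ℝ)) ⊆ {φ : A → ℂ | (φ b).re ≤ 0} := by
    apply closure_minimal
    · apply convexHull_min
      · intro ψ hψ
        exact hcon ψ hψ
      · intro ψ hψ χ hχ s t hs ht _
        simp only [Set.mem_ofPred_eq, Pi.add_apply, Pi.smul_apply, Complex.add_re,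
          Complex.smul_re, smul_eq_mul] at *
        nlinarith [mul_nonneg hs (neg_nonneg.mpr hψ), mul_nonneg ht (neg_nonneg.mpr hχ)]
    · exact isClosed_le (Complex.continuous_re.comp (continuous_apply b)) continuous_const
  have := hsub (hKM ▸ hφ)
  simp only [Set.mem_ofPred_eq] at this
  linarith

/-- The class of `1` in the GNS space. -/
noncomputable def gnsVec (f : A →ₚ[ℂ] ℂ) : f.GNS := ((f.toPreGNS 1 : f.PreGNS) : f.GNS)

lemma gns_apply_vec (f : A →ₚ[ℂ] ℂ) (a : A) :
    f.gnsStarAlgHom a (gnsVec f) = ((f.toPreGNS a : f.PreGNS) : f.GNS) := by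
  change f.gnsNonUnitalStarAlgHom a (gnsVec f) = _
  rw [gnsVec, PositiveLinearMap.gnsNonUnitalStarAlgHom_apply_coe]
  simp

lemma gns_inner (f : A →ₚ[ℂ] ℂ) (a b : A) :
    ⟪f.gnsStarAlgHom a (gnsVec f), f.gnsStarAlgHom b (gnsVec f)⟫_ℂ = f (star a * b) := by
  rw [gns_apply_vec, gns_apply_vec, UniformSpace.Completion.inner_coe,
    PositiveLinearMap.preGNS_inner_def]
  simp

lemma gns_dense (f : A →ₚ[ℂ] ℂ) :
    DenseRange (fun a : A => f.gnsStarAlgHom a (gnsVec f)) := by
  have h : (fun a : A => f.gnsStarAlgHom a (gnsVec f)) =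
      (fun x : f.PreGNS => (x : f.GNS)) ∘ f.toPreGNS := by
    funext a
    rw [gns_apply_vec]
    rfl
  rw [h]
  exact UniformSpace.Completion.denseRange_coe.comp f.toPreGNS.surjective.denseRange
    (UniformSpace.Completion.continuous_coe _)

lemma normalize_mem_states (p : A →ₚ[ℂ] ℂ) (s : ℝ) (hs : 0 < s) (hp : p 1 = (s : ℂ)) :
    (fun a => ((s⁻¹ : ℝ) : ℂ) * p a) ∈ states A := by
  rw [states_eq]
  refine ⟨fun a b => by simp [mul_add], fun c a => by simp; ring, fun a ha => ?_, ?_, fun a => ?_⟩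
  · exact mul_nonneg (by exact_mod_cast inv_nonneg.mpr hs.le) (p.map_nonneg ha)
  · change ((s⁻¹ : ℝ) : ℂ) * p 1 = 1
    rw [hp, ← Complex.ofReal_mul, inv_mul_cancel₀ hs.ne']
    simp
  · change ‖((s⁻¹ : ℝ) : ℂ) * p a‖ ≤ ‖a‖
    rw [norm_mul, Complex.norm_real, Real.norm_of_nonneg (inv_nonneg.mpr hs.le)]
    have := norm_apply_le p a
    rw [hp, Complex.ofReal_re] at this
    rw [inv_mul_le_iff₀ hs]
    exact this

lemma eq_of_dense_inner {E : Type*} [NormedAddCommGroup E] [InnerProductSpace ℂ E] {ι : Type*}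
    (v : ι → E) (hv : DenseRange v) (S : E →L[ℂ] E) (h : ∀ i j, ⟪v i, S (v j)⟫_ℂ = 0) : S = 0 := by
  have h1 : ∀ j, S (v j) = 0 := by
    intro j
    have h2 : ∀ x : E, ⟪x, S (v j)⟫_ℂ = 0 := by
      intro x
      refine hv.induction_on (p := fun x => ⟪x, S (v j)⟫_ℂ = 0) x ?_ (fun i => h i j)
      exact isClosed_eq (by fun_prop) continuous_const
    exact inner_self_eq_zero.mp (h2 _)
  ext x
  refine hv.induction_on (p := fun x => S x = (0 : E →L[ℂ] E) x) x ?_ (fun i => by simpa using h1 i)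
  exact isClosed_eq S.continuous (by fun_prop)

/-- Key step: for an extreme state, a self-adjoint operator in the commutant of the GNS
representation with `0 ≤ T ≤ 1` is a scalar. -/
lemma commutant_of_extreme_aux (f : A →ₚ[ℂ] ℂ) (hf1 : f 1 = 1)
    (hext : (fun a => f a) ∈ (states A).extremePoints ℝ)
    (T : f.GNS →L[ℂ] f.GNS) (hT : ∀ a, T * f.gnsStarAlgHom a = f.gnsStarAlgHom a * T)
    (hsa : ∀ x, (⟪x, T x⟫_ℂ).im = 0)
    (h0 : ∀ x, 0 ≤ (⟪x, T x⟫_ℂ).re) (h1 : ∀ x, (⟪x, T x⟫_ℂ).re ≤ ‖x‖ ^ 2) :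
    ∃ c : ℂ, T = c • (1 : f.GNS →L[ℂ] f.GNS) := by
  set π := f.gnsStarAlgHom with hπ
  set ξ := gnsVec f with hξ
  have hinner : ∀ a b, ⟪π a ξ, π b ξ⟫_ℂ = f (star a * b) := fun a b => gns_inner f a b
  have hadj : ∀ a x y, ⟪π a x, y⟫_ℂ = ⟪x, π (star a) y⟫_ℂ := by
    intro a x y
    rw [map_star, ContinuousLinearMap.star_eq_adjoint, ContinuousLinearMap.adjoint_inner_right]
  have hTc : ∀ a x, T (π a x) = π a (T x) := fun a x => DFunLike.congr_fun (hT a) x
  have hξ1 : ⟪ξ, ξ⟫_ℂ = 1 := by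
    have := hinner 1 1
    simpa [hf1] using this
  -- the functional `ψ`
  let l : A →ₗ[ℂ] ℂ :=
    { toFun := fun a => ⟪ξ, T (π a ξ)⟫_ℂ
      map_add' := by intro a b; simp [inner_add_right]
      map_smul' := by intro c a; simp [inner_smul_right] }
  have hl : ∀ a b, l (star a * b) = ⟪π a ξ, T (π b ξ)⟫_ℂ := by
    intro a b
    change ⟪ξ, T (π (star a * b) ξ)⟫_ℂ = _
    rw [hadj, map_mul, mul_apply_eq_comp, hTc]
  have hlpos : ∀ a, 0 ≤ a → 0 ≤ l a := by
    intro a ha
    obtain ⟨b, rfl⟩ := CStarAlgebra.nonneg_iff_eq_star_mul_self.mp ha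
    rw [hl]
    rw [Complex.le_def]
    exact ⟨by simpa using h0 _, by simpa using (hsa _).symm⟩
  have hlpos' : ∀ a, 0 ≤ a → 0 ≤ (f.toLinearMap - l) a := by
    intro a ha
    obtain ⟨b, rfl⟩ := CStarAlgebra.nonneg_iff_eq_star_mul_self.mp ha
    rw [LinearMap.sub_apply, hl]
    have e : f.toLinearMap (star b * b) = ⟪π b ξ, π b ξ⟫_ℂ := (hinner b b).symm
    rw [e, inner_self_eq_norm_sq_to_K, Complex.le_def]
    constructor
    · have := h1 (π b ξ)
      simp only [Complex.zero_re, Complex.sub_re]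
      have e2 : (((‖π b ξ‖ : ℝ) : ℂ) ^ 2).re = ‖π b ξ‖ ^ 2 := by
        rw [← Complex.ofReal_pow, Complex.ofReal_re]
      change 0 ≤ (((‖π b ξ‖ : ℝ) : ℂ) ^ 2).re - _
      rw [e2]
      linarith
    · have := hsa (π b ξ)
      simp only [Complex.zero_im, Complex.sub_im]
      have e2 : (((‖π b ξ‖ : ℝ) : ℂ) ^ 2).im = 0 := by
        rw [← Complex.ofReal_pow, Complex.ofReal_im]
      change 0 = (((‖π b ξ‖ : ℝ) : ℂ) ^ 2).im - _
      rw [e2, this]
      simp
  let p : A →ₚ[ℂ] ℂ := PositiveLinearMap.mk₀ l hlpos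
  let q : A →ₚ[ℂ] ℂ := PositiveLinearMap.mk₀ (f.toLinearMap - l) hlpos'
  have hpa : ∀ a, p a = l a := fun a => rfl
  have hqa : ∀ a, q a = f a - l a := fun a => rfl
  obtain ⟨t, ht⟩ : ∃ t : ℝ, l 1 = (t : ℂ) := by
    refine ⟨(l 1).re, ?_⟩
    apply Complex.ext
    · simp
    · simpa using (Complex.le_def.mp (hlpos 1 zero_le_one)).2.symm
  have hp1 : p 1 = (t : ℂ) := ht
  have hq1 : q 1 = ((1 - t : ℝ) : ℂ) := by
    rw [hqa, hf1, ht]; push_cast; ring
  have ht0 : 0 ≤ t := by
    have := hlpos 1 zero_le_one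
    rw [ht] at this
    exact_mod_cast this
  have ht1 : 0 ≤ 1 - t := by
    have := q.map_nonneg (zero_le_one (α := A))
    rw [hq1] at this
    exact_mod_cast this
  have key : ∀ a, l a = (t : ℂ) * f a := by
    rcases ht0.eq_or_lt with h | h
    · intro a
      have := norm_apply_le p a
      rw [hp1, Complex.ofReal_re, ← h, zero_mul] at this
      have h2 : l a = 0 := norm_eq_zero.mp (le_antisymm this (norm_nonneg _))
      rw [h2, ← h]
      simp
    rcases ht1.eq_or_lt with h' | h'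
    · intro a
      have := norm_apply_le q a
      rw [hq1, Complex.ofReal_re, ← h', zero_mul] at this
      have h2 : f a - l a = 0 := norm_eq_zero.mp (le_antisymm this (norm_nonneg _))
      have h3 : t = 1 := by linarith
      rw [h3]
      simp only [Complex.ofReal_one, one_mul]
      exact (sub_eq_zero.mp h2).symm
    · have hm1 := normalize_mem_states p t h hp1
      have hm2 := normalize_mem_states q (1 - t) h' hq1
      rw [mem_extremePoints] at hext
      have := (hext.2 _ hm1 _ hm2 ⟨t, 1 - t, h, h', by ring, ?_⟩).1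
      · intro a
        have h5 : ((t⁻¹ : ℝ) : ℂ) * p a = f a := congrFun this a
        rw [← h5, ← mul_assoc, ← Complex.ofReal_mul, mul_inv_cancel₀ h.ne']
        simp [hpa]
      · funext a
        simp only [Pi.add_apply, Pi.smul_apply, Complex.real_smul]
        rw [← mul_assoc, ← mul_assoc, ← Complex.ofReal_mul, ← Complex.ofReal_mul,
          mul_inv_cancel₀ h.ne', mul_inv_cancel₀ h'.ne', hpa, hqa]
        simp
  refine ⟨(t : ℂ), ?_⟩
  rw [← sub_eq_zero]
  apply eq_of_dense_inner (fun a : A => π a ξ) (gns_dense f)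
  intro a b
  rw [sub_apply, inner_sub_right, ← hl, key]
  simp [hinner]

lemma commutant_of_extreme (f : A →ₚ[ℂ] ℂ) (hf1 : f 1 = 1)
    (hext : (fun a => f a) ∈ (states A).extremePoints ℝ)
    (T : f.GNS →L[ℂ] f.GNS) (hT : ∀ a, T * f.gnsStarAlgHom a = f.gnsStarAlgHom a * T) :
    ∃ c : ℂ, T = c • (1 : f.GNS →L[ℂ] f.GNS) := by
  -- the self-adjoint case
  have hsacase : ∀ S : f.GNS →L[ℂ] f.GNS, IsSelfAdjoint S →
      (∀ a, S * f.gnsStarAlgHom a = f.gnsStarAlgHom a * S) →
      ∃ c : ℂ, S = c • (1 : f.GNS →L[ℂ] f.GNS) := by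
    intro S hS hcomm
    set C : ℝ := ‖S‖ + 1 with hC
    have hCpos : 0 < C := by positivity
    have him : ∀ x, (⟪x, S x⟫_ℂ).im = 0 := by
      intro x
      have h1 : ⟪x, S x⟫_ℂ = ⟪S x, x⟫_ℂ := by
        rw [← ContinuousLinearMap.adjoint_inner_right, ← ContinuousLinearMap.star_eq_adjoint,
          hS.star_eq]
      have h2 : (starRingEnd ℂ) ⟪x, S x⟫_ℂ = ⟪x, S x⟫_ℂ := by
        rw [inner_conj_symm, ← h1]
      exact Complex.conj_eq_iff_im.mp h2
    have hre : ∀ x, |(⟪x, S x⟫_ℂ).re| ≤ C * ‖x‖ ^ 2 := by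
      intro x
      calc |(⟪x, S x⟫_ℂ).re| ≤ ‖⟪x, S x⟫_ℂ‖ := Complex.abs_re_le_norm _
        _ ≤ ‖x‖ * ‖S x‖ := norm_inner_le_norm _ _
        _ ≤ ‖x‖ * (‖S‖ * ‖x‖) := by gcongr; exact S.le_opNorm x
        _ = ‖S‖ * ‖x‖ ^ 2 := by ring
        _ ≤ C * ‖x‖ ^ 2 := by gcongr; rw [hC]; linarith
    let T' : f.GNS →L[ℂ] f.GNS := (((2 * C)⁻¹ : ℝ) : ℂ) • (S + (C : ℂ) • 1)
    have hT'in : ∀ x, ⟪x, T' x⟫_ℂ =
        (((2 * C)⁻¹ : ℝ) : ℂ) * (⟪x, S x⟫_ℂ + ((C * ‖x‖ ^ 2 : ℝ) : ℂ)) := by
      intro x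
      simp only [T', smul_apply, add_apply, one_apply_eq_self,
        inner_smul_right, inner_add_right, inner_self_eq_norm_sq_to_K]
      push_cast
      rfl
    have g1 : ∀ a, T' * f.gnsStarAlgHom a = f.gnsStarAlgHom a * T' := by
      intro a
      simp only [T', smul_mul_assoc, mul_smul_comm, add_mul, mul_add, hcomm, one_mul, mul_one]
    have g2 : ∀ x, (⟪x, T' x⟫_ℂ).im = 0 := by
      intro x
      rw [hT'in, Complex.im_ofReal_mul, Complex.add_im, him, Complex.ofReal_im]
      simp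
    have g3 : ∀ x, 0 ≤ (⟪x, T' x⟫_ℂ).re := by
      intro x
      rw [hT'in, Complex.re_ofReal_mul, Complex.add_re, Complex.ofReal_re]
      have := (abs_le.mp (hre x)).1
      apply mul_nonneg (by positivity)
      linarith
    have g4 : ∀ x, (⟪x, T' x⟫_ℂ).re ≤ ‖x‖ ^ 2 := by
      intro x
      rw [hT'in, Complex.re_ofReal_mul, Complex.add_re, Complex.ofReal_re]
      have := (abs_le.mp (hre x)).2
      rw [inv_mul_le_iff₀ (by positivity)]
      linarith
    obtain ⟨c, hc⟩ := commutant_of_extreme_aux f hf1 hext T' g1 g2 g3 g4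
    refine ⟨((2 * C : ℝ) : ℂ) * c - C, ?_⟩
    have h3 : ((2 * C : ℝ) : ℂ) • T' = S + (C : ℂ) • 1 := by
      simp only [T', smul_smul]
      rw [← Complex.ofReal_mul, mul_inv_cancel₀ (by positivity)]
      simp
    rw [hc] at h3
    rw [sub_smul, mul_smul, h3]
    simp
  have hTstar : ∀ a, star T * f.gnsStarAlgHom a = f.gnsStarAlgHom a * star T := by
    intro a
    have := congrArg star (hT (star a))
    rw [star_mul, star_mul, ← map_star, star_star] at this
    exact this.symm
  have hreal : ∀ a, (realPart T : f.GNS →L[ℂ] f.GNS) * f.gnsStarAlgHom a =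
      f.gnsStarAlgHom a * (realPart T : f.GNS →L[ℂ] f.GNS) := by
    intro a
    rw [realPart_apply_coe, smul_mul_assoc, mul_smul_comm, add_mul, mul_add, hT, hTstar]
  have himag : ∀ a, (imaginaryPart T : f.GNS →L[ℂ] f.GNS) * f.gnsStarAlgHom a =
      f.gnsStarAlgHom a * (imaginaryPart T : f.GNS →L[ℂ] f.GNS) := by
    intro a
    rw [imaginaryPart_apply_coe, smul_mul_assoc, smul_mul_assoc, mul_smul_comm, mul_smul_comm,
      sub_mul, mul_sub, hT, hTstar]
  obtain ⟨c, hc⟩ := hsacase _ (realPart T).2 hreal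
  obtain ⟨d, hd⟩ := hsacase _ (imaginaryPart T).2 himag
  refine ⟨c + I * d, ?_⟩
  have := realPart_add_I_smul_imaginaryPart T
  rw [← this, hc, hd, add_smul, mul_smul]

end States

/-- Irreducible representations separate the points of a unital C*-algebra. -/
theorem exists_irr {A : Type u} [CStarAlgebra A] (x : A) (hx : x ≠ 0) :
    ∃ (H : Type u) (_ : NormedAddCommGroup H) (_ : InnerProductSpace ℂ H) (_ : CompleteSpace H)
      (π : A →⋆ₐ[ℂ] (H →L[ℂ] H)), IsIrr π ∧ π x ≠ 0 := by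
  let _ := CStarAlgebra.spectralOrder A
  let _ := CStarAlgebra.spectralOrderedRing A
  have hb0 : star x * x ≠ 0 := by
    intro h
    apply hx
    rw [← norm_eq_zero, ← sq_eq_zero_iff, sq, ← CStarRing.norm_star_mul_self, h, norm_zero]
  obtain ⟨φ, hφ, hpos⟩ := exists_extreme_state_pos (star x * x) (star_mul_self_nonneg x) hb0
  obtain ⟨f, hf1, hf⟩ := hφ.1
  have hφf : (fun a => f a) = φ := funext hf
  rw [← hφf] at hφ
  have hne : f.gnsStarAlgHom x ≠ 0 := by
    intro h
    have := gns_inner f x x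
    rw [h] at this
    rw [← hφf] at hpos
    simp only at hpos
    rw [← this] at hpos
    simp at hpos
  refine ⟨f.GNS, inferInstance, inferInstance, inferInstance, f.gnsStarAlgHom, ⟨?_, ?_⟩, hne⟩
  · by_contra hcon
    rw [not_nontrivial_iff_subsingleton] at hcon
    apply hne
    ext y
    exact Subsingleton.elim _ _
  · exact commutant_of_extreme f hf1 hφ

end Pool.Agent.MP_dbaee1_an
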