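import Mathlib
import Pool.Agent.Lib.MP_dbaee1_an.Irr

/-!
# Density theorems for finite families of pairwise disjoint irreducible representations
-/

open scoped ComplexOrder InnerProductSpace
open Complex

namespace Pool.Agent.MP_dbaee1_an

universe u v

section

variable {A : Type u} [CStarAlgebra A] {H : Type v} [NormedAddCommGroup H]
    [InnerProductSpace ℂ H] [CompleteSpace H]

lemma rep_adj (π : A →⋆ₐ[ℂ] (H →L[ℂ] H)) (a : A) (x y : H) :
    ⟪π a x, y⟫_ℂ = ⟪x, π (star a) y⟫_ℂ := by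
  rw [map_star, ContinuousLinearMap.star_eq_adjoint, ContinuousLinearMap.adjoint_inner_right]

/-- Two representations on the same space are unitarily equivalent. -/
def UEquiv (ρ₁ ρ₂ : A →⋆ₐ[ℂ] (H →L[ℂ] H)) : Prop :=
  ∃ U : H ≃ₗᵢ[ℂ] H, ∀ a x, U (ρ₁ a x) = ρ₂ a (U x)

lemma UEquiv.refl (ρ : A →⋆ₐ[ℂ] (H →L[ℂ] H)) : UEquiv ρ ρ :=
  ⟨LinearIsometryEquiv.refl ℂ H, fun _ _ => rfl⟩

lemma UEquiv.symm {ρ₁ ρ₂ : A →⋆ₐ[ℂ] (H →L[ℂ] H)} (h : UEquiv ρ₁ ρ₂) : UEquiv ρ₂ ρ₁ := by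
  obtain ⟨U, hU⟩ := h
  refine ⟨U.symm, fun a x => ?_⟩
  rw [LinearIsometryEquiv.symm_apply_eq, hU, U.apply_symm_apply]

lemma UEquiv.trans {ρ₁ ρ₂ ρ₃ : A →⋆ₐ[ℂ] (H →L[ℂ] H)} (h : UEquiv ρ₁ ρ₂) (h' : UEquiv ρ₂ ρ₃) :
    UEquiv ρ₁ ρ₃ := by
  obtain ⟨U, hU⟩ := h
  obtain ⟨V, hV⟩ := h'
  refine ⟨U.trans V, fun a x => ?_⟩
  rw [LinearIsometryEquiv.trans_apply, hU, hV, LinearIsometryEquiv.trans_apply]

/-- Schur's lemma: a bounded intertwiner between irreducible representations which are not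
unitarily equivalent is zero. -/
lemma intertwiner_zero {ρ₁ ρ₂ : A →⋆ₐ[ℂ] (H →L[ℂ] H)} (h₁ : IsIrr ρ₁) (h₂ : IsIrr ρ₂)
    (hne : ¬ UEquiv ρ₁ ρ₂) (T : H →L[ℂ] H) (hT : ∀ a x, T (ρ₁ a x) = ρ₂ a (T x)) : T = 0 := by
  by_contra hT0
  have hTs : ∀ a x, star T (ρ₂ a x) = ρ₁ a (star T x) := by
    intro a x
    apply ext_inner_right ℂ
    intro y
    rw [rep_adj, ContinuousLinearMap.star_eq_adjoint, ContinuousLinearMap.adjoint_inner_left,
      ContinuousLinearMap.adjoint_inner_left, rep_adj, hT]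
  obtain ⟨c, hc⟩ := h₁.2 (star T * T) (by
    intro a
    ext x
    simp only [mul_apply_eq_comp, hT, hTs])
  obtain ⟨d, hd⟩ := h₂.2 (T * star T) (by
    intro a
    ext x
    simp only [mul_apply_eq_comp, hT, hTs])
  have hcx : ∀ x, star T (T x) = c • x := fun x => DFunLike.congr_fun hc x
  have hdx : ∀ x, T (star T x) = d • x := fun x => DFunLike.congr_fun hd x
  have hn : ∀ x, ((‖T x‖ ^ 2 : ℝ) : ℂ) = c * ((‖x‖ ^ 2 : ℝ) : ℂ) := by
    intro x
    have h1 : ⟪T x, T x⟫_ℂ = ⟪x, star T (T x)⟫_ℂ := by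
      rw [ContinuousLinearMap.star_eq_adjoint, ContinuousLinearMap.adjoint_inner_right]
    rw [hcx, inner_smul_right, inner_self_eq_norm_sq_to_K, inner_self_eq_norm_sq_to_K] at h1
    push_cast
    exact h1
  obtain ⟨x₀, hx₀⟩ : ∃ x, T x ≠ 0 := by
    by_contra hcon
    push Not at hcon
    exact hT0 (by ext x; simpa using hcon x)
  have hx₀' : x₀ ≠ 0 := by
    rintro rfl
    simp at hx₀
  have hcr : c = ((‖T x₀‖ ^ 2 / ‖x₀‖ ^ 2 : ℝ) : ℂ) := by
    have := hn x₀
    have h2 : ((‖x₀‖ ^ 2 : ℝ) : ℂ) ≠ 0 := by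
      exact_mod_cast pow_ne_zero 2 (norm_ne_zero_iff.mpr hx₀')
    rw [Complex.ofReal_div, this, mul_div_cancel_right₀ _ h2]
  set r : ℝ := ‖T x₀‖ ^ 2 / ‖x₀‖ ^ 2 with hr
  have hrpos : 0 < r := by
    have := norm_pos_iff.mpr hx₀
    have := norm_pos_iff.mpr hx₀'
    positivity
  have hnr : ∀ x, ‖T x‖ ^ 2 = r * ‖x‖ ^ 2 := by
    intro x
    have := hn x
    rw [hcr] at this
    exact_mod_cast this
  have hsq : 0 < Real.sqrt r := Real.sqrt_pos.mpr hrpos
  have hd0 : d ≠ 0 := by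
    intro h
    have h1 := hdx (T x₀)
    rw [hcx, h, zero_smul, map_smul, hcr] at h1
    have := smul_eq_zero.mp h1
    rcases this with h2 | h2
    · exact hrpos.ne' (by exact_mod_cast h2)
    · exact hx₀ h2
  let L : H →ₗᵢ[ℂ] H :=
    { toLinearMap := ((((Real.sqrt r)⁻¹ : ℝ) : ℂ) • T).toLinearMap
      norm_map' := by
        intro x
        change ‖(((Real.sqrt r)⁻¹ : ℝ) : ℂ) • T x‖ = ‖x‖
        rw [norm_smul, Complex.norm_real, Real.norm_of_nonneg (by positivity)]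
        rw [inv_mul_eq_iff_eq_mul₀ hsq.ne']
        rw [← Real.sqrt_sq (norm_nonneg (T x)), hnr, Real.sqrt_mul hrpos.le,
          Real.sqrt_sq (norm_nonneg x)] }
  have hLapp : ∀ x, L x = (((Real.sqrt r)⁻¹ : ℝ) : ℂ) • T x := fun x => rfl
  have hLsurj : Function.Surjective L := by
    intro y
    refine ⟨((Real.sqrt r : ℝ) : ℂ) • d⁻¹ • star T y, ?_⟩
    rw [hLapp, map_smul, map_smul, hdx, smul_smul, smul_smul d⁻¹, inv_mul_cancel₀ hd0, one_smul,
      ← Complex.ofReal_mul, inv_mul_cancel₀ hsq.ne', Complex.ofReal_one, one_smul]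
  apply hne
  refine ⟨LinearIsometryEquiv.ofSurjective L hLsurj, fun a x => ?_⟩
  simp only [LinearIsometryEquiv.coe_ofSurjective, hLapp, hT, map_smul]

/-- The diagonal action on a finite Hilbert sum. -/
noncomputable def dg {κ : Type*} [Fintype κ] (ρ : κ → (A →⋆ₐ[ℂ] (H →L[ℂ] H))) (a : A)
    (w : PiLp 2 (fun _ : κ => H)) : PiLp 2 (fun _ : κ => H) :=
  WithLp.toLp 2 fun p => ρ p a (w p)

/-- Density theorem, general form: a finite family of irreducible representations, any two of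
which are equal or inequivalent. -/
theorem density' {κ : Type*} [Fintype κ] (ρ : κ → (A →⋆ₐ[ℂ] (H →L[ℂ] H)))
    (hirr : ∀ i, IsIrr (ρ i)) (T : κ → H →L[ℂ] H)
    (hne : ∀ p q, (ρ q = ρ p ∧ T q = T p) ∨ ¬ UEquiv (ρ q) (ρ p))
    (v : κ → H) (δ : ℝ) (hδ : 0 < δ) :
    ∃ a : A, ∀ i, ‖ρ i a (v i) - T i (v i)‖ < δ := by
  classical
  let Ψ : A →ₗ[ℂ] PiLp 2 (fun _ : κ => H) :=
    { toFun := fun a => WithLp.toLp 2 fun p => ρ p a (v p)
      map_add' := by intro a b; ext p; simp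
      map_smul' := by intro c a; ext p; simp }
  let S : Submodule ℂ (PiLp 2 (fun _ : κ => H)) := (LinearMap.range Ψ).topologicalClosure
  have hSclosed : IsClosed (S : Set (PiLp 2 (fun _ : κ => H))) :=
    Submodule.isClosed_topologicalClosure _
  have hScl : ∀ w, w ∈ S ↔ w ∈ closure (LinearMap.range Ψ : Set (PiLp 2 (fun _ : κ => H))) := by
    intro w
    rw [← Submodule.topologicalClosure_coe]
    rfl
  have : CompleteSpace S := hSclosed.completeSpace_coe
  let P := S.starProjection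
  have hdgc : ∀ a, Continuous (dg ρ a) := by
    intro a
    unfold dg
    fun_prop
  have hinv : ∀ a, ∀ w ∈ S, dg ρ a w ∈ S := by
    intro a w hw
    have : (LinearMap.range Ψ : Set (PiLp 2 (fun _ : κ => H))) ⊆ dg ρ a ⁻¹' (S : Set _) := by
      rintro _ ⟨b, rfl⟩
      apply Submodule.le_topologicalClosure
      refine ⟨a * b, ?_⟩
      ext p
      simp [Ψ, dg]
    have h2 := closure_minimal this (hSclosed.preimage (hdgc a))
    exact h2 ((hScl w).mp hw)
  have hdginner : ∀ a u w, ⟪u, dg ρ a w⟫_ℂ = ⟪dg ρ (star a) u, w⟫_ℂ := by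
    intro a u w
    simp only [PiLp.inner_apply, dg]
    refine Finset.sum_congr rfl fun p _ => ?_
    change ⟪u p, ρ p a (w p)⟫_ℂ = ⟪ρ p (star a) (u p), w p⟫_ℂ
    rw [rep_adj, star_star]
  have hdgadd : ∀ a u w, dg ρ a (u + w) = dg ρ a u + dg ρ a w := by
    intro a u w
    ext p
    simp [dg]
  have hPcomm : ∀ a w, P (dg ρ a w) = dg ρ a (P w) := by
    intro a w
    change S.starProjection (dg ρ a w) = dg ρ a (P w)
    apply Submodule.eq_starProjection_of_mem_orthogonal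
    · exact hinv a _ (Submodule.starProjection_apply_mem _ _)
    · have e : dg ρ a w - dg ρ a (P w) = dg ρ a (w - P w) := by
        rw [sub_eq_iff_eq_add, ← hdgadd, sub_add_cancel]
      rw [e, Submodule.mem_orthogonal]
      intro u hu
      rw [hdginner]
      exact (Submodule.mem_orthogonal _ _).mp (Submodule.sub_starProjection_mem_orthogonal w) _
        (hinv _ _ hu)
  -- matrix entries of `P`
  let sg : κ → H →ₗ[ℂ] PiLp 2 (fun _ : κ => H) := fun q =>
    { toFun := fun x => WithLp.toLp 2 (Pi.single q x)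
      map_add' := by
        intro x y
        rw [Pi.single_add, WithLp.toLp_add]
      map_smul' := by
        intro c x
        rw [Pi.single_smul, WithLp.toLp_smul]
        rfl }
  have hsgapp : ∀ q x p, sg q x p = if p = q then x else 0 := by
    intro q x p
    simp [sg, Pi.single_apply]
  have hsgnorm : ∀ q x, ‖sg q x‖ = ‖x‖ := by
    intro q x
    rw [PiLp.norm_eq_of_L2]
    have : ∀ p, ‖sg q x p‖ ^ 2 = if p = q then ‖x‖ ^ 2 else 0 := by
      intro p
      rw [hsgapp]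
      split_ifs <;> simp
    simp only [this, Finset.sum_ite_eq', Finset.mem_univ, if_true]
    exact Real.sqrt_sq (norm_nonneg x)
  have hentry : ∀ p q : κ, ∃ R : H →L[ℂ] H, ∀ x, R x = (P (sg q x)) p := by
    intro p q
    refine ⟨LinearMap.mkContinuous
      { toFun := fun x => (P (sg q x)) p
        map_add' := by intro x y; simp
        map_smul' := by intro c x; simp } ‖P‖ ?_, fun x => rfl⟩
    intro x
    change ‖(P (sg q x)) p‖ ≤ _
    calc ‖(P (sg q x)) p‖ ≤ ‖P (sg q x)‖ := PiLp.norm_apply_le _ _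
      _ ≤ ‖P‖ * ‖sg q x‖ := P.le_opNorm _
      _ = ‖P‖ * ‖x‖ := by rw [hsgnorm]
  choose R hR using hentry
  have hRint : ∀ p q a x, R p q (ρ q a x) = ρ p a (R p q x) := by
    intro p q a x
    rw [hR, hR]
    have e : sg q (ρ q a x) = dg ρ a (sg q x) := by
      ext p'
      rw [hsgapp]
      simp only [dg]
      rw [hsgapp]
      split_ifs with h
      · rw [h]
      · simp
    rw [e, hPcomm]
    rfl
  have hRT : ∀ p q x, R p q (T q x) = T p (R p q x) := by
    intro p q x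
    rcases hne p q with ⟨h1, h2⟩ | h
    · obtain ⟨c, hc⟩ := (hirr p).2 (R p q) (by
        intro a
        ext y
        simp only [mul_apply_eq_comp]
        have := hRint p q a y
        rw [h1] at this
        exact this)
      rw [hc, h2]
      simp
    · have := intertwiner_zero (hirr q) (hirr p) h (R p q) (hRint p q)
      rw [this]
      simp
  have hsum : ∀ w : PiLp 2 (fun _ : κ => H), w = ∑ q, sg q (w q) := by
    intro w
    ext p
    rw [WithLp.ofLp_sum, Finset.sum_apply]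
    simp only [hsgapp, Finset.sum_ite_eq, Finset.mem_univ, if_true]
  have hPsum : ∀ w : PiLp 2 (fun _ : κ => H), ∀ p, P w p = ∑ q, R p q (w q) := by
    intro w p
    conv_lhs => rw [hsum w]
    rw [map_sum, WithLp.ofLp_sum, Finset.sum_apply]
    simp only [hR]
  have hΨ1 : Ψ 1 ∈ S := Submodule.le_topologicalClosure _ ⟨1, rfl⟩
  set Tv : PiLp 2 (fun _ : κ => H) := WithLp.toLp 2 fun p => T p (v p) with hTv
  have hPTv : P Tv = Tv := by
    ext p
    rw [hPsum]
    have e1 : ∀ q, Tv q = T q ((Ψ 1) q) := by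
      intro q
      simp [hTv, Ψ]
    simp only [e1, hRT]
    rw [← map_sum, ← hPsum, Submodule.starProjection_eq_self_iff.mpr hΨ1]
  have hTvS : Tv ∈ S := Submodule.starProjection_eq_self_iff.mp hPTv
  rw [hScl, Metric.mem_closure_iff] at hTvS
  obtain ⟨_, ⟨a, rfl⟩, ha⟩ := hTvS δ hδ
  refine ⟨a, fun i => ?_⟩
  rw [dist_comm, dist_eq_norm] at ha
  calc ‖ρ i a (v i) - T i (v i)‖ = ‖(Ψ a - Tv) i‖ := rfl
    _ ≤ ‖Ψ a - Tv‖ := PiLp.norm_apply_le _ _
    _ < δ := ha

/-- Density theorem: for a finite family of pairwise inequivalent irreducible representations,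
any tuple of bounded operators is strongly approximated on finitely many vectors. -/
theorem density {ι L : Type*} [Fintype ι] [Fintype L] (ρ : ι → (A →⋆ₐ[ℂ] (H →L[ℂ] H)))
    (hirr : ∀ i, IsIrr (ρ i)) (hne : ∀ i j, i ≠ j → ¬ UEquiv (ρ i) (ρ j))
    (T : ι → H →L[ℂ] H) (v : ι → L → H) (δ : ℝ) (hδ : 0 < δ) :
    ∃ a : A, ∀ i l, ‖ρ i a (v i l) - T i (v i l)‖ < δ := by
  obtain ⟨a, ha⟩ := density' (κ := ι × L) (fun p => ρ p.1) (fun p => hirr p.1) (fun p => T p.1)
    (by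
      intro p q
      by_cases h : q.1 = p.1
      · left
        rw [h]
        exact ⟨rfl, rfl⟩
      · right
        exact hne _ _ h) (fun p => v p.1 p.2) δ hδ
  exact ⟨a, fun i l => ha (i, l)⟩

/-- Strong-star version of the density theorem. -/
theorem density_star' {κ : Type*} [Fintype κ] (ρ : κ → (A →⋆ₐ[ℂ] (H →L[ℂ] H)))
    (hirr : ∀ i, IsIrr (ρ i)) (T : κ → H →L[ℂ] H)
    (hne : ∀ p q, (ρ q = ρ p ∧ T q = T p) ∨ ¬ UEquiv (ρ q) (ρ p))
    (v w : κ → H) (δ : ℝ) (hδ : 0 < δ) :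
    ∃ a : A, ∀ i, ‖ρ i a (v i) - T i (v i)‖ < δ ∧ ‖ρ i (star a) (w i) - star (T i) (w i)‖ < δ := by
  classical
  let z : A → PiLp 2 (fun _ : κ ⊕ κ => H) := fun a =>
    WithLp.toLp 2 (Sum.elim (fun p => ρ p a (v p)) (fun p => ρ p (star a) (w p)))
  let zT : PiLp 2 (fun _ : κ ⊕ κ => H) :=
    WithLp.toLp 2 (Sum.elim (fun p => T p (v p)) (fun p => star (T p) (w p)))
  have hconv : Convex ℝ (Set.range z) := by
    rintro _ ⟨a, rfl⟩ _ ⟨b, rfl⟩ s t _ _ _
    refine ⟨(s : ℂ) • a + (t : ℂ) • b, ?_⟩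
    ext p
    rcases p with p | p
    · have h1 : ρ p ((s : ℂ) • a + (t : ℂ) • b) (v p) =
          (s : ℂ) • ρ p a (v p) + (t : ℂ) • ρ p b (v p) := by
        rw [map_add, map_smul, map_smul, add_apply, smul_apply, smul_apply]
      exact h1
    · have h1 : ρ p (star ((s : ℂ) • a + (t : ℂ) • b)) (w p) =
          (s : ℂ) • ρ p (star a) (w p) + (t : ℂ) • ρ p (star b) (w p) := by
        rw [star_add, star_smul, star_smul, map_add, map_smul, map_smul, add_apply, smul_apply,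
          smul_apply]
        simp
      exact h1
  suffices hcl : zT ∈ closure (Set.range z) by
    rw [Metric.mem_closure_iff] at hcl
    obtain ⟨_, ⟨a, rfl⟩, ha⟩ := hcl δ hδ
    rw [dist_comm, dist_eq_norm] at ha
    refine ⟨a, fun i => ⟨?_, ?_⟩⟩
    · calc ‖ρ i a (v i) - T i (v i)‖ = ‖(z a - zT) (Sum.inl i)‖ := rfl
        _ ≤ ‖z a - zT‖ := PiLp.norm_apply_le _ _
        _ < δ := ha
    · calc ‖ρ i (star a) (w i) - star (T i) (w i)‖ = ‖(z a - zT) (Sum.inr i)‖ := rfl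
        _ ≤ ‖z a - zT‖ := PiLp.norm_apply_le _ _
        _ < δ := ha
  by_contra hcl
  obtain ⟨f, r, hf1, hf2⟩ := RCLike.geometric_hahn_banach_closed_point (𝕜 := ℂ) hconv.closure
    isClosed_closure hcl
  set u := (InnerProductSpace.toDual ℂ (PiLp 2 (fun _ : κ ⊕ κ => H))).symm f with hu
  have hfu : ∀ y, f y = ⟪u, y⟫_ℂ := by
    intro y
    rw [hu, InnerProductSpace.toDual_symm_apply]
  have hfz : ∀ a, f (z a) = ∑ p, ⟪u (Sum.inl p), ρ p a (v p)⟫_ℂ +
      ∑ p, ⟪ρ p a (u (Sum.inr p)), w p⟫_ℂ := by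
    intro a
    rw [hfu, PiLp.inner_apply, Fintype.sum_sum_type]
    congr 1
    refine Finset.sum_congr rfl fun p _ => ?_
    rw [rep_adj]
    rfl
  have hfT : f zT = ∑ p, ⟪u (Sum.inl p), T p (v p)⟫_ℂ +
      ∑ p, ⟪T p (u (Sum.inr p)), w p⟫_ℂ := by
    rw [hfu, PiLp.inner_apply, Fintype.sum_sum_type]
    congr 1
    refine Finset.sum_congr rfl fun p _ => ?_
    rw [← ContinuousLinearMap.adjoint_inner_right, ← ContinuousLinearMap.star_eq_adjoint]
    rfl
  have hd : ∀ n : ℕ, ∃ a : A, (∀ p, ‖ρ p a (v p) - T p (v p)‖ < 1 / ((n : ℝ) + 1)) ∧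
      ∀ p, ‖ρ p a (u (Sum.inr p)) - T p (u (Sum.inr p))‖ < 1 / ((n : ℝ) + 1) := by
    intro n
    obtain ⟨a, ha⟩ := density' (κ := κ ⊕ κ) (Sum.elim ρ ρ)
      (by rintro (p | p) <;> exact hirr p) (Sum.elim T T)
      (by rintro (p | p) (q | q) <;> exact hne p q)
      (Sum.elim v (fun p => u (Sum.inr p))) (1 / ((n : ℝ) + 1)) (by positivity)
    exact ⟨a, fun p => ha (Sum.inl p), fun p => ha (Sum.inr p)⟩
  choose a ha1 ha2 using hd
  have ht1 : ∀ p, Filter.Tendsto (fun n => ρ p (a n) (v p)) Filter.atTop (nhds (T p (v p))) := by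
    intro p
    rw [tendsto_iff_norm_sub_tendsto_zero]
    exact squeeze_zero (fun _ => norm_nonneg _) (fun n => (ha1 n p).le)
      tendsto_one_div_add_atTop_nhds_zero_nat
  have ht2 : ∀ p, Filter.Tendsto (fun n => ρ p (a n) (u (Sum.inr p))) Filter.atTop
      (nhds (T p (u (Sum.inr p)))) := by
    intro p
    rw [tendsto_iff_norm_sub_tendsto_zero]
    exact squeeze_zero (fun _ => norm_nonneg _) (fun n => (ha2 n p).le)
      tendsto_one_div_add_atTop_nhds_zero_nat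
  have hlim : Filter.Tendsto (fun n => f (z (a n))) Filter.atTop (nhds (f zT)) := by
    simp only [hfz]
    rw [hfT]
    refine Filter.Tendsto.add ?_ ?_
    · exact tendsto_finsetSum _ fun p _ => Filter.Tendsto.inner tendsto_const_nhds (ht1 p)
    · exact tendsto_finsetSum _ fun p _ => Filter.Tendsto.inner (ht2 p) tendsto_const_nhds
  have hlim2 := (RCLike.continuous_re.tendsto (f zT)).comp hlim
  have hle := le_of_tendsto hlim2 (Filter.Eventually.of_forall fun n =>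
    (hf1 (z (a n)) (subset_closure ⟨a n, rfl⟩)).le)
  exact absurd hf2 (not_lt.mpr hle)

end

end Pool.Agent.MP_dbaee1_an
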