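import Mathlib
import Pool.Agent.Lib.MP_dbaee1_an.Density

/-!
# Consequences of the density theorem
-/

open scoped ComplexOrder InnerProductSpace
open Complex

namespace Pool.Agent.MP_dbaee1_an

universe u v

section

variable {A : Type u} [CStarAlgebra A] {H : Type v} [NormedAddCommGroup H]
    [InnerProductSpace ℂ H] [CompleteSpace H]

lemma exists_ne_zero_of_ne_zero {T : H →L[ℂ] H} (hT : T ≠ 0) : ∃ x, T x ≠ 0 := by
  by_contra hcon
  push Not at hcon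
  exact hT (by ext x; simpa using hcon x)

/-- A rank one operator sending `x` to `y`. -/
lemma exists_rank_one (x y : H) (hx : x ≠ 0) : ∃ R : H →L[ℂ] H, R x = y := by
  refine ⟨((‖x‖ ^ 2 : ℝ) : ℂ)⁻¹ • (InnerProductSpace.rankOne ℂ y x), ?_⟩
  have h1 : ((‖x‖ ^ 2 : ℝ) : ℂ) ≠ 0 := by
    exact_mod_cast pow_ne_zero 2 (norm_ne_zero_iff.mpr hx)
  have h2 : ⟪x, x⟫_ℂ = ((‖x‖ ^ 2 : ℝ) : ℂ) := by
    rw [inner_self_eq_norm_sq_to_K]
    push_cast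
    rfl
  rw [smul_apply, InnerProductSpace.rankOne_apply, h2, smul_smul, inv_mul_cancel₀ h1, one_smul]

/-- An irreducible representation is prime: if `S ≠ 0` and `T ≠ 0` then `S π(a) T ≠ 0` for
some `a`. -/
lemma irr_prime {π : A →⋆ₐ[ℂ] (H →L[ℂ] H)} (hirr : IsIrr π) {S T : H →L[ℂ] H} (hS : S ≠ 0)
    (hT : T ≠ 0) : ∃ a, S * π a * T ≠ 0 := by
  obtain ⟨x, hx⟩ := exists_ne_zero_of_ne_zero hT
  obtain ⟨y, hy⟩ := exists_ne_zero_of_ne_zero hS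
  obtain ⟨R, hR⟩ := exists_rank_one (T x) y hx
  have hSy : 0 < ‖S y‖ := norm_pos_iff.mpr hy
  obtain ⟨a, ha⟩ := density' (κ := Unit) (fun _ => π) (fun _ => hirr) (fun _ => R)
    (fun _ _ => Or.inl ⟨rfl, rfl⟩) (fun _ => T x) (‖S y‖ / (‖S‖ + 1)) (by positivity)
  refine ⟨a, fun h => ?_⟩
  have h1 := ha ()
  rw [hR] at h1
  have h2 : S (π a (T x)) = 0 := by
    have := DFunLike.congr_fun h x
    simpa using this
  have h3 : ‖S y‖ ≤ ‖S‖ * ‖π a (T x) - y‖ := by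
    calc ‖S y‖ = ‖S (π a (T x) - y)‖ := by rw [map_sub, h2, zero_sub, norm_neg]
      _ ≤ ‖S‖ * ‖π a (T x) - y‖ := S.le_opNorm _
  have h4 : ‖S‖ * ‖π a (T x) - y‖ ≤ ‖S‖ * (‖S y‖ / (‖S‖ + 1)) := by gcongr
  have h5 : ‖S‖ * (‖S y‖ / (‖S‖ + 1)) < ‖S y‖ := by
    rw [mul_div_assoc', div_lt_iff₀ (by positivity)]
    nlinarith [norm_nonneg S]
  linarith

/-- Twisting a representation by an automorphism. -/
noncomputable def tw (π : A →⋆ₐ[ℂ] (H →L[ℂ] H)) (b : A ≃⋆ₐ[ℂ] A) : A →⋆ₐ[ℂ] (H →L[ℂ] H) :=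
  π.comp (b : A →⋆ₐ[ℂ] A)

@[simp] lemma tw_apply (π : A →⋆ₐ[ℂ] (H →L[ℂ] H)) (b : A ≃⋆ₐ[ℂ] A) (a : A) :
    tw π b a = π (b a) := rfl

lemma IsIrr.tw {π : A →⋆ₐ[ℂ] (H →L[ℂ] H)} (h : IsIrr π) (b : A ≃⋆ₐ[ℂ] A) : IsIrr (tw π b) := by
  refine ⟨h.1, fun T hT => h.2 T fun a => ?_⟩
  have := hT (b.symm a)
  simpa using this

/-- On a finite dimensional space the density theorem is exact. -/
lemma density_exact [FiniteDimensional ℂ H] {κ : Type*} [Fintype κ]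
    (ρ : κ → (A →⋆ₐ[ℂ] (H →L[ℂ] H)))
    (hirr : ∀ i, IsIrr (ρ i)) (T : κ → H →L[ℂ] H)
    (hne : ∀ p q, (ρ q = ρ p ∧ T q = T p) ∨ ¬ UEquiv (ρ q) (ρ p)) :
    ∃ a : A, ∀ i, ρ i a = T i := by
  classical
  let b := Module.finBasis ℂ H
  let d := Module.finrank ℂ H
  let Φ : A →ₗ[ℂ] (κ × Fin d → H) :=
    { toFun := fun a p => ρ p.1 a (b p.2)
      map_add' := by intro x y; ext p; simp
      map_smul' := by intro c x; ext p; simp }
  have hcl : IsClosed (LinearMap.range Φ : Set (κ × Fin d → H)) :=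
    Submodule.closed_of_finiteDimensional _
  have hmem : (fun p : κ × Fin d => T p.1 (b p.2)) ∈ (LinearMap.range Φ : Set _) := by
    rw [← hcl.closure_eq, Metric.mem_closure_iff]
    intro ε hε
    obtain ⟨a, ha⟩ := density' (κ := κ × Fin d) (fun p => ρ p.1) (fun p => hirr p.1)
      (fun p => T p.1) (fun p q => hne p.1 q.1) (fun p => b p.2) ε hε
    refine ⟨Φ a, ⟨a, rfl⟩, ?_⟩
    rw [dist_comm, dist_pi_lt_iff hε]
    intro p
    rw [dist_eq_norm]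
    exact ha p
  obtain ⟨a, ha⟩ := hmem
  refine ⟨a, fun i => ?_⟩
  have h1 : ∀ l, ρ i a (b l) = T i (b l) := fun l => congrFun ha (i, l)
  have h2 : (ρ i a : H →ₗ[ℂ] H) = (T i : H →ₗ[ℂ] H) := b.ext (by intro l; exact h1 l)
  ext x
  exact DFunLike.congr_fun h2 x

end

end Pool.Agent.MP_dbaee1_an
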