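import Mathlib
import Pool.Agent.Lib.MP_dbaee1_an.Density2

/-!
# Good representations: norm-controlled transitivity for columns
-/

open scoped ComplexOrder InnerProductSpace
open Complex

namespace Pool.Agent.MP_dbaee1_an

universe u v w

/-- `Good β π`: each unitary equivalence class inside the finite family `π ∘ β s` is at most as
large as the dimension of the space. -/
def Good {A : Type u} [CStarAlgebra A] {H : Type v} [NormedAddCommGroup H]
    [InnerProductSpace ℂ H] [CompleteSpace H] {E : Type w} (β : E → (A ≃⋆ₐ[ℂ] A))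
    (π : A →⋆ₐ[ℂ] (H →L[ℂ] H)) : Prop :=
  ∀ s, ∃ e : {t // UEquiv (tw π (β s)) (tw π (β t))} → H, Orthonormal ℂ e

section column

variable {A : Type u} [CStarAlgebra A] {H : Type v} [NormedAddCommGroup H]
    [InnerProductSpace ℂ H] [CompleteSpace H] {N : Type*} [Fintype N]

/-- The column operator of a tuple. -/
noncomputable def colOp (π : A →⋆ₐ[ℂ] (H →L[ℂ] H)) (c : N → A) :
    H →L[ℂ] PiLp 2 (fun _ : N => H) :=
  (PiLp.continuousLinearEquiv 2 ℂ (fun _ : N => H)).symm.toContinuousLinearMap ∘L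
    ContinuousLinearMap.pi fun j => π (c j)

@[simp] lemma colOp_apply (π : A →⋆ₐ[ℂ] (H →L[ℂ] H)) (c : N → A) (x : H) (j : N) :
    colOp π c x j = π (c j) x := rfl

lemma colOp_adjoint_apply (π : A →⋆ₐ[ℂ] (H →L[ℂ] H)) (c : N → A) (w : PiLp 2 (fun _ : N => H)) :
    ContinuousLinearMap.adjoint (colOp π c) w = ∑ j, π (star (c j)) (w j) := by
  apply ext_inner_right ℂ
  intro y
  rw [ContinuousLinearMap.adjoint_inner_left, PiLp.inner_apply, sum_inner]
  refine Finset.sum_congr rfl fun j _ => ?_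
  rw [rep_adj, star_star]
  rfl

/-- The basic Hilbert space estimate behind the Kaplansky trick. -/
lemma kaplansky_aux {K₁ K₂ : Type*} [NormedAddCommGroup K₁] [InnerProductSpace ℂ K₁]
    [CompleteSpace K₁] [NormedAddCommGroup K₂] [InnerProductSpace ℂ K₂] [CompleteSpace K₂]
    (K : K₁ →L[ℂ] K₂) (u v : K₁) (w : K₂)
    (h : u + ContinuousLinearMap.adjoint K (K u) = (2 : ℂ) • v) :
    ‖K u - w‖ ≤ ‖K v - w‖ + ‖v - ContinuousLinearMap.adjoint K w‖ := by
  set z := K u - w with hz
  set Ks := ContinuousLinearMap.adjoint K with hKs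
  have h1 : z + K (Ks z) = (K v - w) + K (v - Ks w) := by
    have h2 : K u + K (Ks (K u)) = K v + K v := by
      rw [← map_add, h, map_smul, two_smul]
    rw [hz, map_sub, map_sub, map_sub]
    calc K u - w + (K (Ks (K u)) - K (Ks w)) = (K u + K (Ks (K u))) - w - K (Ks w) := by abel
      _ = _ := by rw [h2]; abel
  have h3 : ‖z‖ ^ 2 + ‖Ks z‖ ^ 2 ≤ ‖z‖ * ‖K v - w‖ + ‖Ks z‖ * ‖v - Ks w‖ := by
    have e1 : (⟪z, z + K (Ks z)⟫_ℂ) = ((‖z‖ ^ 2 + ‖Ks z‖ ^ 2 : ℝ) : ℂ) := by
      rw [inner_add_right, ← ContinuousLinearMap.adjoint_inner_left, inner_self_eq_norm_sq_to_K,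
        inner_self_eq_norm_sq_to_K]
      push_cast
      rfl
    have e2 : ⟪z, z + K (Ks z)⟫_ℂ = ⟪z, K v - w⟫_ℂ + ⟪Ks z, v - Ks w⟫_ℂ := by
      rw [h1, inner_add_right, ← ContinuousLinearMap.adjoint_inner_left]
    have e3 : ‖⟪z, z + K (Ks z)⟫_ℂ‖ = ‖z‖ ^ 2 + ‖Ks z‖ ^ 2 := by
      rw [e1, Complex.norm_real, Real.norm_of_nonneg (by positivity)]
    rw [← e3, e2]
    exact (norm_add_le _ _).trans (add_le_add (norm_inner_le_norm _ _) (norm_inner_le_norm _ _))
  have ha := norm_nonneg z
  have hb := norm_nonneg (Ks z)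
  have hc := norm_nonneg (K v - w)
  have hd := norm_nonneg (v - Ks w)
  by_contra hcon
  push Not at hcon
  nlinarith [sq_nonneg (2 * ‖Ks z‖ - ‖v - Ks w‖), mul_nonneg hc hd, mul_pos (lt_of_le_of_lt (add_nonneg hc hd) hcon) (lt_of_le_of_lt (add_nonneg hc hd) hcon)]

/-- Kaplansky trick for columns: a tuple is replaced by a contractive column with control of the
action on vectors. -/
lemma kaplansky_tuple (c₀ : N → A) : ∃ C : N → A, ‖∑ j, star (C j) * C j‖ ≤ 1 ∧
    ∀ (π : A →⋆ₐ[ℂ] (H →L[ℂ] H)) (v : H) (w : PiLp 2 (fun _ : N => H)),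
      ‖colOp π C v - w‖ ≤
        ‖colOp π c₀ v - w‖ + ‖v - ContinuousLinearMap.adjoint (colOp π c₀) w‖ := by
  let _ := CStarAlgebra.spectralOrder A
  let _ := CStarAlgebra.spectralOrderedRing A
  set x : A := ∑ j, star (c₀ j) * c₀ j with hx
  have hx0 : 0 ≤ x := Finset.sum_nonneg fun j _ => star_mul_self_nonneg _
  have hxsa : star x = x := (IsSelfAdjoint.of_nonneg hx0).star_eq
  have hunit : IsUnit (1 + x) := by
    apply CStarAlgebra.isUnit_of_le (1 : A) (by simpa using hx0)
  obtain ⟨g, hg⟩ := hunit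
  set y : A := (↑g⁻¹ : A) with hy
  have hgy : (1 + x) * y = 1 := by rw [← hg, hy]; exact g.mul_inv
  have hyg : y * (1 + x) = 1 := by rw [← hg, hy]; exact g.inv_mul
  have hysa : star y = y := by
    have h1 : star y * (1 + x) = 1 := by
      have := congrArg star hgy
      simpa [star_mul, star_add, hxsa] using this
    calc star y = star y * ((1 + x) * y) := by rw [hgy, mul_one]
      _ = (star y * (1 + x)) * y := by rw [mul_assoc]
      _ = y := by rw [h1, one_mul]
  have hcomm : x * y = y * x := by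
    have h1 : y + x * y = 1 := by rw [← hgy]; noncomm_ring
    have h2 : y + y * x = 1 := by rw [← hyg]; noncomm_ring
    have h3 : y + x * y = y + y * x := by rw [h1, h2]
    exact add_left_cancel h3
  refine ⟨fun j => (2 : ℂ) • (c₀ j * y), ?_, ?_⟩
  · have e : ∑ j, star ((2 : ℂ) • (c₀ j * y)) * ((2 : ℂ) • (c₀ j * y)) =
        (4 : ℂ) • (y * x * y) := by
      rw [hx, Finset.mul_sum, Finset.sum_mul, Finset.smul_sum]
      refine Finset.sum_congr rfl fun j _ => ?_
      rw [star_smul, star_mul, hysa, smul_mul_smul_comm]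
      congr 1
      · norm_num
      · simp only [mul_assoc]
    rw [e]
    have h0 : (0 : A) ≤ (4 : ℂ) • (y * x * y) := by
      rw [← e]
      exact Finset.sum_nonneg fun j _ => star_mul_self_nonneg _
    rw [CStarAlgebra.norm_le_one_iff_of_nonneg _ h0]
    rw [← sub_nonneg]
    have e2 : 1 - (4 : ℂ) • (y * x * y) = star ((1 - x) * y) * ((1 - x) * y) := by
      have h4 : (1 : A) = y * ((1 + x) * (1 + x)) * y := by
        calc (1 : A) = (y * (1 + x)) * ((1 + x) * y) := by rw [hyg, hgy, one_mul]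
          _ = _ := by simp only [mul_assoc]
      have h5 : (4 : ℂ) • (y * x * y) = y * (x + x + x + x) * y := by
        have : (4 : ℂ) = 1 + 1 + 1 + 1 := by norm_num
        rw [this, add_smul, add_smul, add_smul, one_smul]
        noncomm_ring
      rw [star_mul, star_sub, star_one, hxsa, hysa, h5]
      nth_rewrite 1 [h4]
      noncomm_ring
    rw [e2]
    exact star_mul_self_nonneg _
  · intro π v w
    set u : H := (2 : ℂ) • π y v with hu
    have h1 : colOp π (fun j => (2 : ℂ) • (c₀ j * y)) v = colOp π c₀ u := by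
      ext j
      simp [hu]
    rw [h1]
    apply kaplansky_aux
    have h2 : ContinuousLinearMap.adjoint (colOp π c₀) (colOp π c₀ u) = π x u := by
      rw [colOp_adjoint_apply, hx]
      simp
    rw [h2]
    have h3 : u + π x u = π (1 + x) u := by simp
    rw [h3, hu, map_smul, ← mul_apply_eq_comp, ← map_mul, hgy]
    simp

end column

end Pool.Agent.MP_dbaee1_an
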