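import Mathlib
import Pool.Agent.Lib.MP_dbaee1_an.Good

/-!
# Auxiliary results on finite dimensional irreducible representations
-/

open scoped ComplexOrder InnerProductSpace
open Complex

namespace Pool.Agent.MP_dbaee1_an

universe u v w

/-- In a Hilbert space whose dimension is at least `n` there is an orthonormal family of
size `n`. -/
lemma exists_orthonormal {H : Type*} [NormedAddCommGroup H] [InnerProductSpace ℂ H]
    [CompleteSpace H] {κ : Type*} [Finite κ]
    (h : FiniteDimensional ℂ H → Nat.card κ ≤ Module.finrank ℂ H) :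
    ∃ e : κ → H, Orthonormal ℂ e := by
  classical
  have := Fintype.ofFinite κ
  obtain ⟨w, b, hb⟩ := exists_hilbertBasis ℂ H
  rcases finite_or_infinite w with hw | hw
  · have := Fintype.ofFinite w
    let b' := b.toOrthonormalBasis
    have hfd : FiniteDimensional ℂ H := b'.toBasis.finiteDimensional_of_finite
    have hcard : Module.finrank ℂ H = Fintype.card w := Module.finrank_eq_card_basis b'.toBasis
    have h1 := h hfd
    rw [hcard, Nat.card_eq_fintype_card] at h1
    obtain ⟨f⟩ := Function.Embedding.nonempty_of_card_le h1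
    exact ⟨b ∘ f, b.orthonormal.comp f f.injective⟩
  · obtain ⟨f⟩ : Nonempty (κ ↪ w) := by
      exact ⟨(Fintype.equivFin κ).toEmbedding.trans
        ((Fin.valEmbedding).trans (Infinite.natEmbedding w))⟩
    exact ⟨b ∘ f, b.orthonormal.comp f f.injective⟩

/-- A bad irreducible representation is finite dimensional of dimension less than the size of the
family, and two members of the family are equivalent. -/
lemma bad_props {A : Type u} [CStarAlgebra A] {H : Type v} [NormedAddCommGroup H]
    [InnerProductSpace ℂ H] [CompleteSpace H] {E : Type w} [Fintype E] (β : E → (A ≃⋆ₐ[ℂ] A))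
    (π : A →⋆ₐ[ℂ] (H →L[ℂ] H)) (hirr : IsIrr π) (hbad : ¬ Good β π) :
    FiniteDimensional ℂ H ∧ Module.finrank ℂ H ≤ Fintype.card E ∧
      ∃ s t, s ≠ t ∧ UEquiv (tw π (β s)) (tw π (β t)) := by
  classical
  unfold Good at hbad
  push Not at hbad
  obtain ⟨s, hs⟩ := hbad
  have h1 : ¬ (FiniteDimensional ℂ H →
      Nat.card {t // UEquiv (tw π (β s)) (tw π (β t))} ≤ Module.finrank ℂ H) := by
    intro h
    obtain ⟨e, he⟩ := exists_orthonormal (κ := {t // UEquiv (tw π (β s)) (tw π (β t))}) h
    exact hs e he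
  push Not at h1
  obtain ⟨hfd, hlt⟩ := h1
  refine ⟨hfd, ?_, ?_⟩
  · refine hlt.le.trans ?_
    rw [Nat.card_eq_fintype_card]
    exact Fintype.card_subtype_le _
  · have : Nontrivial H := hirr.1
    have hpos : 0 < Module.finrank ℂ H := Module.finrank_pos
    have h2 : 1 < Nat.card {t // UEquiv (tw π (β s)) (tw π (β t))} := by omega
    rw [Finite.one_lt_card_iff_nontrivial] at h2
    obtain ⟨⟨t, ht⟩, hne⟩ := exists_ne (⟨s, UEquiv.refl _⟩ :
      {t // UEquiv (tw π (β s)) (tw π (β t))})
    refine ⟨s, t, ?_, ht⟩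
    intro h
    exact hne (Subtype.ext h.symm)

section

variable {A : Type u} [CStarAlgebra A]

/-- combination lemma -/
lemma combine {H : Type v} [NormedAddCommGroup H] [InnerProductSpace ℂ H] [CompleteSpace H]
    (π : A →⋆ₐ[ℂ] (H →L[ℂ] H)) (hirr : IsIrr π) (l : List A) (hl : ∀ q ∈ l, π q ≠ 0) :
    ∃ t : A, π t ≠ 0 ∧ ∀ (H' : Type v) [NormedAddCommGroup H'] [InnerProductSpace ℂ H']
      [CompleteSpace H'] (π' : A →⋆ₐ[ℂ] (H' →L[ℂ] H')), π' t ≠ 0 → ∀ q ∈ l, π' q ≠ 0 := by
  induction l with
  | nil =>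
    have := hirr.1
    refine ⟨1, by rw [map_one]; exact one_ne_zero, ?_⟩
    intro H' _ _ _ π' _ q hq
    simp at hq
  | cons q l ih =>
    obtain ⟨t, ht, ht'⟩ := ih (fun q' hq' => hl q' (List.mem_cons_of_mem _ hq'))
    obtain ⟨y, hy⟩ := irr_prime hirr ht (hl q List.mem_cons_self)
    refine ⟨t * y * q, by simpa [map_mul] using hy, ?_⟩
    intro H' _ _ _ π' hπ' q' hq'
    rcases List.mem_cons.mp hq' with rfl | hq'
    · intro h
      apply hπ'
      rw [map_mul, h, mul_zero]
    · apply ht' H' π' _ q' hq'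
      intro h
      apply hπ'
      rw [map_mul, map_mul, h, zero_mul, zero_mul]

/-- If there are orthogonal self-adjoint elements alive in a finite dimensional representation
then their number is at most the dimension. -/
lemma card_le_finrank {H : Type v} [NormedAddCommGroup H] [InnerProductSpace ℂ H]
    [CompleteSpace H] [FiniteDimensional ℂ H] (π : A →⋆ₐ[ℂ] (H →L[ℂ] H)) {κ : Type*} [Fintype κ]
    (b : κ → A) (hsa : ∀ k, star (b k) = b k) (horth : ∀ k l, k ≠ l → b k * b l = 0)
    (halive : ∀ k, π (b k) ≠ 0) :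
    ∃ e : κ → H, Orthonormal ℂ e ∧ ∀ k l, k ≠ l → π (b k) (e l) = 0 := by
  choose x hx using fun k => exists_ne_zero_of_ne_zero (halive k)
  have hinn : ∀ k l, k ≠ l → ⟪π (b k) (x k), π (b l) (x l)⟫_ℂ = 0 := by
    intro k l hkl
    rw [rep_adj, hsa, ← mul_apply_eq_comp, ← map_mul, horth k l hkl]
    simp
  refine ⟨fun k => ((‖π (b k) (x k)‖⁻¹ : ℝ) : ℂ) • π (b k) (x k), ⟨?_, ?_⟩, ?_⟩
  · intro k
    rw [norm_smul, Complex.norm_real, norm_inv, norm_norm,
      inv_mul_cancel₀ (norm_ne_zero_iff.mpr (hx k))]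
  · intro k l hkl
    rw [inner_smul_left, inner_smul_right, hinn k l hkl]
    simp
  · intro k l hkl
    rw [map_smul, ← mul_apply_eq_comp, ← map_mul, horth k l hkl]
    simp

end

end Pool.Agent.MP_dbaee1_an
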