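import Mathlib
import Pool.Agent.Lib.MP_dbaee1_an.Bad1

/-!
# Orthogonal families of self-adjoint elements alive in given finite dimensional representations
-/

open scoped ComplexOrder InnerProductSpace CStarAlgebra
open Complex

namespace Pool.Agent.MP_dbaee1_an

universe u v w

/-- A bump function at `n`. -/
noncomputable def bump (n : ℕ) (t : ℝ) : ℝ := max 0 (1 - 2 * |t - n|)

lemma continuous_bump (n : ℕ) : Continuous (bump n) := by
  unfold bump
  fun_prop

lemma bump_self (n : ℕ) : bump n n = 1 := by
  simp [bump]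

lemma bump_mul (m n : ℕ) (h : m ≠ n) (t : ℝ) : bump m t * bump n t = 0 := by
  by_contra hcon
  have h1 : 0 < 1 - 2 * |t - m| := by
    by_contra h1
    apply hcon
    have : bump m t = 0 := by
      unfold bump
      exact max_eq_left (not_lt.mp h1)
    rw [this, zero_mul]
  have h2 : 0 < 1 - 2 * |t - n| := by
    by_contra h2
    apply hcon
    have : bump n t = 0 := by
      unfold bump
      exact max_eq_left (not_lt.mp h2)
    rw [this, mul_zero]
  have h3 : |(m : ℝ) - n| < 1 := by
    calc |(m : ℝ) - n| = |(t - n) - (t - m)| := by congr 1; ring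
      _ ≤ |t - n| + |t - m| := abs_sub _ _
      _ < 1 := by linarith
  have h4 : |((m : ℤ) - (n : ℤ) : ℤ)| < 1 := by
    have : ((|((m : ℤ) - (n : ℤ) : ℤ)| : ℤ) : ℝ) < 1 := by
      push_cast
      exact h3
    exact_mod_cast this
  rw [Int.abs_lt_one_iff] at h4
  omega

section

variable {A : Type u} [CStarAlgebra A] {H : Type v} [NormedAddCommGroup H]
    [InnerProductSpace ℂ H] [CompleteSpace H]

lemma cfc_bump_ne_zero (T : H →L[ℂ] H) (hT : IsSelfAdjoint T) (n : ℕ) (v : H) (hv : v ≠ 0)
    (hTv : T v = (n : ℂ) • v) : cfc (bump n) T ≠ 0 := by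
  intro h
  have hspec : (n : ℝ) ∈ spectrum ℝ T := by
    rw [spectrum.mem_iff]
    intro hu
    obtain ⟨g, hg⟩ := hu
    apply hv
    have h1 : (algebraMap ℝ (H →L[ℂ] H) (n : ℝ) - T) v = 0 := by
      rw [sub_apply, hTv, Algebra.algebraMap_eq_smul_one, smul_apply, one_apply_eq_self]
      rw [← Complex.coe_smul]
      simp
    rw [← hg] at h1
    have h2 : ((↑g⁻¹ : H →L[ℂ] H) * ↑g) v = v := by
      rw [g.inv_mul, one_apply_eq_self]
    rw [mul_apply_eq_comp, h1, map_zero] at h2
    exact h2.symm
  have hnt : Nontrivial H := ⟨v, 0, hv⟩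
  have h1 := cfc_map_spectrum (R := ℝ) (bump n) T (hf := (continuous_bump n).continuousOn)
  rw [h, spectrum.zero_eq] at h1
  have h2 : bump n n ∈ (bump n) '' spectrum ℝ T := ⟨n, hspec, rfl⟩
  rw [← h1, bump_self] at h2
  simp at h2

/-- For finitely many pairwise inequivalent irreducible representations on a finite dimensional
space there are pairwise orthogonal self-adjoint elements, `dim H` many for each
representation, alive in it. -/
lemma exists_orthogonal_alive [FiniteDimensional ℂ H] {κ : Type*} [Fintype κ]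
    (ρ : κ → (A →⋆ₐ[ℂ] (H →L[ℂ] H))) (hirr : ∀ i, IsIrr (ρ i))
    (hne : ∀ p q, p ≠ q → ¬ UEquiv (ρ q) (ρ p)) :
    ∃ b : κ × Fin (Module.finrank ℂ H) → A, (∀ p, star (b p) = b p) ∧
      (∀ p q, p ≠ q → b p * b q = 0) ∧ ∀ p, ρ p.1 (b p) ≠ 0 := by
  classical
  let d := Module.finrank ℂ H
  let num : κ × Fin d → ℕ := fun p => (Fintype.equivFin (κ × Fin d) p : ℕ)
  have hnum : ∀ p q, p ≠ q → num p ≠ num q := by
    intro p q h h2
    apply h
    exact (Fintype.equivFin (κ × Fin d)).injective (Fin.ext h2)
  let B := stdOrthonormalBasis ℂ H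
  let T : κ → H →L[ℂ] H := fun k =>
    ∑ i, ((num (k, i) : ℝ) : ℂ) • InnerProductSpace.rankOne ℂ (B i) (B i)
  have hTB : ∀ k i, T k (B i) = (num (k, i) : ℂ) • B i := by
    intro k i
    simp only [T, sum_apply, smul_apply, InnerProductSpace.rankOne_apply]
    rw [Finset.sum_eq_single i]
    · simp [B.inner_eq_ite]
    · intro j _ hj
      simp [B.inner_eq_ite, hj]
    · simp
  have hTsa : ∀ k, star (T k) = T k := by
    intro k
    simp only [T, star_sum, star_smul]
    refine Finset.sum_congr rfl fun i _ => ?_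
    congr 1
    · simp
    · rw [ContinuousLinearMap.star_eq_adjoint, InnerProductSpace.adjoint_rankOne]
  obtain ⟨a, ha⟩ := density_exact ρ hirr T (by
    intro p q
    by_cases h : p = q
    · left
      subst h
      exact ⟨rfl, rfl⟩
    · right
      exact hne p q h)
  let h : A := (2⁻¹ : ℂ) • (a + star a)
  have hsa : IsSelfAdjoint h := by
    rw [IsSelfAdjoint]
    simp only [h, star_smul, star_add, star_star]
    rw [add_comm (star a) a]
    congr 1
    simp
  have hρh : ∀ k, ρ k h = T k := by
    intro k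
    simp only [h, map_smul, map_add, map_star, ha, hTsa]
    rw [← two_smul ℂ, smul_smul]
    norm_num
  refine ⟨fun p => cfc (bump (num p)) h, ?_, ?_, ?_⟩
  · intro p
    exact (cfc_predicate (bump (num p)) h : IsSelfAdjoint _).star_eq
  · intro p q hpq
    rw [← cfc_mul (bump (num p)) (bump (num q)) h (continuous_bump _).continuousOn
      (continuous_bump _).continuousOn]
    have : (fun x => bump (num p) x * bump (num q) x) = fun _ => (0 : ℝ) := by
      funext x
      exact bump_mul _ _ (hnum p q hpq) x
    rw [this, cfc_const_zero]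
  · intro p
    have hcont : Continuous (ρ p.1) := by
      exact map_continuous (ρ p.1)
    rw [StarAlgHom.map_cfc (ρ p.1) (bump (num p)) h (continuous_bump _).continuousOn hcont hsa
      (hsa.map _)]
    rw [hρh]
    exact cfc_bump_ne_zero (T p.1) (hTsa p.1) (num p) (B p.2) (B.orthonormal.ne_zero _) (hTB _ _)

end

end Pool.Agent.MP_dbaee1_an
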