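import Mathlib
import Pool.Agent.Lib.MP_dbaee1_an.Bad2

/-!
# The explicit intertwining element
-/

open scoped ComplexOrder InnerProductSpace CStarAlgebra
open Complex

namespace Pool.Agent.MP_dbaee1_an

universe u v w

lemma sum_weights {H : Type*} [NormedAddCommGroup H] [InnerProductSpace ℂ H]
    [FiniteDimensional ℂ H] {κ : Type*} [Fintype κ] [DecidableEq κ]
    (hd : Fintype.card κ = Module.finrank ℂ H)
    (η : κ → H) (horth : ∀ i j, i ≠ j → ⟪η i, η j⟫_ℂ = 0) (x : H) :
    ∑ i, ((∏ j ∈ Finset.univ.erase i, ‖η j‖ ^ 2 : ℝ) : ℂ) • (⟪η i, x⟫_ℂ • η i) =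
      ((∏ j, ‖η j‖ ^ 2 : ℝ) : ℂ) • x := by
  by_cases hz : ∃ j, η j = 0
  · obtain ⟨j₀, hj₀⟩ := hz
    have h1 : ∏ j, ‖η j‖ ^ 2 = 0 := by
      apply Finset.prod_eq_zero (Finset.mem_univ j₀)
      rw [hj₀]; simp
    rw [h1]
    simp only [Complex.ofReal_zero, zero_smul]
    apply Finset.sum_eq_zero
    intro i _
    by_cases hi : i = j₀
    · rw [hi, hj₀]; simp
    · have : ∏ j ∈ Finset.univ.erase i, ‖η j‖ ^ 2 = 0 := by
        apply Finset.prod_eq_zero (i := j₀)
        · simp [Ne.symm hi]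
        · rw [hj₀]; simp
      rw [this]; simp
  · push Not at hz
    have hpos : ∀ j, ‖η j‖ ≠ 0 := fun j => norm_ne_zero_iff.mpr (hz j)
    let e : κ → H := fun j => ((‖η j‖⁻¹ : ℝ) : ℂ) • η j
    have he : Orthonormal ℂ e := by
      refine ⟨fun j => ?_, fun i j hij => ?_⟩
      · simp only [e]
        rw [norm_smul, Complex.norm_real, norm_inv, norm_norm, inv_mul_cancel₀ (hpos j)]
      · simp only [e]
        rw [inner_smul_left, inner_smul_right, horth i j hij]
        simp
    have hspan : ⊤ ≤ Submodule.span ℂ (Set.range e) := by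
      have := he.linearIndependent.span_eq_top_of_card_eq_finrank' hd
      rw [this]
    let B : OrthonormalBasis κ ℂ H := OrthonormalBasis.mk he hspan
    have hB : ∀ j, B j = ((‖η j‖⁻¹ : ℝ) : ℂ) • η j := by
      intro j
      simp [B, e]
    have hx : x = ∑ j, ⟪B j, x⟫_ℂ • B j := (B.sum_repr' x).symm
    conv_rhs => rw [hx]
    rw [Finset.smul_sum]
    refine Finset.sum_congr rfl fun i _ => ?_
    rw [hB, inner_smul_left, smul_smul, smul_smul, smul_smul]
    congr 1
    rw [← Finset.mul_prod_erase Finset.univ (fun j => ‖η j‖ ^ 2) (Finset.mem_univ i)]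
    simp only [Complex.conj_ofReal]
    have : (‖η i‖ : ℂ) ≠ 0 := by exact_mod_cast hpos i
    push_cast
    field_simp

section

variable {A : Type u} [CStarAlgebra A]

/-- Rank one structure of the elements `b i` in a representation of minimal dimension. -/
lemma rank_one_structure {H : Type v} [NormedAddCommGroup H] [InnerProductSpace ℂ H]
    [CompleteSpace H] [FiniteDimensional ℂ H] (π : A →⋆ₐ[ℂ] (H →L[ℂ] H)) {κ : Type*} [Fintype κ]
    (hd : Fintype.card κ = Module.finrank ℂ H)
    (b : κ → A) (hsa : ∀ k, star (b k) = b k) (horth : ∀ k l, k ≠ l → b k * b l = 0)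
    (halive : ∀ k, π (b k) ≠ 0) (i₀ : κ) :
    ∃ e : H, ‖e‖ = 1 ∧ ∀ x, π (b i₀) x = ⟪e, x⟫_ℂ • π (b i₀) e := by
  classical
  obtain ⟨e, he, hbe⟩ := card_le_finrank π b hsa horth halive
  have hspan : ⊤ ≤ Submodule.span ℂ (Set.range e) := by
    have := he.linearIndependent.span_eq_top_of_card_eq_finrank' hd
    rw [this]
  let B : OrthonormalBasis κ ℂ H := OrthonormalBasis.mk he hspan
  have hB : ∀ j, B j = e j := by
    intro j
    simp [B]
  refine ⟨e i₀, he.1 i₀, fun x => ?_⟩
  have hx : x = ∑ j, ⟪B j, x⟫_ℂ • B j := (B.sum_repr' x).symm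
  conv_lhs => rw [hx]
  rw [map_sum, Finset.sum_eq_single i₀]
  · rw [map_smul, hB]
  · intro j _ hj
    rw [map_smul, hB, hbe i₀ j (Ne.symm hj), smul_zero]
  · simp

variable {κ : Type*} [Fintype κ] [DecidableEq κ]

/-- The explicit element which intertwines. -/
noncomputable def zElt (γ : A ≃⋆ₐ[ℂ] A) (r c : A) (t : κ → A) : A :=
  ∑ i, γ (t i * ((Finset.univ.erase i).toList.map (fun j => star (t j) * t j)).prod * star r) *
    c * r * star (t i)

lemma zElt_apply {H : Type v} [NormedAddCommGroup H] [InnerProductSpace ℂ H]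
    [CompleteSpace H] [FiniteDimensional ℂ H] (π : A →⋆ₐ[ℂ] (H →L[ℂ] H))
    (hd : Fintype.card κ = Module.finrank ℂ H)
    (b : κ → A) (hsa : ∀ k, star (b k) = b k) (horth : ∀ k l, k ≠ l → b k * b l = 0)
    (halive : ∀ k, π (b k) ≠ 0) (i₀ : κ) (γ : A ≃⋆ₐ[ℂ] A) (r r' c : A) (hr : r = r' * b i₀)
    (a : κ → A) (t : κ → A) (ht : ∀ i, t i = b i * a i * r)
    (U : H ≃ₗᵢ[ℂ] H) (hU : ∀ w x, U (π w x) = π (γ w) (U x)) :
    ∃ μ : ℂ, (∀ x, π (zElt γ r c t) x = μ • U x) ∧
      ((∀ j, π (t j) ≠ 0) → π (γ (star r) * c * r) ≠ 0 → μ ≠ 0) := by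
  obtain ⟨e, he1, hb⟩ := rank_one_structure π hd b hsa horth halive i₀
  set u := π r e with hu
  have hrx : ∀ x, π r x = ⟪e, x⟫_ℂ • u := by
    intro x
    rw [hu, hr, map_mul, mul_apply_eq_comp, hb x, map_smul, mul_apply_eq_comp]
  set η : κ → H := fun i => π (t i) e with hη
  have htx : ∀ i x, π (t i) x = ⟪e, x⟫_ℂ • η i := by
    intro i x
    simp only [hη]
    rw [ht, map_mul, mul_apply_eq_comp, mul_apply_eq_comp, hrx x, map_smul, ← hu]
  have hee : ⟪e, e⟫_ℂ = 1 := by
    rw [inner_self_eq_norm_sq_to_K, he1]; simp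
  have hsr : ∀ x, π (star r) x = ⟪u, x⟫_ℂ • e := by
    intro x
    apply ext_inner_right ℂ
    intro y
    rw [rep_adj, star_star, hrx, inner_smul_right, inner_smul_left, inner_conj_symm]
    ring
  have hst : ∀ i x, π (star (t i)) x = ⟪η i, x⟫_ℂ • e := by
    intro i x
    apply ext_inner_right ℂ
    intro y
    rw [rep_adj, star_star, htx, inner_smul_right, inner_smul_left, inner_conj_symm]
    ring
  have hke : ∀ j, π (star (t j) * t j) e = ((‖η j‖ ^ 2 : ℝ) : ℂ) • e := by
    intro j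
    rw [map_mul, mul_apply_eq_comp, htx, hee, one_smul, hst, inner_self_eq_norm_sq_to_K]
    push_cast
    rfl
  have hlist : ∀ l : List κ, π ((l.map (fun j => star (t j) * t j)).prod) e =
      (((l.map (fun j => ‖η j‖ ^ 2)).prod : ℝ) : ℂ) • e := by
    intro l
    induction l with
    | nil => simp
    | cons j l ih =>
      rw [List.map_cons, List.prod_cons, map_mul, mul_apply_eq_comp, ih, map_smul, hke,
        List.map_cons, List.prod_cons, smul_smul]
      congr 1
      push_cast
      ring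
  have hηorth : ∀ i j, i ≠ j → ⟪η i, η j⟫_ℂ = 0 := by
    intro i j hij
    simp only [hη]
    rw [rep_adj, ← mul_apply_eq_comp, ← map_mul, ht, ht]
    have : star (b i * a i * r) * (b j * a j * r) = star r * star (a i) * (b i * b j) * a j * r := by
      rw [star_mul, star_mul, hsa]
      simp only [mul_assoc]
    rw [this, horth i j hij]
    simp
  set μ := ⟪u, U.symm (π c u)⟫_ℂ with hμ
  have hγ : ∀ w x, π (γ w) x = U (π w (U.symm x)) := by
    intro w x
    rw [hU, U.apply_symm_apply]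
  refine ⟨μ * ((∏ j, ‖η j‖ ^ 2 : ℝ) : ℂ), ?_, ?_⟩
  · intro x
    have hterm : ∀ i, π (γ (t i * ((Finset.univ.erase i).toList.map
        (fun j => star (t j) * t j)).prod * star r) * c * r * star (t i)) x =
        μ • U (((∏ j ∈ Finset.univ.erase i, ‖η j‖ ^ 2 : ℝ) : ℂ) • (⟪η i, x⟫_ℂ • η i)) := by
      intro i
      rw [map_mul, map_mul, map_mul, mul_apply_eq_comp, mul_apply_eq_comp, mul_apply_eq_comp,
        hst, map_smul, hrx e, hee, one_smul, map_smul, map_smul, hγ, map_mul, map_mul,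
        mul_apply_eq_comp, mul_apply_eq_comp, hsr, map_smul, map_smul, map_smul, hlist,
        map_smul, map_smul, htx i e, hee, one_smul, ← hμ, Finset.prod_map_toList]
      rw [map_smul, map_smul]
      simp only [smul_smul]
      congr 1
      ring
    rw [zElt, map_sum, sum_apply]
    simp only [hterm]
    rw [← Finset.smul_sum, ← map_sum, sum_weights hd η hηorth, map_smul, smul_smul]
  · intro h1 h2
    apply mul_ne_zero
    · intro h3
      apply h2
      ext x
      rw [map_mul, map_mul, mul_apply_eq_comp, mul_apply_eq_comp, hrx, map_smul, map_smul, hγ,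
        hsr, ← hμ, h3]
      simp
    · rw [Ne, Complex.ofReal_eq_zero, Finset.prod_eq_zero_iff]
      rintro ⟨j, -, hj⟩
      apply h1 j
      ext x
      have : η j = 0 := by simpa using hj
      rw [htx, this]
      simp

end

end Pool.Agent.MP_dbaee1_an
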