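import Mathlib
import Pool.Agent.Lib.MP_dbaee1_an.Bad3

/-!
# Good irreducible representations separate points for free families
-/

open scoped ComplexOrder InnerProductSpace CStarAlgebra
open Complex

namespace Pool.Agent.MP_dbaee1_an

universe u v w

/-- A bundled representation. -/
structure BRep (A : Type u) [CStarAlgebra A] where
  H : Type u
  [ng : NormedAddCommGroup H]
  [ip : InnerProductSpace ℂ H]
  [cs : CompleteSpace H]
  π : A →⋆ₐ[ℂ] (H →L[ℂ] H)

attribute [instance] BRep.ng BRep.ip BRep.cs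

lemma has_min_of_nat {α : Type*} (P : α → Prop) (f : α → ℕ) (h : ∃ a, P a) :
    ∃ a, P a ∧ ∀ b, P b → f a ≤ f b := by
  obtain ⟨a, ha, hmin⟩ := (measure f).wf.has_min {a | P a} h
  exact ⟨a, ha, fun b hb => not_lt.mp (hmin b hb)⟩

lemma has_max_of_nat {α : Type*} (P : α → Prop) (f : α → ℕ) (N : ℕ) (hN : ∀ a, P a → f a ≤ N)
    (h : ∃ a, P a) : ∃ a, P a ∧ ∀ b, P b → f b ≤ f a := by
  obtain ⟨a, ha, hmin⟩ := has_min_of_nat P (fun a => N - f a) h
  refine ⟨a, ha, fun b hb => ?_⟩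
  have h1 := hmin b hb
  have h2 := hN a ha
  have h3 := hN b hb
  omega

theorem exists_good {A : Type u} [CStarAlgebra A] {E : Type w} [Fintype E]
    (β : E → (A ≃⋆ₐ[ℂ] A))
    (hfree : ∀ s t, s ≠ t → ∀ z : A, (∀ a, z * β s a = β t a * z) → z = 0) (x : A) (hx : x ≠ 0) :
    ∃ (H : Type u) (_ : NormedAddCommGroup H) (_ : InnerProductSpace ℂ H) (_ : CompleteSpace H)
      (π : A →⋆ₐ[ℂ] (H →L[ℂ] H)), IsIrr π ∧ Good β π ∧ π x ≠ 0 := by
  classical
  by_contra hcon
  have hbad : ∀ R : BRep A, IsIrr R.π → R.π x ≠ 0 → FiniteDimensional ℂ R.H ∧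
      Module.finrank ℂ R.H ≤ Fintype.card E ∧
      ∃ s t, s ≠ t ∧ UEquiv (tw R.π (β s)) (tw R.π (β t)) := by
    intro R hirr hR
    apply bad_props β R.π hirr
    intro hgood
    exact hcon ⟨R.H, R.ng, R.ip, R.cs, R.π, hirr, hgood, hR⟩
  -- Step 1: maximal dimension
  obtain ⟨R₁, ⟨hirr₁, hx₁⟩, hmax⟩ := has_max_of_nat
    (fun R : BRep A => IsIrr R.π ∧ R.π x ≠ 0) (fun R => Module.finrank ℂ R.H) (Fintype.card E)
    (fun R hR => (hbad R hR.1 hR.2).2.1) (by
      obtain ⟨H, i1, i2, i3, π, hirr, hπ⟩ := exists_irr x hx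
      exact ⟨⟨H, π⟩, hirr, hπ⟩)
  have hfd₁ := (hbad R₁ hirr₁ hx₁).1
  set d := Module.finrank ℂ R₁.H with hd
  have hdpos : 0 < d := by
    have := hirr₁.1
    exact Module.finrank_pos
  -- Step 2: an element alive only in dimension `d`
  obtain ⟨b₁, hb₁sa, hb₁orth, hb₁alive⟩ := exists_orthogonal_alive (κ := Unit) (fun _ => R₁.π)
    (fun _ => hirr₁) (by intro p q h; exact absurd rfl h)
  obtain ⟨p₁, hp₁, hp₁'⟩ := combine R₁.π hirr₁ (x :: (Finset.univ.toList.map b₁)) (by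
    intro q hq
    rcases List.mem_cons.mp hq with rfl | hq
    · exact hx₁
    · obtain ⟨p, -, rfl⟩ := List.mem_map.mp hq
      exact hb₁alive p)
  have hp₁dim : ∀ R : BRep A, IsIrr R.π → R.π p₁ ≠ 0 → R.π x ≠ 0 ∧ FiniteDimensional ℂ R.H ∧
      Module.finrank ℂ R.H = d := by
    intro R hirr hR
    have h1 := hp₁' R.H R.π hR
    have hRx : R.π x ≠ 0 := h1 x List.mem_cons_self
    have hfd := (hbad R hirr hRx).1
    refine ⟨hRx, hfd, le_antisymm (hmax R ⟨hirr, hRx⟩) ?_⟩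
    obtain ⟨e, he, -⟩ := card_le_finrank R.π b₁ hb₁sa hb₁orth (fun k => h1 _
      (List.mem_cons_of_mem _ (List.mem_map.mpr ⟨k, by simp, rfl⟩)))
    have := he.linearIndependent.fintype_card_le_finrank
    simpa using this
  -- Step 3: minimal set of coincidences
  let S : BRep A → Finset (E × E) := fun R =>
    Finset.univ.filter fun p => p.1 ≠ p.2 ∧ UEquiv (tw R.π (β p.1)) (tw R.π (β p.2))
  have hS : ∀ R p, p ∈ S R ↔ p.1 ≠ p.2 ∧ UEquiv (tw R.π (β p.1)) (tw R.π (β p.2)) := by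
    intro R p
    simp [S]
  obtain ⟨R₂, ⟨hirr₂, hp₂⟩, hmin⟩ := has_min_of_nat
    (fun R : BRep A => IsIrr R.π ∧ R.π p₁ ≠ 0) (fun R => (S R).card) ⟨R₁, hirr₁, hp₁⟩
  obtain ⟨hx₂, hfd₂, hdim₂⟩ := hp₁dim R₂ hirr₂ hp₂
  -- Step 4: separation
  have hsep : ∀ p : E × E, p.1 ≠ p.2 → p ∉ S R₂ → ∃ q q' : A, R₂.π q ≠ 0 ∧ R₂.π q' ≠ 0 ∧
      ∀ R : BRep A, FiniteDimensional ℂ R.H → Module.finrank ℂ R.H = d → R.π q ≠ 0 →
        R.π q' ≠ 0 → p ∉ S R := by
    intro p hp hpS
    rw [hS] at hpS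
    have hne : ¬ UEquiv (tw R₂.π (β p.1)) (tw R₂.π (β p.2)) := fun h => hpS ⟨hp, h⟩
    let ρ : Bool → (A →⋆ₐ[ℂ] (R₂.H →L[ℂ] R₂.H)) := fun k =>
      if k then tw R₂.π (β p.1) else tw R₂.π (β p.2)
    obtain ⟨b, hbsa, hborth, hbalive⟩ := exists_orthogonal_alive (κ := Bool) ρ
      (by rintro (_ | _) <;> exact hirr₂.tw _)
      (by
        rintro (_ | _) (_ | _) h
        · exact absurd rfl h
        · exact hne
        · exact fun h2 => hne h2.symm
        · exact absurd rfl h)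
    obtain ⟨m₁, hm₁, hm₁'⟩ := combine (tw R₂.π (β p.1)) (hirr₂.tw _)
      ((Finset.univ : Finset (Fin _)).toList.map fun i => b (true, i)) (by
        intro q hq
        obtain ⟨i, -, rfl⟩ := List.mem_map.mp hq
        exact hbalive (true, i))
    obtain ⟨m₂, hm₂, hm₂'⟩ := combine (tw R₂.π (β p.2)) (hirr₂.tw _)
      ((Finset.univ : Finset (Fin _)).toList.map fun i => b (false, i)) (by
        intro q hq
        obtain ⟨i, -, rfl⟩ := List.mem_map.mp hq
        exact hbalive (false, i))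
    refine ⟨β p.1 m₁, β p.2 m₂, hm₁, hm₂, ?_⟩
    intro R hfd hdim hq hq' hpR
    rw [hS] at hpR
    obtain ⟨U, hU⟩ := hpR.2
    have h1 : ∀ i, (tw R.π (β p.1)) (b (true, i)) ≠ 0 := fun i =>
      hm₁' R.H (tw R.π (β p.1)) hq _ (List.mem_map.mpr ⟨i, by simp, rfl⟩)
    have h2 : ∀ i, (tw R.π (β p.1)) (b (false, i)) ≠ 0 := by
      intro i h
      apply hm₂' R.H (tw R.π (β p.2)) hq' _ (List.mem_map.mpr ⟨i, by simp, rfl⟩)
      ext y
      have := hU (b (false, i)) (U.symm y)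
      rw [h] at this
      simpa using this.symm
    obtain ⟨e, he, -⟩ := card_le_finrank (tw R.π (β p.1)) b hbsa hborth (by
      rintro ⟨_ | _, i⟩
      · exact h2 i
      · exact h1 i)
    have hcard := he.linearIndependent.fintype_card_le_finrank
    rw [Fintype.card_prod, Fintype.card_bool, Fintype.card_fin, hdim, hdim₂] at hcard
    omega
  -- Step 5: combined element
  have hsep' : ∀ p : E × E, ∃ q q' : A, R₂.π q ≠ 0 ∧ R₂.π q' ≠ 0 ∧ (p.1 ≠ p.2 → p ∉ S R₂ →
      ∀ R : BRep A, FiniteDimensional ℂ R.H → Module.finrank ℂ R.H = d → R.π q ≠ 0 →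
        R.π q' ≠ 0 → p ∉ S R) := by
    intro p
    by_cases h : p.1 ≠ p.2 ∧ p ∉ S R₂
    · obtain ⟨q, q', h1, h2, h3⟩ := hsep p h.1 h.2
      exact ⟨q, q', h1, h2, fun _ _ => h3⟩
    · exact ⟨p₁, p₁, hp₂, hp₂, fun h1 h2 => absurd ⟨h1, h2⟩ h⟩
  choose q q' hq hq' hqq' using hsep'
  obtain ⟨t₀, ht₀, ht₀'⟩ := combine R₂.π hirr₂
    (p₁ :: ((Finset.univ.toList.map q) ++ (Finset.univ.toList.map q'))) (by
      intro y hy
      rcases List.mem_cons.mp hy with rfl | hy
      · exact hp₂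
      · rcases List.mem_append.mp hy with hy | hy
        · obtain ⟨p, -, rfl⟩ := List.mem_map.mp hy
          exact hq p
        · obtain ⟨p, -, rfl⟩ := List.mem_map.mp hy
          exact hq' p)
  obtain ⟨s, t, hst, hst₂⟩ := (hbad R₂ hirr₂ hx₂).2.2
  have halive₀ : ∀ R : BRep A, IsIrr R.π → R.π t₀ ≠ 0 → FiniteDimensional ℂ R.H ∧
      Module.finrank ℂ R.H = d ∧ UEquiv (tw R.π (β s)) (tw R.π (β t)) := by
    intro R hirr hR
    have h1 := ht₀' R.H R.π hR
    have hRp := h1 p₁ List.mem_cons_self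
    obtain ⟨hRx, hfd, hdim⟩ := hp₁dim R hirr hRp
    refine ⟨hfd, hdim, ?_⟩
    have hsub : S R ⊆ S R₂ := by
      intro p hp
      by_contra hpS
      refine hqq' p ((hS R p).mp hp).1 hpS R hfd hdim (h1 _ ?_) (h1 _ ?_) hp
      · exact List.mem_cons_of_mem _ (List.mem_append_left _ (List.mem_map.mpr ⟨p, by simp, rfl⟩))
      · exact List.mem_cons_of_mem _ (List.mem_append_right _ (List.mem_map.mpr ⟨p, by simp, rfl⟩))
    have heq : S R = S R₂ := Finset.eq_of_subset_of_card_le hsub (hmin R ⟨hirr, hRp⟩)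
    have : (s, t) ∈ S R := by
      rw [heq, hS]
      exact ⟨hst, hst₂⟩
    exact ((hS R (s, t)).mp this).2
  -- Step 6: the intertwining element
  obtain ⟨b, hbsa, hborth, hbalive⟩ := exists_orthogonal_alive (κ := Unit) (fun _ => R₂.π)
    (fun _ => hirr₂) (by intro p q h; exact absurd rfl h)
  have hne : Nonempty (Unit × Fin (Module.finrank ℂ R₂.H)) := by
    rw [hdim₂]
    exact ⟨((), ⟨0, hdpos⟩)⟩
  obtain ⟨i₀⟩ := hne
  obtain ⟨t₁, ht₁, ht₁'⟩ := combine R₂.π hirr₂ (t₀ :: (Finset.univ.toList.map b)) (by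
    intro y hy
    rcases List.mem_cons.mp hy with rfl | hy
    · exact ht₀
    · obtain ⟨p, -, rfl⟩ := List.mem_map.mp hy
      exact hbalive p)
  obtain ⟨y, hy⟩ := irr_prime hirr₂ ht₁ (hbalive i₀)
  set r : A := t₁ * y * b i₀ with hr
  have hr₂ : R₂.π r ≠ 0 := by
    rw [hr, map_mul, map_mul]
    exact hy
  have hralive : ∀ R : BRep A, IsIrr R.π → R.π r ≠ 0 → (FiniteDimensional ℂ R.H ∧
      Module.finrank ℂ R.H = d ∧ UEquiv (tw R.π (β s)) (tw R.π (β t))) ∧ ∀ k, R.π (b k) ≠ 0 := by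
    intro R hirr hR
    have h0 : R.π t₁ ≠ 0 := by
      intro h
      apply hR
      rw [hr, map_mul, map_mul, h, zero_mul, zero_mul]
    have h1 := ht₁' R.H R.π h0
    exact ⟨halive₀ R hirr (h1 t₀ List.mem_cons_self), fun k => h1 _
      (List.mem_cons_of_mem _ (List.mem_map.mpr ⟨k, by simp, rfl⟩))⟩
  have hex : ∀ i, ∃ a, R₂.π (b i) * R₂.π a * R₂.π r ≠ 0 := fun i =>
    irr_prime hirr₂ (hbalive i) hr₂
  choose a ha using hex
  let γ : A ≃⋆ₐ[ℂ] A := (β s).symm.trans (β t)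
  have hγ : ∀ w, γ (β s w) = β t w := by
    intro w
    simp [γ]
  have hUγ : ∀ R : BRep A, ∀ U : R.H ≃ₗᵢ[ℂ] R.H,
      (∀ w x, U (tw R.π (β s) w x) = tw R.π (β t) w (U x)) →
      ∀ w x, U (R.π w x) = R.π (γ w) (U x) := by
    intro R U hU w x
    have := hU ((β s).symm w) x
    simpa [γ] using this
  obtain ⟨U₂, hU₂⟩ := hst₂
  have hU₂' := hUγ R₂ U₂ hU₂
  have hγr : R₂.π (γ (star r)) ≠ 0 := by
    intro h
    apply hr₂
    have h1 : R₂.π (star r) = 0 := by
      ext y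
      have := hU₂' (star r) y
      rw [h] at this
      simpa using this
    rw [map_star] at h1
    exact star_eq_zero.mp h1
  obtain ⟨c, hc⟩ := irr_prime hirr₂ hγr hr₂
  let z := zElt γ r c (fun i => b i * a i * r)
  have hzero : z = 0 := by
    apply hfree s t hst z
    intro w
    rw [← sub_eq_zero]
    by_contra hne
    obtain ⟨H, i1, i2, i3, π, hirr, hπ⟩ := exists_irr _ hne
    apply hπ
    let R : BRep A := ⟨H, π⟩
    by_cases hRr : π r = 0
    · have hz0 : π z = 0 := by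
        simp only [z, zElt, map_sum]
        apply Finset.sum_eq_zero
        intro i _
        rw [map_mul, map_mul, hRr]
        simp
      rw [map_sub, map_mul, map_mul, hz0]
      simp
    · obtain ⟨⟨hfd, hdim, U, hU⟩, hbR⟩ := hralive R hirr hRr
      have hU' := hUγ R U hU
      obtain ⟨μ, hμ, -⟩ := zElt_apply R.π (by
        rw [Fintype.card_prod, Fintype.card_unit, Fintype.card_fin, one_mul, hdim₂, hdim])
        b hbsa hborth hbR i₀ γ r (t₁ * y) c hr a (fun i => b i * a i * r) (fun i => rfl) U hU'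
      have hμ' : ∀ x, π z x = μ • U x := hμ
      rw [map_sub, map_mul, map_mul]
      ext x
      rw [sub_apply, mul_apply_eq_comp, mul_apply_eq_comp, hμ', hμ', map_smul]
      have : U (π (β s w) x) = π (β t w) (U x) := hU w x
      rw [this]
      simp
  have hnz : R₂.π z ≠ 0 := by
    obtain ⟨μ, hμ, hμ0⟩ := zElt_apply R₂.π (by
        rw [Fintype.card_prod, Fintype.card_unit, Fintype.card_fin, one_mul])
        b hbsa hborth hbalive i₀ γ r (t₁ * y) c hr a (fun i => b i * a i * r) (fun i => rfl) U₂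
        hU₂'
    have hμne : μ ≠ 0 := by
      apply hμ0
      · intro j
        rw [map_mul, map_mul]
        exact ha j
      · rw [map_mul, map_mul]
        exact hc
    intro h
    have hnt := hirr₂.1
    obtain ⟨v, hv⟩ := exists_ne (0 : R₂.H)
    have h1 := hμ v
    rw [show R₂.π (zElt γ r c fun i => b i * a i * r) = 0 from h] at h1
    have h2 : μ • U₂ v = 0 := by simpa using h1.symm
    rcases smul_eq_zero.mp h2 with h3 | h3
    · exact hμne h3
    · exact hv (by simpa using h3)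
  exact hnz (by rw [hzero, map_zero])

end Pool.Agent.MP_dbaee1_an
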