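import Mathlib

/-!
# Definitions: reduced crossed products, norming inclusions, pseudo-expectations

* `IsReducedCrossedProduct α σ ι u ρ` : the C*-algebra `D`, with the inclusion `ι` of `A` and the
  unitaries `u g`, is the reduced crossed product `A ⋊_r G`; here `ρ` is the faithful
  representation of `D` on `ℓ²(G, H)` which extends the regular representation induced from the
  faithful representation `σ` of `A` on `H`.
* `Norms ι` : the inclusion `ι : C → D` is norming in the sense of Pop, Sinclair and Smith.
* `IsInjectiveCStar I` : `I` is an injective C*-algebra.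
* `IsInjectiveEnvelope j` : `(I, j)` is the injective envelope of `A` (Hamana).
* `IsPseudoExpectation ι j θ` : `θ : D → I` is a pseudo-expectation for the inclusion `ι : A → D`.
-/

open scoped ComplexOrder InnerProductSpace ENNReal

namespace Pool.Agent.MP_dbaee1_an

universe uA uG uH uD uK uI

/-- The C*-algebra `D`, with the inclusion `ι : A → D` and the elements `u g` (`g ∈ G`), is the
reduced crossed product of `A` by the action `α` of the discrete group `G`. Here `σ` is a faithful
representation of `A` on the Hilbert space `H`, the Hilbert space `K` is the Hilbert sum of copies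
`V s (H)` of `H`, `s ∈ G` (that is, `K = ℓ²(G, H)`), and `ρ` is a faithful representation of `D` on
`K` such that `ρ(a) V_s = V_s σ(α_{s⁻¹}(a))` and `ρ(u_g) V_s = V_{gs}` (the regular
representation); and `D` is the closed linear span of the products `ι(a) u_g`. -/
structure IsReducedCrossedProduct {A : Type uA} [CStarAlgebra A] {G : Type uG} [Group G]
    (α : G →* (A ≃⋆ₐ[ℂ] A)) {H : Type uH} [NormedAddCommGroup H] [InnerProductSpace ℂ H]
    [CompleteSpace H] (σ : A →⋆ₐ[ℂ] (H →L[ℂ] H)) {D : Type uD} [CStarAlgebra D]
    (ι : A →⋆ₐ[ℂ] D) (u : G → D) {K : Type uK} [NormedAddCommGroup K] [InnerProductSpace ℂ K]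
    [CompleteSpace K] (V : G → H →ₗᵢ[ℂ] K) (ρ : D →⋆ₐ[ℂ] (K →L[ℂ] K)) : Prop where
  faithful : Function.Injective σ
  injective : Function.Injective ρ
  hilbertSum : IsHilbertSum ℂ (fun _ : G => H) V
  coeff : ∀ (a : A) (s : G) (v : H), ρ (ι a) (V s v) = V s (σ (α s⁻¹ a) v)
  shift : ∀ (g s : G) (v : H), ρ (u g) (V s v) = V (g * s) v
  dense : Dense (Submodule.span ℂ {d : D | ∃ a g, d = ι a * u g} : Set D)

/-- A unital inclusion `ι : C → D` of C*-algebras is *norming* if for every `k` and every
`X ∈ M_k(D)`, the norm of `X` is the supremum of the norms of `R X S` over all rows `R` and columns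
`S` of length `k` over `C` of norm at most one. -/
def Norms {C : Type uA} {D : Type uD} [CStarAlgebra C] [PartialOrder C] [StarOrderedRing C]
    [CStarAlgebra D] [PartialOrder D] [StarOrderedRing D] (ι : C →⋆ₐ[ℂ] D) : Prop :=
  ∀ (k : ℕ) (X : CStarMatrix (Fin k) (Fin k) D),
    IsLUB {r : ℝ | ∃ (R : CStarMatrix (Fin 1) (Fin k) C) (S : CStarMatrix (Fin k) (Fin 1) C),
      ‖R‖ ≤ 1 ∧ ‖S‖ ≤ 1 ∧ r = ‖R.map ι * X * S.map ι‖} ‖X‖

/-- An injective C*-algebra: unital completely positive maps into `I` extend from unital
C*-subalgebras to the ambient C*-algebras. -/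
def IsInjectiveCStar (I : Type uI) [CStarAlgebra I] [PartialOrder I] [StarOrderedRing I] : Prop :=
  ∀ (C B : Type uI) [CStarAlgebra C] [PartialOrder C] [StarOrderedRing C] [CStarAlgebra B]
    [PartialOrder B] [StarOrderedRing B] (κ : C →⋆ₐ[ℂ] B), Function.Injective κ →
    ∀ φ : CompletelyPositiveMap C I, φ 1 = 1 →
      ∃ ψ : CompletelyPositiveMap B I, ∀ c, ψ (κ c) = φ c

/-- `(I, j)` is the injective envelope of the unital C*-algebra `A`: `I` is injective, `j` is an
injective unital star-homomorphism, and the identity is the only completely positive map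
`I → I` which restricts to the identity on `A` (rigidity). -/
def IsInjectiveEnvelope {A : Type uA} {I : Type uI} [CStarAlgebra A] [CStarAlgebra I]
    [PartialOrder I] [StarOrderedRing I] (j : A →⋆ₐ[ℂ] I) : Prop :=
  Function.Injective j ∧ IsInjectiveCStar I ∧
    ∀ ψ : CompletelyPositiveMap I I, (∀ a, ψ (j a) = j a) → ∀ y, ψ y = y

/-- A pseudo-expectation for the inclusion `ι : A → D`, with respect to `j : A → I`: a (unital)
completely positive map `θ : D → I` with `θ ∘ ι = j`. -/
def IsPseudoExpectation {A : Type uA} {D : Type uD} {I : Type uI} [CStarAlgebra A] [CStarAlgebra D]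
    [PartialOrder D] [StarOrderedRing D] [CStarAlgebra I] [PartialOrder I] [StarOrderedRing I]
    (ι : A →⋆ₐ[ℂ] D) (j : A →⋆ₐ[ℂ] I) (θ : CompletelyPositiveMap D I) : Prop :=
  ∀ a, θ (ι a) = j a

end Pool.Agent.MP_dbaee1_an
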