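import Mathlib
import Pool.Agent.Lib.MP_dbaee1_an.Stmt

/-!
# A concrete model of the reduced crossed product

`redCrossed α σ` is the reduced crossed product `A ⋊_r G`, realised on `ℓ²(G, H)` by the regular
representation induced from a faithful representation `σ` of `A` on `H`.
-/

open scoped ComplexOrder InnerProductSpace ENNReal

namespace Pool.Agent.MP_dbaee1_an

universe u v w x

section regular

variable {G : Type v} {H : Type w} [NormedAddCommGroup H] [InnerProductSpace ℂ H]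

/-- The Hilbert space `ℓ²(G, H)`. -/
abbrev L2 (G : Type v) (H : Type w) [NormedAddCommGroup H] : Type (max v w) :=
  lp (fun _ : G => H) 2

lemma memlp_wperm (e : G ≃ G) (T : G → H →L[ℂ] H) (C : ℝ) (hC : ∀ s, ‖T s‖ ≤ C)
    (ξ : L2 G H) : Memℓp (fun s => T s (ξ (e s))) 2 ∧
      ∑' s, ‖T s (ξ (e s))‖ ^ (2 : ℝ≥0∞).toReal ≤ C ^ 2 * ∑' s, ‖ξ s‖ ^ (2 : ℝ≥0∞).toReal := by
  have hp : 0 < (2 : ℝ≥0∞).toReal := by norm_num
  have hs : Summable fun s => ‖ξ s‖ ^ (2 : ℝ≥0∞).toReal := (lp.memℓp ξ).summable hp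
  have hs' : Summable fun s => C ^ 2 * ‖ξ (e s)‖ ^ (2 : ℝ≥0∞).toReal :=
    ((e.summable_iff).mpr hs).mul_left _
  have hle : ∀ s, ‖T s (ξ (e s))‖ ^ (2 : ℝ≥0∞).toReal ≤
      C ^ 2 * ‖ξ (e s)‖ ^ (2 : ℝ≥0∞).toReal := by
    intro s
    have h1 : ‖T s (ξ (e s))‖ ≤ C * ‖ξ (e s)‖ :=
      ((T s).le_opNorm _).trans (by gcongr; exact hC s)
    simp only [ENNReal.toReal_ofNat, Real.rpow_ofNat]
    calc ‖T s (ξ (e s))‖ ^ 2 ≤ (C * ‖ξ (e s)‖) ^ 2 := by gcongr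
      _ = C ^ 2 * ‖ξ (e s)‖ ^ 2 := by ring
  have hsum : Summable fun s => ‖T s (ξ (e s))‖ ^ (2 : ℝ≥0∞).toReal :=
    Summable.of_nonneg_of_le (fun s => by positivity) hle hs'
  refine ⟨memℓp_gen hsum, ?_⟩
  calc ∑' s, ‖T s (ξ (e s))‖ ^ (2 : ℝ≥0∞).toReal
      ≤ ∑' s, C ^ 2 * ‖ξ (e s)‖ ^ (2 : ℝ≥0∞).toReal := hsum.tsum_le_tsum hle hs'
    _ = C ^ 2 * ∑' s, ‖ξ (e s)‖ ^ (2 : ℝ≥0∞).toReal := tsum_mul_left
    _ = C ^ 2 * ∑' s, ‖ξ s‖ ^ (2 : ℝ≥0∞).toReal := by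
      rw [e.tsum_eq (fun s => ‖ξ s‖ ^ (2 : ℝ≥0∞).toReal)]

/-- For a permutation `e` of `G` and a bounded family `T` of operators on `H`, the bounded operator
`ξ ↦ (s ↦ T s (ξ (e s)))` on `ℓ²(G, H)`. -/
noncomputable def wperm (e : G ≃ G) (T : G → H →L[ℂ] H) (C : ℝ) (hC0 : 0 ≤ C)
    (hC : ∀ s, ‖T s‖ ≤ C) : L2 G H →L[ℂ] L2 G H :=
  LinearMap.mkContinuous
    { toFun := fun ξ => ⟨fun s => T s (ξ (e s)), (memlp_wperm e T C hC ξ).1⟩
      map_add' := by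
        intro ξ η
        ext s
        simp
      map_smul' := by
        intro c ξ
        ext s
        simp [lp.coeFn_smul] }
    C (by
      intro ξ
      have hp : 0 < (2 : ℝ≥0∞).toReal := by norm_num
      refine lp.norm_le_of_tsum_le hp (by positivity) ?_
      refine ((memlp_wperm e T C hC ξ).2).trans ?_
      rw [← lp.norm_rpow_eq_tsum hp]
      simp only [ENNReal.toReal_ofNat, Real.rpow_ofNat]
      apply le_of_eq
      ring)

@[simp] lemma wperm_apply (e : G ≃ G) (T : G → H →L[ℂ] H) (C : ℝ) (hC0 : 0 ≤ C)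
    (hC : ∀ s, ‖T s‖ ≤ C) (ξ : L2 G H) (s : G) :
    wperm e T C hC0 hC ξ s = T s (ξ (e s)) := rfl

/-- Left translation `λ_g` on `ℓ²(G, H)`: `(λ_g ξ)(s) = ξ(g⁻¹ s)`. -/
noncomputable def regShift (G : Type v) [Group G] (H : Type w) [NormedAddCommGroup H]
    [InnerProductSpace ℂ H] (g : G) : L2 G H →L[ℂ] L2 G H :=
  wperm (Equiv.mulLeft g⁻¹) (fun _ => 1) 1 zero_le_one
    (fun _ => ContinuousLinearMap.norm_id_le)

@[simp] lemma regShift_apply [Group G] (g : G) (ξ : L2 G H) (s : G) :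
    regShift G H g ξ s = ξ (g⁻¹ * s) := rfl

end regular

section crossed

variable {A : Type u} [CStarAlgebra A] {G : Type v} [Group G] {H : Type w}
  [NormedAddCommGroup H] [InnerProductSpace ℂ H] [CompleteSpace H]

/-- The representation of `A` on `ℓ²(G, H)`: `(a ξ)(s) = σ(α_{s⁻¹}(a)) ξ(s)`. -/
noncomputable def regMul (α : G →* (A ≃⋆ₐ[ℂ] A)) (σ : A →⋆ₐ[ℂ] (H →L[ℂ] H)) (a : A) :
    L2 G H →L[ℂ] L2 G H :=
  wperm (Equiv.refl G) (fun s => σ (α s⁻¹ a)) ‖a‖ (norm_nonneg a)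
    (fun s => (NonUnitalStarAlgHom.norm_apply_le σ _).trans
      (NonUnitalStarAlgHom.norm_apply_le (α s⁻¹) a))

@[simp] lemma regMul_apply (α : G →* (A ≃⋆ₐ[ℂ] A)) (σ : A →⋆ₐ[ℂ] (H →L[ℂ] H)) (a : A)
    (ξ : L2 G H) (s : G) : regMul α σ a ξ s = σ (α s⁻¹ a) (ξ s) := rfl

/-- The reduced crossed product `A ⋊_{α,r} G`: the C*-algebra of operators on `ℓ²(G, H)` generated
by the copy of `A` and the left translations. -/
noncomputable def redCrossed (α : G →* (A ≃⋆ₐ[ℂ] A)) (σ : A →⋆ₐ[ℂ] (H →L[ℂ] H)) :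
    StarSubalgebra ℂ (L2 G H →L[ℂ] L2 G H) :=
  (StarAlgebra.adjoin ℂ (Set.range (regMul α σ) ∪ Set.range (regShift G H))).topologicalClosure

/-- The reduced crossed product as a type. -/
def RedCrossed (α : G →* (A ≃⋆ₐ[ℂ] A)) (σ : A →⋆ₐ[ℂ] (H →L[ℂ] H)) : Type (max v w) :=
  ↥(redCrossed α σ)

noncomputable instance (α : G →* (A ≃⋆ₐ[ℂ] A)) (σ : A →⋆ₐ[ℂ] (H →L[ℂ] H)) :
    CStarAlgebra (RedCrossed α σ) :=
  haveI : IsClosed (redCrossed α σ : Set (L2 G H →L[ℂ] L2 G H)) :=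
    StarSubalgebra.isClosed_topologicalClosure _
  inferInstanceAs (CStarAlgebra ↥(redCrossed α σ))

noncomputable instance (α : G →* (A ≃⋆ₐ[ℂ] A)) (σ : A →⋆ₐ[ℂ] (H →L[ℂ] H)) :
    PartialOrder (RedCrossed α σ) := CStarAlgebra.spectralOrder _

instance (α : G →* (A ≃⋆ₐ[ℂ] A)) (σ : A →⋆ₐ[ℂ] (H →L[ℂ] H)) :
    StarOrderedRing (RedCrossed α σ) := CStarAlgebra.spectralOrderedRing _

/-- The identity representation of the reduced crossed product on `ℓ²(G, H)`. -/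
noncomputable def RedCrossed.incl (α : G →* (A ≃⋆ₐ[ℂ] A)) (σ : A →⋆ₐ[ℂ] (H →L[ℂ] H)) :
    RedCrossed α σ →⋆ₐ[ℂ] (L2 G H →L[ℂ] L2 G H) :=
  (redCrossed α σ).subtype

lemma regMul_mem (α : G →* (A ≃⋆ₐ[ℂ] A)) (σ : A →⋆ₐ[ℂ] (H →L[ℂ] H)) (a : A) :
    regMul α σ a ∈ redCrossed α σ :=
  StarSubalgebra.le_topologicalClosure _
    (StarAlgebra.subset_adjoin ℂ _ (Set.mem_union_left _ ⟨a, rfl⟩))

lemma regShift_mem (α : G →* (A ≃⋆ₐ[ℂ] A)) (σ : A →⋆ₐ[ℂ] (H →L[ℂ] H)) (g : G) :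
    regShift G H g ∈ redCrossed α σ :=
  StarSubalgebra.le_topologicalClosure _
    (StarAlgebra.subset_adjoin ℂ _ (Set.mem_union_right _ ⟨g, rfl⟩))

omit [Group G] [CompleteSpace H] in
lemma l2_inner_eq (ξ η : L2 G H) : ⟪ξ, η⟫_ℂ = ∑' s, ⟪ξ s, η s⟫_ℂ := lp.inner_eq_tsum ξ η

lemma regMul_adjoint (α : G →* (A ≃⋆ₐ[ℂ] A)) (σ : A →⋆ₐ[ℂ] (H →L[ℂ] H)) (a : A) :
    regMul α σ (star a) = star (regMul α σ a) := by
  rw [ContinuousLinearMap.star_eq_adjoint, ContinuousLinearMap.eq_adjoint_iff]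
  intro ξ η
  rw [l2_inner_eq, l2_inner_eq]
  congr 1
  funext s
  rw [regMul_apply, regMul_apply, map_star, map_star, ContinuousLinearMap.star_eq_adjoint,
    ContinuousLinearMap.adjoint_inner_left]

/-- The canonical inclusion of `A` in the reduced crossed product. -/
noncomputable def RedCrossed.ι (α : G →* (A ≃⋆ₐ[ℂ] A)) (σ : A →⋆ₐ[ℂ] (H →L[ℂ] H)) :
    A →⋆ₐ[ℂ] RedCrossed α σ where
  toFun a := ⟨regMul α σ a, regMul_mem α σ a⟩
  map_one' := by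
    apply Subtype.ext
    change regMul α σ 1 = 1
    ext ξ s
    rw [regMul_apply, map_one, map_one]
    rfl
  map_mul' a b := by
    apply Subtype.ext
    change regMul α σ (a * b) = regMul α σ a * regMul α σ b
    ext ξ s
    rw [mul_apply_eq_comp, regMul_apply, regMul_apply, regMul_apply, map_mul, map_mul,
      mul_apply_eq_comp]
  map_zero' := by
    apply Subtype.ext
    change regMul α σ 0 = 0
    ext ξ s
    rw [regMul_apply, map_zero, map_zero]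
    rfl
  map_add' a b := by
    apply Subtype.ext
    change regMul α σ (a + b) = regMul α σ a + regMul α σ b
    ext ξ s
    rw [add_apply, regMul_apply, lp.coeFn_add, Pi.add_apply, regMul_apply, regMul_apply, map_add,
      map_add, add_apply]
  commutes' c := by
    apply Subtype.ext
    change regMul α σ (algebraMap ℂ A c) = algebraMap ℂ _ c
    ext ξ s
    rw [regMul_apply, Algebra.algebraMap_eq_smul_one, Algebra.algebraMap_eq_smul_one, map_smul,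
      map_smul, map_one, map_one, smul_apply, smul_apply, lp.coeFn_smul]
    rfl
  map_star' a := by
    apply Subtype.ext
    exact regMul_adjoint α σ a

end crossed

end Pool.Agent.MP_dbaee1_an
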