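import Mathlib
import Pool.Agent.Lib.MP_dbaee1_an.Good

/-!
# Transitivity for good representations
-/

open scoped ComplexOrder InnerProductSpace
open Complex

namespace Pool.Agent.MP_dbaee1_an

universe u v w

lemma exists_isometry_of_orthonormal {F H : Type*} [NormedAddCommGroup F] [InnerProductSpace ℂ F]
    [FiniteDimensional ℂ F] [NormedAddCommGroup H] [InnerProductSpace ℂ H] {κ : Type*} [Fintype κ]
    (e : κ → H) (he : Orthonormal ℂ e) (hcard : Module.finrank ℂ F ≤ Fintype.card κ) :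
    Nonempty (F →ₗᵢ[ℂ] H) := by
  have hle : Fintype.card (Fin (Module.finrank ℂ F)) ≤ Fintype.card κ := by simpa using hcard
  obtain ⟨f⟩ := Function.Embedding.nonempty_of_card_le hle
  let b := stdOrthonormalBasis ℂ F
  have hf : Orthonormal ℂ (e ∘ f) := he.comp f f.injective
  let g : F →ₗ[ℂ] H := b.toBasis.constr ℂ (e ∘ f)
  refine ⟨g.isometryOfOrthonormal (v := b.toBasis) (by simp) ?_⟩
  have : (g ∘ b.toBasis) = e ∘ f := by
    funext i
    simp [g]
  rw [this]
  exact hf

lemma piLp_norm_le_sum {N H : Type*} [Fintype N] [NormedAddCommGroup H]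
    (x : PiLp 2 (fun _ : N => H)) : ‖x‖ ≤ ∑ j, ‖x j‖ := by
  rw [PiLp.norm_eq_of_L2]
  rw [Real.sqrt_le_left (Finset.sum_nonneg fun _ _ => norm_nonneg _)]
  exact Finset.sum_sq_le_sq_sum_of_nonneg fun _ _ => norm_nonneg _

section

variable {A : Type u} [CStarAlgebra A] {H : Type v} [NormedAddCommGroup H]
    [InnerProductSpace ℂ H] [CompleteSpace H] {N : Type*} [Fintype N]

theorem good_transitivity {E : Type w} [Fintype E] (β : E → (A ≃⋆ₐ[ℂ] A))
    (π : A →⋆ₐ[ℂ] (H →L[ℂ] H)) (hirr : IsIrr π) (hgood : Good β π)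
    (ξ : E → PiLp 2 (fun _ : N => H)) (δ : ℝ) (hδ : 0 < δ) :
    ∃ C : N → A, ‖∑ j, star (C j) * C j‖ ≤ 1 ∧ ∃ ζ : E → H, (∀ s, ‖ζ s‖ = ‖ξ s‖) ∧
      ∀ s, ‖colOp (tw π (β s)) C (ζ s) - ξ s‖ < δ := by
  classical
  -- representatives of the equivalence classes
  obtain ⟨rep, hrep1, hrep2⟩ : ∃ rep : E → E, (∀ s, UEquiv (tw π (β (rep s))) (tw π (β s))) ∧
      ∀ s t, UEquiv (tw π (β s)) (tw π (β t)) → rep s = rep t := by
    let S : Setoid E :=
      { r := fun s t => UEquiv (tw π (β s)) (tw π (β t))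
        iseqv := ⟨fun s => UEquiv.refl _, fun h => h.symm, fun h h' => h.trans h'⟩ }
    refine ⟨fun s => (Quotient.mk S s).out, fun s => ?_, fun s t h => ?_⟩
    · have : (Quotient.mk S s).out ≈ s := Quotient.mk_out s
      exact this
    · have : Quotient.mk S s = Quotient.mk S t := Quotient.sound h
      simp only [this]
  choose U hU using hrep1
  let ws : E → PiLp 2 (fun _ : N => H) := fun s => WithLp.toLp 2 fun j => (U s).symm (ξ s j)
  have hwsapp : ∀ s j, ws s j = (U s).symm (ξ s j) := fun s j => rfl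
  have hwsnorm : ∀ s, ‖ws s‖ = ‖ξ s‖ := by
    intro s
    rw [PiLp.norm_eq_of_L2, PiLp.norm_eq_of_L2]
    simp [hwsapp]
  let F : E → Submodule ℂ (PiLp 2 (fun _ : N => H)) := fun q =>
    Submodule.span ℂ (Set.range (fun t : {t // UEquiv (tw π (β q)) (tw π (β t))} => ws t))
  have hFfin : ∀ q, FiniteDimensional ℂ (F q) := by
    intro q
    exact FiniteDimensional.span_of_finite ℂ (Set.finite_range _)
  have hJ : ∀ q, Nonempty (F q →ₗᵢ[ℂ] H) := by
    intro q
    obtain ⟨e, he⟩ := hgood q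
    have := hFfin q
    exact exists_isometry_of_orthonormal e he (finrank_range_le_card _)
  let J : ∀ q, F q →ₗᵢ[ℂ] H := fun q => (hJ q).some
  let V : ∀ q, H →L[ℂ] PiLp 2 (fun _ : N => H) := fun q =>
    (F q).subtypeL ∘L ContinuousLinearMap.adjoint (J q).toContinuousLinearMap
  have hV1 : ∀ q (f : F q), V q (J q f) = f := by
    intro q f
    have : ContinuousLinearMap.adjoint (J q).toContinuousLinearMap ((J q).toContinuousLinearMap f)
        = f := by
      apply ext_inner_right ℂ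
      intro y
      rw [ContinuousLinearMap.adjoint_inner_left]
      exact (J q).inner_map_map f y
    change (((ContinuousLinearMap.adjoint (J q).toContinuousLinearMap)
      ((J q).toContinuousLinearMap f) : F q) : PiLp 2 (fun _ : N => H)) = _
    rw [this]
  have hV2 : ∀ q (f : F q), ContinuousLinearMap.adjoint (V q) (f : PiLp 2 (fun _ : N => H)) =
      J q f := by
    intro q f
    apply ext_inner_right ℂ
    intro y
    rw [ContinuousLinearMap.adjoint_inner_left]
    change ⟪(f : PiLp 2 (fun _ : N => H)), (((ContinuousLinearMap.adjoint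
      (J q).toContinuousLinearMap) y : F q) : PiLp 2 (fun _ : N => H))⟫_ℂ = _
    rw [← Submodule.coe_inner, ContinuousLinearMap.adjoint_inner_right]
    rfl
  have hwsF : ∀ s, ws s ∈ F (rep s) := by
    intro s
    exact Submodule.subset_span ⟨⟨s, ⟨U s, hU s⟩⟩, rfl⟩
  let vs : E → H := fun s => J (rep s) ⟨ws s, hwsF s⟩
  have hvsnorm : ∀ s, ‖vs s‖ = ‖ξ s‖ := by
    intro s
    rw [← hwsnorm]
    exact (J (rep s)).norm_map _
  have hVvs : ∀ s, V (rep s) (vs s) = ws s := fun s => hV1 _ _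
  have hVws : ∀ s, ContinuousLinearMap.adjoint (V (rep s)) (ws s) = vs s :=
    fun s => hV2 (rep s) ⟨ws s, hwsF s⟩
  -- components
  let T : E → N → H →L[ℂ] H := fun q j =>
    (PiLp.proj 2 (𝕜 := ℂ) (fun _ : N => H) j) ∘L V q
  have hTapp : ∀ q j x, T q j x = V q x j := fun q j x => rfl
  have hTadj : ∀ q (w : PiLp 2 (fun _ : N => H)), ∑ j, star (T q j) (w j) =
      ContinuousLinearMap.adjoint (V q) w := by
    intro q w
    apply ext_inner_right ℂ
    intro y
    rw [ContinuousLinearMap.adjoint_inner_left, PiLp.inner_apply, sum_inner]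
    refine Finset.sum_congr rfl fun j _ => ?_
    rw [ContinuousLinearMap.star_eq_adjoint, ContinuousLinearMap.adjoint_inner_left, hTapp]
  have hirrβ : ∀ s, IsIrr (tw π (β s)) := fun s => hirr.tw _
  set δ' : ℝ := δ / (2 * Fintype.card N + 1) with hδ'
  have hδ'pos : 0 < δ' := by positivity
  have hdens : ∀ j, ∃ a : A, ∀ s, ‖tw π (β (rep s)) a (vs s) - T (rep s) j (vs s)‖ < δ' ∧
      ‖tw π (β (rep s)) (star a) (ws s j) - star (T (rep s) j) (ws s j)‖ < δ' := by
    intro j
    refine density_star' (κ := E) (fun s => tw π (β (rep s))) (fun s => hirrβ _)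
      (fun s => T (rep s) j) ?_ vs (fun s => ws s j) δ' hδ'pos
    intro p q
    by_cases h : rep q = rep p
    · left
      rw [h]
      exact ⟨rfl, rfl⟩
    · right
      intro h2
      apply h
      exact hrep2 _ _ ((UEquiv.symm ⟨U q, hU q⟩).trans (h2.trans ⟨U p, hU p⟩))
  choose c₀ hc₀ using hdens
  obtain ⟨C, hC1, hC2⟩ := kaplansky_tuple (H := H) c₀
  refine ⟨C, hC1, fun s => U s (vs s), fun s => by rw [(U s).norm_map, hvsnorm], fun s => ?_⟩
  have h1 : ‖colOp (tw π (β s)) C (U s (vs s)) - ξ s‖ =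
      ‖colOp (tw π (β (rep s))) C (vs s) - ws s‖ := by
    rw [PiLp.norm_eq_of_L2, PiLp.norm_eq_of_L2]
    congr 1
    refine Finset.sum_congr rfl fun j _ => ?_
    congr 1
    rw [PiLp.sub_apply, PiLp.sub_apply, colOp_apply, colOp_apply, ← hU, hwsapp]
    have : ξ s j = U s ((U s).symm (ξ s j)) := by simp
    conv_lhs => rw [this]
    rw [← map_sub, (U s).norm_map]
  rw [h1]
  have h2 := hC2 (tw π (β (rep s))) (vs s) (ws s)
  have h3 : ‖colOp (tw π (β (rep s))) c₀ (vs s) - ws s‖ ≤ Fintype.card N * δ' := by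
    refine (piLp_norm_le_sum _).trans ?_
    calc ∑ j, ‖(colOp (tw π (β (rep s))) c₀ (vs s) - ws s) j‖ ≤ ∑ j : N, δ' := by
          refine Finset.sum_le_sum fun j _ => ?_
          have := (hc₀ j s).1.le
          rw [hTapp, hVvs] at this
          exact this
      _ = _ := by simp
  have h4 : ‖vs s - ContinuousLinearMap.adjoint (colOp (tw π (β (rep s))) c₀) (ws s)‖ ≤
      Fintype.card N * δ' := by
    rw [colOp_adjoint_apply, ← hVws s, ← hTadj, ← Finset.sum_sub_distrib]
    refine (norm_sum_le _ _).trans ?_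
    calc ∑ j, ‖star (T (rep s) j) (ws s j) - tw π (β (rep s)) (star (c₀ j)) (ws s j)‖
        ≤ ∑ j : N, δ' := by
          refine Finset.sum_le_sum fun j _ => ?_
          have := (hc₀ j s).2.le
          rw [← norm_neg, neg_sub] at this
          exact this
      _ = _ := by simp
  have h5 : 2 * (Fintype.card N : ℝ) * δ' < δ := by
    rw [hδ', mul_div_assoc', div_lt_iff₀ (by positivity)]
    nlinarith
  linarith

end

end Pool.Agent.MP_dbaee1_an
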