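import Mathlib
import Pool.Agent.Lib.MP_dbaee1_an.Good2

/-!
# Matrix amplifications of representations
-/

open scoped ComplexOrder InnerProductSpace CStarAlgebra
open Complex

namespace Pool.Agent.MP_dbaee1_an

universe u v w

section

variable {A : Type u} [CStarAlgebra A] {H : Type v} [NormedAddCommGroup H]
    [InnerProductSpace ℂ H] [CompleteSpace H] {Λ : Type*} [Fintype Λ]

/-- The operator on `H^Λ` attached to a matrix over `A`. -/
noncomputable def matOp (π : A →⋆ₐ[ℂ] (H →L[ℂ] H)) (M : CStarMatrix Λ Λ A) :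
    PiLp 2 (fun _ : Λ => H) →L[ℂ] PiLp 2 (fun _ : Λ => H) :=
  (PiLp.continuousLinearEquiv 2 ℂ (fun _ : Λ => H)).symm.toContinuousLinearMap ∘L
    ContinuousLinearMap.pi fun i => ∑ j, (π (M i j)) ∘L (PiLp.proj 2 (𝕜 := ℂ) (fun _ : Λ => H) j)

lemma matOp_apply (π : A →⋆ₐ[ℂ] (H →L[ℂ] H)) (M : CStarMatrix Λ Λ A)
    (x : PiLp 2 (fun _ : Λ => H)) (i : Λ) : matOp π M x i = ∑ j, π (M i j) (x j) := by
  change (∑ j, (π (M i j)) ∘L (PiLp.proj 2 (𝕜 := ℂ) (fun _ : Λ => H) j)) x = _
  rw [sum_apply]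
  rfl

variable [DecidableEq Λ]

/-- Matrix amplification as a star homomorphism. -/
noncomputable def repMat (π : A →⋆ₐ[ℂ] (H →L[ℂ] H)) :
    CStarMatrix Λ Λ A →⋆ₐ[ℂ] (PiLp 2 (fun _ : Λ => H) →L[ℂ] PiLp 2 (fun _ : Λ => H)) where
  toFun M := matOp π M
  map_one' := by
    ext x i
    rw [matOp_apply, Finset.sum_eq_single i]
    · simp [CStarMatrix.one_apply]
    · intro j _ hj
      rw [CStarMatrix.one_apply_ne (Ne.symm hj)]
      simp
    · simp
  map_mul' M N := by
    ext x i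
    rw [matOp_apply, mul_apply_eq_comp, matOp_apply]
    simp only [CStarMatrix.mul_apply, map_sum, map_mul, matOp_apply, sum_apply, mul_apply_eq_comp]
    rw [Finset.sum_comm]
  map_zero' := by
    ext x i
    rw [matOp_apply]
    simp
  map_add' M N := by
    ext x i
    rw [matOp_apply]
    simp [matOp_apply, Finset.sum_add_distrib]
  commutes' c := by
    ext x i
    rw [matOp_apply, Finset.sum_eq_single i]
    · simp [CStarMatrix.algebraMap_apply, Algebra.algebraMap_eq_smul_one]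
    · intro j _ hj
      rw [CStarMatrix.algebraMap_apply, if_neg (Ne.symm hj)]
      simp
    · simp
  map_star' M := by
    rw [ContinuousLinearMap.star_eq_adjoint, ContinuousLinearMap.eq_adjoint_iff]
    intro x y
    rw [PiLp.inner_apply, PiLp.inner_apply]
    simp only [matOp_apply, sum_inner, inner_sum]
    rw [Finset.sum_comm]
    refine Finset.sum_congr rfl fun i _ => Finset.sum_congr rfl fun j _ => ?_
    rw [CStarMatrix.star_apply, rep_adj, star_star]

@[simp] lemma repMat_apply (π : A →⋆ₐ[ℂ] (H →L[ℂ] H)) (M : CStarMatrix Λ Λ A)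
    (x : PiLp 2 (fun _ : Λ => H)) (i : Λ) : repMat π M x i = ∑ j, π (M i j) (x j) :=
  matOp_apply π M x i

lemma repMat_single (π : A →⋆ₐ[ℂ] (H →L[ℂ] H)) (M : CStarMatrix Λ Λ A) (i j : Λ) (v : H) :
    repMat π M (WithLp.toLp 2 (Pi.single j v)) i = π (M i j) v := by
  rw [repMat_apply, Finset.sum_eq_single j]
  · simp
  · intro k _ hk
    simp [hk]
  · simp

lemma repMat_injective (π : A →⋆ₐ[ℂ] (H →L[ℂ] H)) (hπ : Function.Injective π) :
    Function.Injective (repMat (Λ := Λ) π) := by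
  intro M N h
  ext i j
  apply hπ
  ext v
  have := congrArg (fun T => T (WithLp.toLp 2 (Pi.single j v)) i) h
  simpa only [repMat_single] using this

variable [PartialOrder A] [StarOrderedRing A]

lemma norm_repMat_le (π : A →⋆ₐ[ℂ] (H →L[ℂ] H)) (M : CStarMatrix Λ Λ A) :
    ‖repMat π M‖ ≤ ‖M‖ := NonUnitalStarAlgHom.norm_apply_le (repMat π) M

lemma norm_repMat (π : A →⋆ₐ[ℂ] (H →L[ℂ] H)) (hπ : Function.Injective π)
    (M : CStarMatrix Λ Λ A) : ‖repMat π M‖ = ‖M‖ :=
  NonUnitalStarAlgHom.norm_map (repMat π) (repMat_injective π hπ) M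

end

end Pool.Agent.MP_dbaee1_an
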