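import Mathlib
import Pool.Agent.Lib.MP_dbaee1_an.Defs
import Pool.Agent.Lib.MP_dbaee1_an.Mat

/-!
# Matrix coefficients of elements of the reduced crossed product
-/

open scoped ComplexOrder InnerProductSpace ENNReal CStarAlgebra

namespace Pool.Agent.MP_dbaee1_an

universe u v w x

section

variable {A : Type u} [CStarAlgebra A] {G : Type v} [Group G] {H : Type w}
  [NormedAddCommGroup H] [InnerProductSpace ℂ H] [CompleteSpace H]
  (α : G →* (A ≃⋆ₐ[ℂ] A)) (σ : A →⋆ₐ[ℂ] (H →L[ℂ] H))

open Classical in
/-- The isometric embedding of `H` at the coordinate `s`. -/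
noncomputable def sgl (s : G) : H →L[ℂ] L2 G H :=
  lp.singleContinuousLinearMap ℂ (fun _ : G => H) 2 s

open Classical in
lemma sgl_apply (s : G) (v : H) (t : G) : (sgl s v : L2 G H) t = if t = s then v else 0 := by
  simp only [sgl, lp.singleContinuousLinearMap_apply]
  split_ifs with h
  · subst h
    rw [lp.single_apply_self]
  · rw [lp.single_apply_ne _ _ _ h]

/-- Evaluation at `s`. -/
noncomputable def evl (s : G) : L2 G H →L[ℂ] H := lp.evalCLM ℂ (fun _ : G => H) 2 s

lemma evl_apply (s : G) (ξ : L2 G H) : evl s ξ = ξ s := rfl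

/-- Matrix coefficient of an operator on `ℓ²(G, H)`. -/
noncomputable def ent (T : L2 G H →L[ℂ] L2 G H) (s t : G) : H →L[ℂ] H :=
  evl s ∘L T ∘L sgl t

lemma ent_apply (T : L2 G H →L[ℂ] L2 G H) (s t : G) (v : H) :
    ent T s t v = (T (sgl t v)) s := rfl

lemma regMul_mul (a b : A) : regMul α σ (a * b) = regMul α σ a * regMul α σ b := by
  ext ξ s
  rw [mul_apply_eq_comp, regMul_apply, regMul_apply, regMul_apply, map_mul, map_mul,
    mul_apply_eq_comp]

lemma regShift_mul (g h : G) : regShift G H (g * h) = regShift G H g * regShift G H h := by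
  ext ξ s
  rw [mul_apply_eq_comp, regShift_apply, regShift_apply, regShift_apply, mul_inv_rev, mul_assoc]

lemma regShift_one : regShift G H 1 = 1 := by
  ext ξ s
  rw [regShift_apply, inv_one, one_mul]
  rfl

lemma regShift_adjoint (g : G) : star (regShift G H g) = regShift G H g⁻¹ := by
  rw [ContinuousLinearMap.star_eq_adjoint, eq_comm, ContinuousLinearMap.eq_adjoint_iff]
  intro ξ η
  rw [l2_inner_eq, l2_inner_eq]
  rw [← (Equiv.mulLeft g⁻¹).tsum_eq (fun s => ⟪(regShift G H g⁻¹ ξ) s, η s⟫_ℂ)]
  congr 1
  funext s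
  simp

/-- Covariance. -/
lemma covariance (g : G) (a : A) :
    regShift G H g * regMul α σ a = regMul α σ (α g a) * regShift G H g := by
  ext ξ s
  rw [mul_apply_eq_comp, mul_apply_eq_comp, regShift_apply, regMul_apply, regMul_apply,
    regShift_apply, mul_inv_rev, inv_inv, map_mul]
  rfl

/-- Monomials. -/
def monos : Set (L2 G H →L[ℂ] L2 G H) :=
  {T | ∃ a g, T = regMul α σ a * regShift G H g}

lemma monos_mul : ∀ S ∈ monos α σ, ∀ T ∈ monos α σ, S * T ∈ monos α σ := by
  rintro _ ⟨a, g, rfl⟩ _ ⟨b, h, rfl⟩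
  refine ⟨a * α g b, g * h, ?_⟩
  rw [regMul_mul, regShift_mul]
  calc regMul α σ a * regShift G H g * (regMul α σ b * regShift G H h)
      = regMul α σ a * (regShift G H g * regMul α σ b) * regShift G H h := by
        simp only [mul_assoc]
    _ = _ := by
        rw [covariance]
        simp only [mul_assoc]

lemma monos_star : ∀ S ∈ monos α σ, star S ∈ monos α σ := by
  rintro _ ⟨a, g, rfl⟩
  refine ⟨α g⁻¹ (star a), g⁻¹, ?_⟩
  rw [star_mul, regShift_adjoint, ← regMul_adjoint, covariance]

lemma adjoin_le_span : ∀ T ∈ StarAlgebra.adjoin ℂ (Set.range (regMul α σ) ∪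
    Set.range (regShift G H)), T ∈ Submodule.span ℂ (monos α σ) := by
  intro T hT
  induction hT using StarAlgebra.adjoin_induction with
  | mem x hx =>
    apply Submodule.subset_span
    rcases hx with ⟨a, rfl⟩ | ⟨g, rfl⟩
    · exact ⟨a, 1, by rw [regShift_one, mul_one]⟩
    · refine ⟨1, g, ?_⟩
      have : regMul α σ (1 : A) = 1 := by
        ext ξ s
        rw [regMul_apply, map_one, map_one]
        rfl
      rw [this, one_mul]
  | algebraMap r =>
    rw [Algebra.algebraMap_eq_smul_one]
    apply Submodule.smul_mem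
    apply Submodule.subset_span
    refine ⟨1, 1, ?_⟩
    rw [regShift_one, mul_one]
    ext ξ s
    rw [regMul_apply, map_one, map_one]
    rfl
  | add x y _ _ hx hy => exact Submodule.add_mem _ hx hy
  | mul x y _ _ hx hy =>
    have h1 : Submodule.span ℂ (monos α σ) * Submodule.span ℂ (monos α σ) ≤
        Submodule.span ℂ (monos α σ) := by
      rw [Submodule.span_mul_span]
      apply Submodule.span_mono
      rintro _ ⟨S, hS, T, hT, rfl⟩
      exact monos_mul α σ S hS T hT
    exact h1 (Submodule.mul_mem_mul hx hy)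
  | star x hx' hx =>
    clear hx'
    induction hx using Submodule.span_induction with
    | mem x hx => exact Submodule.subset_span (monos_star α σ x hx)
    | zero => rw [star_zero]; exact Submodule.zero_mem _
    | add x y _ _ hx hy => rw [star_add]; exact Submodule.add_mem _ hx hy
    | smul c x _ hx => rw [star_smul]; exact Submodule.smul_mem _ _ hx

/-- The matrix coefficient as a bounded linear map. -/
noncomputable def entL (s t : G) : (L2 G H →L[ℂ] L2 G H) →L[ℂ] (H →L[ℂ] H) :=
  (ContinuousLinearMap.compL ℂ H (L2 G H) H (evl s)) ∘L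
    ((ContinuousLinearMap.compL ℂ H (L2 G H) (L2 G H)).flip (sgl t))

lemma entL_apply (s t : G) (T : L2 G H →L[ℂ] L2 G H) : entL s t T = ent T s t := rfl

open Classical in
lemma ent_mono (a : A) (g s t : G) : ent (regMul α σ a * regShift G H g) s t =
    if g⁻¹ * s = t then σ (α s⁻¹ a) else 0 := by
  ext v
  rw [ent_apply, mul_apply_eq_comp, regMul_apply, regShift_apply, sgl_apply]
  split_ifs <;> simp

lemma ent_mem_range (hσ : Function.Injective σ) (T : L2 G H →L[ℂ] L2 G H)
    (hT : T ∈ redCrossed α σ) (s t : G) : ∃ a, σ a = ent T s t := by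
  classical
  have hcl : IsClosed (Set.range σ) :=
    (NonUnitalStarAlgHom.isometry σ hσ).isClosedEmbedding.isClosed_range
  have hcont : Continuous (entL (H := H) s t) := (entL s t).continuous
  have h1 : (StarAlgebra.adjoin ℂ (Set.range (regMul α σ) ∪ Set.range (regShift G H)) :
      Set (L2 G H →L[ℂ] L2 G H)) ⊆ (entL s t) ⁻¹' (Set.range σ) := by
    intro T hT
    have h2 := adjoin_le_span α σ T hT
    clear hT
    induction h2 using Submodule.span_induction with
    | mem x hx =>
      obtain ⟨a, g, rfl⟩ := hx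
      rw [Set.mem_preimage, entL_apply, ent_mono]
      split_ifs
      · exact ⟨_, rfl⟩
      · exact ⟨0, map_zero σ⟩
    | zero => exact ⟨0, by rw [map_zero, map_zero]⟩
    | add x y _ _ hx hy =>
      obtain ⟨a, ha⟩ := hx
      obtain ⟨b, hb⟩ := hy
      exact ⟨a + b, by rw [map_add, map_add, ha, hb]⟩
    | smul c x _ hx =>
      obtain ⟨a, ha⟩ := hx
      exact ⟨c • a, by rw [map_smul, map_smul, ha]⟩
  have h2 := closure_minimal h1 (hcl.preimage hcont)
  have h3 : T ∈ closure (StarAlgebra.adjoin ℂ (Set.range (regMul α σ) ∪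
      Set.range (regShift G H)) : Set (L2 G H →L[ℂ] L2 G H)) := by
    rw [← StarSubalgebra.topologicalClosure_coe]
    exact hT
  exact h2 h3

variable {α σ}

/-- The matrix coefficient of an element of the reduced crossed product, as an element of `A`. -/
noncomputable def entA (hσ : Function.Injective σ) (T : RedCrossed α σ) (s t : G) : A :=
  Classical.choose (ent_mem_range α σ hσ (RedCrossed.incl α σ T) T.2 s t)

lemma entA_spec (hσ : Function.Injective σ) (T : RedCrossed α σ) (s t : G) :
    σ (entA hσ T s t) = ent (RedCrossed.incl α σ T) s t :=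
  Classical.choose_spec (ent_mem_range α σ hσ (RedCrossed.incl α σ T) T.2 s t)

lemma entA_spec' (hσ : Function.Injective σ) (T : RedCrossed α σ) (s t : G) (v : H) :
    σ (entA hσ T s t) v = (RedCrossed.incl α σ T (sgl t v)) s := by
  rw [entA_spec]
  rfl

lemma regMul_sgl (a : A) (t : G) (v : H) :
    regMul α σ a (sgl t v) = sgl t (σ (α t⁻¹ a) v) := by
  ext s
  rw [regMul_apply, sgl_apply, sgl_apply]
  split_ifs with h
  · rw [h]
  · rw [map_zero]

lemma regShift_sgl (g t : G) (v : H) :
    regShift G H g (sgl t v) = sgl (g * t) v := by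
  ext s
  rw [regShift_apply, sgl_apply, sgl_apply]
  have : g⁻¹ * s = t ↔ s = g * t := inv_mul_eq_iff_eq_mul
  by_cases h : s = g * t
  · rw [if_pos h, if_pos (this.mpr h)]
  · rw [if_neg h, if_neg (fun h' => h (this.mp h'))]

lemma incl_ι (a : A) : RedCrossed.incl α σ (RedCrossed.ι α σ a) = regMul α σ a := rfl

lemma entA_ι_mul (hσ : Function.Injective σ) (a : A) (T : RedCrossed α σ) (s t : G) :
    entA hσ (RedCrossed.ι α σ a * T) s t = α s⁻¹ a * entA hσ T s t := by
  apply hσ
  ext v
  rw [entA_spec', map_mul, map_mul, mul_apply_eq_comp, mul_apply_eq_comp, entA_spec', incl_ι,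
    regMul_apply]

lemma entA_mul_ι (hσ : Function.Injective σ) (a : A) (T : RedCrossed α σ) (s t : G) :
    entA hσ (T * RedCrossed.ι α σ a) s t = entA hσ T s t * α t⁻¹ a := by
  apply hσ
  ext v
  rw [entA_spec', map_mul, map_mul, mul_apply_eq_comp, mul_apply_eq_comp, entA_spec', incl_ι,
    regMul_sgl]

lemma entA_add (hσ : Function.Injective σ) (S T : RedCrossed α σ) (s t : G) :
    entA hσ (S + T) s t = entA hσ S s t + entA hσ T s t := by
  apply hσ
  ext v
  rw [entA_spec', map_add, map_add, add_apply, add_apply, entA_spec', entA_spec', lp.coeFn_add,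
    Pi.add_apply]

lemma entA_smul (hσ : Function.Injective σ) (c : ℂ) (T : RedCrossed α σ) (s t : G) :
    entA hσ (c • T) s t = c • entA hσ T s t := by
  apply hσ
  ext v
  rw [entA_spec', map_smul, map_smul, smul_apply, smul_apply, entA_spec', lp.coeFn_smul]
  rfl

lemma entA_zero (hσ : Function.Injective σ) (s t : G) :
    entA hσ (0 : RedCrossed α σ) s t = 0 := by
  have := entA_smul hσ 0 (0 : RedCrossed α σ) s t
  rw [smul_zero, zero_smul] at this
  exact this

lemma entA_sum (hσ : Function.Injective σ) {κ : Type*} (S : Finset κ) (T : κ → RedCrossed α σ)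
    (s t : G) : entA hσ (∑ k ∈ S, T k) s t = ∑ k ∈ S, entA hσ (T k) s t := by
  classical
  induction S using Finset.induction_on with
  | empty => simp [entA_zero]
  | insert k S hk ih => rw [Finset.sum_insert hk, Finset.sum_insert hk, entA_add, ih]

end

end Pool.Agent.MP_dbaee1_an
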