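import Mathlib
import Pool.Agent.Lib.MP_dbaee1_an.Mat
import Pool.Agent.Lib.MP_dbaee1_an.Bad4

/-!
# The key proposition: a free family of automorphisms gives a norming diagonal embedding
-/

open scoped ComplexOrder InnerProductSpace CStarAlgebra
open Complex

namespace Pool.Agent.MP_dbaee1_an

universe u v w

/-- A nonzero element detecting that the norm of the image of `Y` is large. -/
lemma exists_detect {B : Type u} [CStarAlgebra B] (Y : B) (c : ℝ) (hc0 : 0 ≤ c) (hc : c < ‖Y‖) :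
    ∃ b : B, b ≠ 0 ∧ ∀ (B' : Type v) [CStarAlgebra B'] (Φ : B →⋆ₐ[ℂ] B'), Φ b ≠ 0 →
      c < ‖Φ Y‖ := by
  let _ := CStarAlgebra.spectralOrder B
  let _ := CStarAlgebra.spectralOrderedRing B
  have hY0 : Y ≠ 0 := by
    rintro rfl
    rw [norm_zero] at hc
    exact absurd hc (not_lt.mpr hc0)
  have hnt : Nontrivial B := ⟨Y, 0, hY0⟩
  let f : ℝ → ℝ := fun t => max 0 (t - c ^ 2)
  have hf : Continuous f := by fun_prop
  have hsa : IsSelfAdjoint (star Y * Y) := IsSelfAdjoint.star_mul_self Y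
  refine ⟨cfc f (star Y * Y), ?_, ?_⟩
  · intro h
    have h1 := cfc_map_spectrum (R := ℝ) f (star Y * Y) (hf := hf.continuousOn)
    rw [h, spectrum.zero_eq] at h1
    have h2 : ‖star Y * Y‖ ∈ spectrum ℝ (star Y * Y) :=
      CStarAlgebra.norm_mem_spectrum_of_nonneg (star_mul_self_nonneg Y)
    have h3 : f ‖star Y * Y‖ ∈ f '' spectrum ℝ (star Y * Y) := ⟨_, h2, rfl⟩
    rw [← h1, Set.mem_singleton_iff] at h3
    have h4 : 0 < f ‖star Y * Y‖ := by
      simp only [f]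
      rw [CStarRing.norm_star_mul_self]
      apply lt_max_of_lt_right
      nlinarith
    linarith
  · intro B' _ Φ hΦ
    by_contra hcon
    push Not at hcon
    apply hΦ
    have hcont : Continuous Φ := map_continuous Φ
    rw [StarAlgHom.map_cfc Φ f (star Y * Y) hf.continuousOn hcont hsa (hsa.map _)]
    rw [show (0 : B') = cfc (fun _ : ℝ => (0 : ℝ)) (Φ (star Y * Y)) by rw [cfc_const_zero]]
    apply cfc_congr
    intro t ht
    simp only [f]
    apply max_eq_left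
    rw [sub_nonpos]
    have hnt' : Nontrivial B' := by
      by_contra hcon
      rw [not_nontrivial_iff_subsingleton] at hcon
      exact hΦ (Subsingleton.elim _ _)
    have h3 : ‖t‖ ≤ ‖Φ (star Y * Y)‖ := spectrum.norm_le_norm_of_mem ht
    have h4 : ‖Φ (star Y * Y)‖ = ‖Φ Y‖ ^ 2 := by
      rw [map_mul, map_star, CStarRing.norm_star_mul_self, sq]
    calc t ≤ ‖t‖ := le_abs_self t
      _ ≤ ‖Φ Y‖ ^ 2 := by rw [← h4]; exact h3
      _ ≤ c ^ 2 := by gcongr

section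

variable {A : Type u} [CStarAlgebra A] [PartialOrder A] [StarOrderedRing A]

/-- Norms of matrices are almost attained in good irreducible representations. -/
lemma exists_good_norm {E : Type w} [Fintype E] (β : E → (A ≃⋆ₐ[ℂ] A))
    (hfree : ∀ s t, s ≠ t → ∀ z : A, (∀ a, z * β s a = β t a * z) → z = 0)
    {Λ : Type*} [Fintype Λ] [DecidableEq Λ] (Y : CStarMatrix Λ Λ A) (c : ℝ) (hc0 : 0 ≤ c)
    (hc : c < ‖Y‖) :
    ∃ (H : Type u) (_ : NormedAddCommGroup H) (_ : InnerProductSpace ℂ H) (_ : CompleteSpace H)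
      (π : A →⋆ₐ[ℂ] (H →L[ℂ] H)), IsIrr π ∧ Good β π ∧ c < ‖repMat π Y‖ := by
  obtain ⟨b, hb0, hb⟩ := exists_detect Y c hc0 hc
  obtain ⟨p, q, hpq⟩ : ∃ p q, b p q ≠ 0 := by
    by_contra hcon
    push Not at hcon
    apply hb0
    ext p q
    exact hcon p q
  obtain ⟨H, i1, i2, i3, π, hirr, hgood, hπ⟩ := exists_good β hfree (b p q) hpq
  refine ⟨H, i1, i2, i3, π, hirr, hgood, ?_⟩
  apply hb _ (repMat π)
  intro h
  apply hπ
  ext v
  rw [← repMat_single, h]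
  simp

lemma exists_vectors {K : Type*} [NormedAddCommGroup K] [InnerProductSpace ℂ K] (T : K →L[ℂ] K)
    (c : ℝ) (hc0 : 0 ≤ c) (hc : c < ‖T‖) :
    ∃ ξ η : K, ‖ξ‖ ≤ 1 ∧ ‖η‖ ≤ 1 ∧ c < ‖⟪η, T ξ⟫_ℂ‖ := by
  obtain ⟨x, hx1, hx⟩ := T.exists_lt_apply_of_lt_opNorm hc
  have hTx : 0 < ‖T x‖ := lt_of_le_of_lt hc0 hx
  refine ⟨x, ((‖T x‖⁻¹ : ℝ) : ℂ) • T x, hx1.le, ?_, ?_⟩
  · rw [norm_smul, Complex.norm_real, norm_inv, norm_norm, inv_mul_cancel₀ hTx.ne']
  · rw [inner_smul_left, inner_self_eq_norm_sq_to_K, norm_mul]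
    simp only [Complex.conj_ofReal, Complex.norm_real, norm_inv, norm_norm, norm_pow]
    have : ‖((‖T x‖ : ℝ) : ℂ)‖ = ‖T x‖ := by
      rw [Complex.norm_real, norm_norm]
    calc c < ‖T x‖ := hx
      _ = ‖T x‖⁻¹ * ‖T x‖ ^ 2 := by field_simp
      _ = _ := by
        congr 2
        exact this.symm

/-- **Key proposition.** For a free finite family of automorphisms, matrices over `A` indexed by
the family are normed by rows and columns over `A` acting diagonally. -/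
theorem key {E : Type w} [Fintype E] [DecidableEq E] {N : Type*} [Fintype N] [DecidableEq N]
    (β : E → (A ≃⋆ₐ[ℂ] A))
    (hfree : ∀ s t, s ≠ t → ∀ z : A, (∀ a, z * β s a = β t a * z) → z = 0)
    (Y : CStarMatrix (N × E) (N × E) A) (c : ℝ) (hc0 : 0 ≤ c) (hc : c < ‖Y‖) :
    ∃ R C : N → A, ‖∑ i, R i * star (R i)‖ ≤ 1 ∧ ‖∑ j, star (C j) * C j‖ ≤ 1 ∧
      c < ‖(CStarMatrix.ofMatrix fun s t => ∑ i, ∑ j, β s (R i) * Y (i, s) (j, t) * β t (C j) :
        CStarMatrix E E A)‖ := by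
  obtain ⟨H, i1, i2, i3, π, hirr, hgood, hπ⟩ := exists_good_norm β hfree Y c hc0 hc
  set T := repMat π Y with hT
  obtain ⟨ξ, η, hξ1, hη1, hlt⟩ := exists_vectors T c hc0 hπ
  -- continuity
  have hopen : IsOpen {p : PiLp 2 (fun _ : N × E => H) × PiLp 2 (fun _ : N × E => H) |
      c < ‖⟪p.2, T p.1⟫_ℂ‖} := by
    apply isOpen_lt continuous_const
    fun_prop
  rw [Metric.isOpen_iff] at hopen
  obtain ⟨δ, hδ, hball⟩ := hopen (ξ, η) hlt
  set δ' : ℝ := δ / (Fintype.card E + 1) / (Fintype.card N + 1) with hδ'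
  have hδ'pos : 0 < δ' := by positivity
  let cur : PiLp 2 (fun _ : N × E => H) → E → PiLp 2 (fun _ : N => H) := fun x s =>
    WithLp.toLp 2 fun i => x (i, s)
  have hcur : ∀ x s i, cur x s i = x (i, s) := fun x s i => rfl
  have hcurnorm : ∀ x, ∑ s, ‖cur x s‖ ^ 2 = ‖x‖ ^ 2 := by
    intro x
    rw [PiLp.norm_sq_eq_of_L2]
    simp only [PiLp.norm_sq_eq_of_L2, hcur]
    rw [Fintype.sum_prod_type_right]
  obtain ⟨C, hC1, ζ, hζn, hζ⟩ := good_transitivity β π hirr hgood (cur ξ) δ' hδ'pos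
  obtain ⟨R', hR'1, ζ', hζ'n, hζ'⟩ := good_transitivity β π hirr hgood (cur η) δ' hδ'pos
  refine ⟨fun i => star (R' i), C, by simpa using hR'1, hC1, ?_⟩
  set Z : CStarMatrix E E A := CStarMatrix.ofMatrix fun s t =>
    ∑ i, ∑ j, β s (star (R' i)) * Y (i, s) (j, t) * β t (C j) with hZ
  -- the approximating vectors
  let ξ' : PiLp 2 (fun _ : N × E => H) := WithLp.toLp 2 fun p => π (β p.2 (C p.1)) (ζ p.2)
  let η' : PiLp 2 (fun _ : N × E => H) := WithLp.toLp 2 fun p => π (β p.2 (R' p.1)) (ζ' p.2)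
  have happrox : ∀ (x : PiLp 2 (fun _ : N × E => H)) (D : N → A) (z : E → H),
      (∀ s, ‖colOp (tw π (β s)) D (z s) - cur x s‖ < δ') →
      ‖(WithLp.toLp 2 fun p : N × E => π (β p.2 (D p.1)) (z p.2) :
        PiLp 2 (fun _ : N × E => H)) - x‖ < δ := by
    intro x D z hz
    refine (piLp_norm_le_sum _).trans_lt ?_
    have h1 : ∀ p : N × E, ‖((WithLp.toLp 2 fun p : N × E => π (β p.2 (D p.1)) (z p.2) :
        PiLp 2 (fun _ : N × E => H)) - x) p‖ ≤ δ' := by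
      intro p
      calc ‖((WithLp.toLp 2 fun p : N × E => π (β p.2 (D p.1)) (z p.2) :
        PiLp 2 (fun _ : N × E => H)) - x) p‖ =
          ‖(colOp (tw π (β p.2)) D (z p.2) - cur x p.2) p.1‖ := rfl
        _ ≤ ‖colOp (tw π (β p.2)) D (z p.2) - cur x p.2‖ := PiLp.norm_apply_le _ _
        _ ≤ δ' := (hz p.2).le
    calc ∑ p, ‖((WithLp.toLp 2 fun p : N × E => π (β p.2 (D p.1)) (z p.2) :
        PiLp 2 (fun _ : N × E => H)) - x) p‖ ≤ ∑ p : N × E, δ' := Finset.sum_le_sum fun p _ => h1 p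
      _ = (Fintype.card N * Fintype.card E) * δ' := by simp [Fintype.card_prod]
      _ < δ := by
        rw [hδ', div_div, mul_div_assoc', div_lt_iff₀ (by positivity)]
        nlinarith [show (0 : ℝ) ≤ Fintype.card N by positivity,
          show (0 : ℝ) ≤ Fintype.card E by positivity]
  have hξ' : ‖ξ' - ξ‖ < δ := happrox ξ C ζ hζ
  have hη' : ‖η' - η‖ < δ := happrox η R' ζ' hζ'
  have hlt' : c < ‖⟪η', T ξ'⟫_ℂ‖ := by
    have : (ξ', η') ∈ Metric.ball (ξ, η) δ := by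
      rw [Metric.mem_ball, Prod.dist_eq, dist_eq_norm, dist_eq_norm]
      exact max_lt hξ' hη'
    exact hball this
  -- the vectors for `Z`
  let zv : PiLp 2 (fun _ : E => H) := WithLp.toLp 2 ζ
  let zv' : PiLp 2 (fun _ : E => H) := WithLp.toLp 2 ζ'
  have hzn : ‖zv‖ ≤ 1 := by
    have : ‖zv‖ ^ 2 = ‖ξ‖ ^ 2 := by
      rw [PiLp.norm_sq_eq_of_L2, ← hcurnorm]
      exact Finset.sum_congr rfl fun s _ => by rw [← hζn]
    have h2 : ‖zv‖ = ‖ξ‖ := (pow_left_inj₀ (norm_nonneg _) (norm_nonneg _) two_ne_zero).mp this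
    rw [h2]
    exact hξ1
  have hzn' : ‖zv'‖ ≤ 1 := by
    have : ‖zv'‖ ^ 2 = ‖η‖ ^ 2 := by
      rw [PiLp.norm_sq_eq_of_L2, ← hcurnorm]
      exact Finset.sum_congr rfl fun s _ => by rw [← hζ'n]
    have h2 : ‖zv'‖ = ‖η‖ := (pow_left_inj₀ (norm_nonneg _) (norm_nonneg _) two_ne_zero).mp this
    rw [h2]
    exact hη1
  have hinner : ⟪zv', repMat π Z zv⟫_ℂ = ⟪η', T ξ'⟫_ℂ := by
    rw [PiLp.inner_apply, PiLp.inner_apply, Fintype.sum_prod_type_right]
    refine Finset.sum_congr rfl fun s _ => ?_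
    have e1 : (repMat π Z zv) s = ∑ i, π (β s (star (R' i))) ((T ξ') (i, s)) := by
      rw [repMat_apply]
      simp only [hT, repMat_apply, map_sum, Fintype.sum_prod_type_right]
      simp only [hZ, CStarMatrix.ofMatrix_apply, map_sum, map_mul, sum_apply, mul_apply_eq_comp]
      rw [Finset.sum_comm]
    rw [e1, inner_sum]
    refine Finset.sum_congr rfl fun i _ => ?_
    have e2 : β s (star (R' i)) = star (β s (R' i)) := map_star _ _
    rw [e2, ← rep_adj]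
  have hfin : ‖⟪zv', repMat π Z zv⟫_ℂ‖ ≤ ‖Z‖ := by
    calc ‖⟪zv', repMat π Z zv⟫_ℂ‖ ≤ ‖zv'‖ * ‖repMat π Z zv‖ := norm_inner_le_norm _ _
      _ ≤ 1 * (‖repMat π Z‖ * ‖zv‖) := by
        gcongr
        exact (repMat π Z).le_opNorm zv
      _ ≤ 1 * (‖Z‖ * 1) := by
        gcongr
        exact norm_repMat_le π Z
      _ = ‖Z‖ := by ring
  rw [hinner] at hfin
  exact lt_of_lt_of_le hlt' hfin

end

end Pool.Agent.MP_dbaee1_an
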