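import Mathlib

/-!
# Norms of rows and columns over a C*-algebra
-/

open scoped ComplexOrder InnerProductSpace CStarAlgebra

namespace Pool.Agent.MP_dbaee1_an

section

variable {A : Type*} [CStarAlgebra A] [PartialOrder A] [StarOrderedRing A]
variable {m n : Type*} [Fintype m] [Fintype n]

open CStarMatrix WithCStarModule

lemma toCLM_mul {l : Type*} [Fintype l] (M : CStarMatrix l m A) (N : CStarMatrix m n A)
    (v : C⋆ᵐᵒᵈ(A, l → A)) : toCLM (M * N) v = toCLM N (toCLM M v) := by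
  rw [toCLM_apply_eq_sum, toCLM_apply_eq_sum]
  congr 1
  funext j
  have h : ∀ i, (toCLM M v) i = ∑ k, v k * M k i := by
    intro i
    rw [toCLM_apply_eq_sum]
    rfl
  simp only [h, CStarMatrix.mul_apply, Finset.mul_sum, Finset.sum_mul, mul_assoc]
  rw [Finset.sum_comm]

lemma norm_mul_le_rect {l : Type*} [Fintype l] (M : CStarMatrix l m A) (N : CStarMatrix m n A) :
    ‖M * N‖ ≤ ‖M‖ * ‖N‖ := by
  rw [CStarMatrix.norm_def]
  refine ContinuousLinearMap.opNorm_le_bound _ (by positivity) fun v => ?_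
  rw [toCLM_mul]
  calc ‖toCLM N (toCLM M v)‖ ≤ ‖toCLM N‖ * ‖toCLM M v‖ := (toCLM N).le_opNorm _
    _ ≤ ‖toCLM N‖ * (‖toCLM M‖ * ‖v‖) := by gcongr; exact (toCLM M).le_opNorm _
    _ = ‖M‖ * ‖N‖ * ‖v‖ := by rw [CStarMatrix.norm_def, CStarMatrix.norm_def]; ring

lemma norm_fin_one_sq (v : C⋆ᵐᵒᵈ(A, Fin 1 → A)) : ‖v‖ ^ 2 = ‖v 0‖ ^ 2 := by
  rw [WithCStarModule.pi_norm_sq]
  simp only [Finset.univ_unique, Fin.default_eq_zero, Fin.isValue, Finset.sum_singleton,
    WithCStarModule.inner_def]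
  rw [CStarRing.norm_self_mul_star, sq]

lemma norm_row_sq (R : CStarMatrix (Fin 1) n A) : ‖R‖ ^ 2 = ‖∑ i, R 0 i * star (R 0 i)‖ := by
  set p := ∑ i, R 0 i * star (R 0 i) with hp
  have hv : ∀ v : C⋆ᵐᵒᵈ(A, Fin 1 → A), ‖toCLM R v‖ ^ 2 = ‖v 0 * p * star (v 0)‖ := by
    intro v
    rw [WithCStarModule.pi_norm_sq, hp, Finset.mul_sum, Finset.sum_mul]
    congr 1
    refine Finset.sum_congr rfl fun i _ => ?_
    have h : (toCLM R v) i = v 0 * R 0 i := by
      rw [toCLM_apply_eq_sum]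
      simp
    rw [h, WithCStarModule.inner_def, star_mul]
    simp only [mul_assoc]
  apply le_antisymm
  · have h1 : ‖R‖ ≤ Real.sqrt ‖p‖ := by
      rw [CStarMatrix.norm_def]
      refine ContinuousLinearMap.opNorm_le_bound _ (by positivity) fun v => ?_
      have h2 : ‖toCLM R v‖ ^ 2 ≤ (Real.sqrt ‖p‖ * ‖v‖) ^ 2 := by
        rw [hv, mul_pow, Real.sq_sqrt (norm_nonneg _), norm_fin_one_sq]
        calc ‖v 0 * p * star (v 0)‖ ≤ ‖v 0‖ * ‖p‖ * ‖star (v 0)‖ := by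
              refine (norm_mul_le _ _).trans ?_
              gcongr
              exact norm_mul_le _ _
          _ = ‖p‖ * ‖v 0‖ ^ 2 := by rw [norm_star]; ring
      exact (pow_le_pow_iff_left₀ (norm_nonneg _) (by positivity) two_ne_zero).mp h2
    calc ‖R‖ ^ 2 ≤ (Real.sqrt ‖p‖) ^ 2 := by gcongr
      _ = ‖p‖ := Real.sq_sqrt (norm_nonneg _)
  · let e : C⋆ᵐᵒᵈ(A, Fin 1 → A) := (WithCStarModule.equiv _ _).symm (fun _ => (1 : A))
    have he0 : e 0 = 1 := rfl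
    have he : ‖e‖ ≤ 1 := by
      have h1 : ‖e‖ ^ 2 ≤ 1 ^ 2 := by
        rw [norm_fin_one_sq, he0]
        gcongr
        rcases subsingleton_or_nontrivial A with h | h
        · rw [Subsingleton.elim (1 : A) 0, norm_zero]
          exact zero_le_one
        · exact CStarRing.norm_one.le
      exact (pow_le_pow_iff_left₀ (norm_nonneg _) (by positivity) two_ne_zero).mp h1
    have h2 := hv e
    rw [he0, star_one, one_mul, mul_one] at h2
    rw [← h2]
    have h3 : ‖toCLM R e‖ ≤ ‖R‖ := by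
      calc ‖toCLM R e‖ ≤ ‖toCLM R‖ * ‖e‖ := (toCLM R).le_opNorm e
        _ ≤ ‖toCLM R‖ * 1 := by gcongr
        _ = ‖R‖ := by rw [mul_one, CStarMatrix.norm_def]
    gcongr

lemma norm_col_sq (S : CStarMatrix n (Fin 1) A) : ‖S‖ ^ 2 = ‖∑ i, star (S i 0) * S i 0‖ := by
  set p := ∑ i, star (S i 0) * S i 0 with hp
  let w : C⋆ᵐᵒᵈ(A, n → A) := (WithCStarModule.equiv _ _).symm (fun i => star (S i 0))
  have hw : ∀ i, w i = star (S i 0) := fun i => rfl
  have hww : ‖w‖ ^ 2 = ‖p‖ := by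
    rw [WithCStarModule.pi_norm_sq, hp]
    congr 1
    refine Finset.sum_congr rfl fun i _ => ?_
    rw [WithCStarModule.inner_def, hw, star_star]
  have hv : ∀ v : C⋆ᵐᵒᵈ(A, n → A), (toCLM S v) 0 = inner A w v := by
    intro v
    rw [WithCStarModule.pi_inner, toCLM_apply_eq_sum]
    change ∑ i, v i * S i 0 = _
    refine Finset.sum_congr rfl fun i _ => ?_
    rw [WithCStarModule.inner_def, hw, star_star]
  have hv' : ∀ v : C⋆ᵐᵒᵈ(A, n → A), ‖toCLM S v‖ = ‖inner A w v‖ := by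
    intro v
    have := norm_fin_one_sq (toCLM S v)
    rw [hv] at this
    exact (pow_left_inj₀ (norm_nonneg _) (norm_nonneg _) two_ne_zero).mp this
  apply le_antisymm
  · have h1 : ‖S‖ ≤ ‖w‖ := by
      rw [CStarMatrix.norm_def]
      refine ContinuousLinearMap.opNorm_le_bound _ (by positivity) fun v => ?_
      rw [hv']
      exact CStarModule.norm_inner_le (C⋆ᵐᵒᵈ(A, n → A))
    calc ‖S‖ ^ 2 ≤ ‖w‖ ^ 2 := by gcongr
      _ = ‖p‖ := hww
  · rw [← hww]
    have h1 : ‖toCLM S w‖ = ‖w‖ ^ 2 := by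
      rw [hv', CStarModule.norm_sq_eq A]
    have h2 : ‖w‖ ^ 2 ≤ ‖S‖ * ‖w‖ := by
      rw [← h1]
      exact (toCLM S).le_opNorm w
    have h3 : ‖w‖ ≤ ‖S‖ := by
      rcases (norm_nonneg w).eq_or_lt with h | h
      · rw [← h]
        exact norm_nonneg S
      · have : ‖w‖ * ‖w‖ ≤ ‖S‖ * ‖w‖ := by rw [← sq]; exact h2
        exact le_of_mul_le_mul_right this h
    gcongr

lemma norm_one_one (M : CStarMatrix (Fin 1) (Fin 1) A) : ‖M‖ = ‖M 0 0‖ := by
  have h := norm_row_sq M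
  simp only [Finset.univ_unique, Fin.default_eq_zero, Fin.isValue, Finset.sum_singleton] at h
  rw [CStarRing.norm_self_mul_star, ← sq] at h
  exact (pow_left_inj₀ (norm_nonneg _) (norm_nonneg _) two_ne_zero).mp h

lemma norm_map_row_le {B : Type*} [CStarAlgebra B] [PartialOrder B] [StarOrderedRing B]
    (φ : A →⋆ₐ[ℂ] B) (R : CStarMatrix (Fin 1) n A) : ‖R.map φ‖ ≤ ‖R‖ := by
  have h : ‖R.map φ‖ ^ 2 ≤ ‖R‖ ^ 2 := by
    rw [norm_row_sq, norm_row_sq]
    have : ∑ i, (R.map φ) 0 i * star ((R.map φ) 0 i) = φ (∑ i, R 0 i * star (R 0 i)) := by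
      simp [map_sum, map_star]
    rw [this]
    exact NonUnitalStarAlgHom.norm_apply_le φ _
  exact (pow_le_pow_iff_left₀ (norm_nonneg _) (norm_nonneg _) two_ne_zero).mp h

lemma norm_map_col_le {B : Type*} [CStarAlgebra B] [PartialOrder B] [StarOrderedRing B]
    (φ : A →⋆ₐ[ℂ] B) (S : CStarMatrix n (Fin 1) A) : ‖S.map φ‖ ≤ ‖S‖ := by
  have h : ‖S.map φ‖ ^ 2 ≤ ‖S‖ ^ 2 := by
    rw [norm_col_sq, norm_col_sq]
    have : ∑ i, star ((S.map φ) i 0) * (S.map φ) i 0 = φ (∑ i, star (S i 0) * S i 0) := by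
      simp [map_sum, map_star]
    rw [this]
    exact NonUnitalStarAlgHom.norm_apply_le φ _
  exact (pow_le_pow_iff_left₀ (norm_nonneg _) (norm_nonneg _) two_ne_zero).mp h

end

end Pool.Agent.MP_dbaee1_an
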