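import Mathlib
import Pool.Agent.Lib.MP_dbaee1_an.Crossed
import Pool.Agent.Lib.MP_dbaee1_an.Key
import Pool.Agent.Lib.MP_dbaee1_an.Rect

/-!
# Free actions give norming inclusions in the reduced crossed product
-/

open scoped ComplexOrder InnerProductSpace ENNReal CStarAlgebra

namespace Pool.Agent.MP_dbaee1_an

universe u v w x

section

variable {A : Type u} [CStarAlgebra A] {G : Type v} [Group G] {H : Type w}
  [NormedAddCommGroup H] [InnerProductSpace ℂ H] [CompleteSpace H]
  {α : G →* (A ≃⋆ₐ[ℂ] A)} {σ : A →⋆ₐ[ℂ] (H →L[ℂ] H)}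

lemma inner_sgl (s : G) (v : H) (ξ : L2 G H) : ⟪sgl s v, ξ⟫_ℂ = ⟪v, ξ s⟫_ℂ := by
  classical
  rw [sgl, lp.singleContinuousLinearMap_apply]
  exact lp.inner_single_left (𝕜 := ℂ) s v ξ

/-- The vector of `ℓ²(G, H)` with given coordinates on a finite set. -/
noncomputable def emb (F : Finset G) (ζ : F → H) : L2 G H := ∑ s : F, sgl (s : G) (ζ s)

lemma emb_apply (F : Finset G) (ζ : F → H) (s : F) : (emb F ζ : L2 G H) s = ζ s := by
  classical
  rw [emb, ← evl_apply, map_sum, Finset.sum_eq_single s]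
  · rw [evl_apply, sgl_apply, if_pos rfl]
  · intro t _ ht
    rw [evl_apply, sgl_apply, if_neg]
    exact fun h => ht (Subtype.ext h.symm)
  · simp

lemma inner_emb (F : Finset G) (ζ : F → H) (ξ : L2 G H) :
    ⟪emb F ζ, ξ⟫_ℂ = ∑ s : F, ⟪ζ s, ξ s⟫_ℂ := by
  rw [emb, sum_inner]
  exact Finset.sum_congr rfl fun s _ => inner_sgl _ _ _

lemma norm_emb_sq (F : Finset G) (ζ : F → H) : ‖emb F ζ‖ ^ 2 = ∑ s : F, ‖ζ s‖ ^ 2 := by
  have h := inner_emb F ζ (emb F ζ)
  simp only [emb_apply] at h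
  have h2 : ((‖emb F ζ‖ ^ 2 : ℝ) : ℂ) = ((∑ s : F, ‖ζ s‖ ^ 2 : ℝ) : ℂ) := by
    rw [inner_self_eq_norm_sq_to_K] at h
    simp only [inner_self_eq_norm_sq_to_K] at h
    push_cast
    exact h
  exact_mod_cast h2

lemma tendsto_emb (ξ : L2 G H) :
    Filter.Tendsto (fun F : Finset G => emb F (fun s : F => ξ s)) Filter.atTop (nhds ξ) := by
  classical
  have := lp.hasSum_single (E := fun _ : G => H) (p := 2) (by norm_num) ξ
  refine Filter.Tendsto.congr (fun F => ?_) this
  rw [emb, Finset.sum_coe_sort F (fun s => sgl s (ξ s))]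
  rfl

/-- Compression to a finite subset of `G`. -/
noncomputable def compr (hσ : Function.Injective σ) (F : Finset G) (W : RedCrossed α σ) :
    CStarMatrix F F A := CStarMatrix.ofMatrix fun s t => entA hσ W s t

lemma incl_injective : Function.Injective (RedCrossed.incl α σ) := Subtype.val_injective

lemma norm_incl (W : RedCrossed α σ) : ‖RedCrossed.incl α σ W‖ = ‖W‖ := rfl

variable [PartialOrder A] [StarOrderedRing A]

lemma norm_compr_le (hσ : Function.Injective σ) (F : Finset G) (W : RedCrossed α σ) :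
    ‖compr hσ F W‖ ≤ ‖W‖ := by
  classical
  rw [← norm_repMat σ hσ]
  by_contra hcon
  push Not at hcon
  obtain ⟨ξ, η, hξ, hη, hlt⟩ := exists_vectors _ _ (norm_nonneg W) hcon
  have key : ⟪η, repMat σ (compr hσ F W) ξ⟫_ℂ =
      ⟪emb F (fun s => η s), RedCrossed.incl α σ W (emb F (fun s => ξ s))⟫_ℂ := by
    rw [inner_emb, PiLp.inner_apply]
    refine Finset.sum_congr rfl fun s _ => ?_
    congr 1
    rw [repMat_apply, ← evl_apply, emb, map_sum, map_sum]
    refine Finset.sum_congr rfl fun t _ => ?_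
    rw [evl_apply, ← entA_spec' hσ]
    rfl
  have hn : ∀ x : PiLp 2 (fun _ : F => H), ‖x‖ ≤ 1 → ‖emb F (fun s => x s)‖ ≤ 1 := by
    intro x hx
    have h1 : ‖emb F (fun s => x s)‖ ^ 2 = ‖x‖ ^ 2 := by
      rw [norm_emb_sq, PiLp.norm_sq_eq_of_L2]
    have h2 := (pow_left_inj₀ (norm_nonneg _) (norm_nonneg _) two_ne_zero).mp h1
    rw [h2]
    exact hx
  rw [key] at hlt
  have h1 : ‖⟪emb F (fun s => η s), RedCrossed.incl α σ W (emb F (fun s => ξ s))⟫_ℂ‖ ≤ ‖W‖ := by
    calc _ ≤ ‖emb F (fun s => η s)‖ * ‖RedCrossed.incl α σ W (emb F (fun s => ξ s))‖ :=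
          norm_inner_le_norm _ _
      _ ≤ 1 * (‖RedCrossed.incl α σ W‖ * ‖emb F (fun s => ξ s)‖) := by
        gcongr
        · exact hn η hη
        · exact (RedCrossed.incl α σ W).le_opNorm _
      _ ≤ 1 * (‖W‖ * 1) := by
        rw [norm_incl]
        gcongr
        exact hn ξ hξ
      _ = ‖W‖ := by ring
  linarith

/-- The norm of a matrix over the crossed product is the supremum of the norms of the
compressions. -/
lemma exists_compr_norm (hσ : Function.Injective σ) {N : Type*} [Fintype N] [DecidableEq N]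
    (X : CStarMatrix N N (RedCrossed α σ)) (c : ℝ) (hc0 : 0 ≤ c) (hc : c < ‖X‖) :
    ∃ F : Finset G, c < ‖(CStarMatrix.ofMatrix fun p q : N × F =>
      entA hσ (X p.1 q.1) (p.2 : G) (q.2 : G) : CStarMatrix (N × F) (N × F) A)‖ := by
  classical
  set T := repMat (RedCrossed.incl α σ) X with hT
  have hTn : ‖T‖ = ‖X‖ := norm_repMat (RedCrossed.incl α σ) incl_injective X
  obtain ⟨ξ, η, hξ, hη, hlt⟩ := exists_vectors T c hc0 (by rw [hTn]; exact hc)
  let tr : Finset G → PiLp 2 (fun _ : N => L2 G H) → PiLp 2 (fun _ : N => L2 G H) :=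
    fun F x => WithLp.toLp 2 fun i => emb F (fun s : F => x i s)
  have htr : ∀ x, Filter.Tendsto (fun F => tr F x) Filter.atTop (nhds x) := by
    intro x
    have h1 : Filter.Tendsto (fun F : Finset G => fun i => emb F (fun s : F => x i s))
        Filter.atTop (nhds (fun i => x i)) := by
      rw [tendsto_pi_nhds]
      intro i
      exact tendsto_emb (x i)
    have h2 := ((PiLp.continuous_toLp 2 (fun _ : N => L2 G H)).tendsto (fun i => x i)).comp h1
    exact h2
  have hlim : Filter.Tendsto (fun F => ‖⟪tr F η, T (tr F ξ)⟫_ℂ‖) Filter.atTop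
      (nhds ‖⟪η, T ξ⟫_ℂ‖) :=
    ((htr η).inner ((T.continuous.tendsto ξ).comp (htr ξ))).norm
  obtain ⟨F, hF⟩ := (hlim.eventually (lt_mem_nhds hlt)).exists
  refine ⟨F, ?_⟩
  set Y : CStarMatrix (N × F) (N × F) A := CStarMatrix.ofMatrix fun p q : N × F =>
      entA hσ (X p.1 q.1) (p.2 : G) (q.2 : G) with hY
  let cv : PiLp 2 (fun _ : N => L2 G H) → PiLp 2 (fun _ : N × F => H) := fun x =>
    WithLp.toLp 2 fun p => x p.1 (p.2 : G)
  have hcv : ∀ x p, cv x p = x p.1 (p.2 : G) := fun x p => rfl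
  have hcvn : ∀ x, ‖x‖ ≤ 1 → ‖cv x‖ ≤ 1 := by
    intro x hx
    have h1 : ‖cv x‖ ^ 2 ≤ ‖x‖ ^ 2 := by
      rw [PiLp.norm_sq_eq_of_L2, PiLp.norm_sq_eq_of_L2, Fintype.sum_prod_type]
      refine Finset.sum_le_sum fun i _ => ?_
      have hp : 0 < (2 : ℝ≥0∞).toReal := by norm_num
      have := lp.sum_rpow_le_norm_rpow hp (x i) F
      simp only [ENNReal.toReal_ofNat, Real.rpow_ofNat] at this
      rw [← Finset.sum_coe_sort F (fun s => ‖x i s‖ ^ 2)] at this
      exact this
    have h2 := (pow_le_pow_iff_left₀ (norm_nonneg _) (norm_nonneg _) two_ne_zero).mp h1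
    exact h2.trans hx
  have key : ⟪tr F η, T (tr F ξ)⟫_ℂ = ⟪cv η, repMat σ Y (cv ξ)⟫_ℂ := by
    rw [PiLp.inner_apply, PiLp.inner_apply, Fintype.sum_prod_type]
    refine Finset.sum_congr rfl fun i _ => ?_
    have e1 : (tr F η) i = emb F (fun s : F => η i s) := rfl
    rw [e1, inner_emb]
    refine Finset.sum_congr rfl fun s _ => ?_
    rw [hcv]
    congr 1
    rw [hT, repMat_apply, repMat_apply, ← evl_apply, map_sum, Fintype.sum_prod_type]
    refine Finset.sum_congr rfl fun j _ => ?_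
    have e2 : (tr F ξ) j = emb F (fun s : F => ξ j s) := rfl
    rw [e2, emb, map_sum, map_sum]
    refine Finset.sum_congr rfl fun t _ => ?_
    rw [evl_apply, ← entA_spec' hσ]
    rfl
  rw [key] at hF
  calc c < ‖⟪cv η, repMat σ Y (cv ξ)⟫_ℂ‖ := hF
    _ ≤ ‖cv η‖ * ‖repMat σ Y (cv ξ)‖ := norm_inner_le_norm _ _
    _ ≤ 1 * (‖repMat σ Y‖ * ‖cv ξ‖) := by
      gcongr
      · exact hcvn η hη
      · exact (repMat σ Y).le_opNorm _
    _ ≤ 1 * (‖Y‖ * 1) := by
      gcongr
      · exact norm_repMat_le σ Y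
      · exact hcvn ξ hξ
    _ = ‖Y‖ := by ring

/-- The action is free in the sense of Kallman: no nonzero element intertwines the identity and a
nontrivial group element. -/
def FreelyActing (α : G →* (A ≃⋆ₐ[ℂ] A)) : Prop :=
  ∀ g : G, g ≠ 1 → ∀ z : A, (∀ a, z * a = α g a * z) → z = 0

/-- **Norming theorem.** -/
theorem norms_of_free (hσ : Function.Injective σ) (hfree : FreelyActing α) :
    Norms (RedCrossed.ι α σ) := by
  classical
  intro k X
  constructor
  · rintro r ⟨R, S, hR, hS, rfl⟩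
    calc ‖R.map (RedCrossed.ι α σ) * X * S.map (RedCrossed.ι α σ)‖
        ≤ ‖R.map (RedCrossed.ι α σ) * X‖ * ‖S.map (RedCrossed.ι α σ)‖ := norm_mul_le_rect _ _
      _ ≤ (‖R.map (RedCrossed.ι α σ)‖ * ‖X‖) * ‖S.map (RedCrossed.ι α σ)‖ := by
        gcongr
        exact norm_mul_le_rect _ _
      _ ≤ (1 * ‖X‖) * 1 := by
        gcongr
        · exact (norm_map_row_le _ R).trans hR
        · exact (norm_map_col_le _ S).trans hS
      _ = ‖X‖ := by ring
  · intro B hB
    by_contra hcon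
    push Not at hcon
    have hB0 : 0 ≤ B := by
      apply hB
      refine ⟨0, 0, by simp, by simp, ?_⟩
      have h0 : (0 : CStarMatrix (Fin 1) (Fin k) A).map (RedCrossed.ι α σ) = 0 := by
        ext i j
        exact map_zero (RedCrossed.ι α σ)
      rw [h0, CStarMatrix.zero_mul, CStarMatrix.zero_mul, norm_zero]
    obtain ⟨F, hF⟩ := exists_compr_norm hσ X B hB0 hcon
    let β : F → (A ≃⋆ₐ[ℂ] A) := fun s => α (s : G)⁻¹
    have hβ : ∀ s t : F, s ≠ t → ∀ z : A, (∀ a, z * β s a = β t a * z) → z = 0 := by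
      intro s t hst z hz
      apply hfree ((t : G)⁻¹ * s)
      · intro h
        apply hst
        apply Subtype.ext
        rw [inv_mul_eq_one] at h
        exact h.symm
      · intro a
        have h1 := hz (α (s : G) a)
        have e1 : β s (α (s : G) a) = a := by
          have : (α (s : G)⁻¹ * α (s : G)) a = a := by
            rw [← map_mul, inv_mul_cancel, map_one]
            rfl
          exact this
        have e2 : β t (α (s : G) a) = α ((t : G)⁻¹ * s) a := by
          rw [map_mul]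
          rfl
        rw [e1, e2] at h1
        exact h1
    obtain ⟨R, C, hR, hC, hlt⟩ := key β hβ _ B hB0 hF
    have hW : ∀ s t : F, entA hσ (∑ i, ∑ j, RedCrossed.ι α σ (R i) * X i j *
        RedCrossed.ι α σ (C j)) (s : G) (t : G) =
        ∑ i, ∑ j, β s (R i) * entA hσ (X i j) (s : G) (t : G) * β t (C j) := by
      intro s t
      rw [entA_sum]
      refine Finset.sum_congr rfl fun i _ => ?_
      rw [entA_sum]
      refine Finset.sum_congr rfl fun j _ => ?_
      rw [entA_mul_ι, entA_ι_mul]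
    have hle := norm_compr_le hσ F (∑ i, ∑ j, RedCrossed.ι α σ (R i) * X i j *
        RedCrossed.ι α σ (C j))
    have hlt2 : B < ‖∑ i, ∑ j, RedCrossed.ι α σ (R i) * X i j * RedCrossed.ι α σ (C j)‖ := by
      refine lt_of_lt_of_le (lt_of_lt_of_eq hlt ?_) hle
      congr 1
      ext s t
      rw [compr, CStarMatrix.ofMatrix_apply, CStarMatrix.ofMatrix_apply, hW]
      rfl
    have hmem := hB ⟨(CStarMatrix.ofMatrix fun _ i => R i : CStarMatrix (Fin 1) (Fin k) A),
      (CStarMatrix.ofMatrix fun j _ => C j : CStarMatrix (Fin k) (Fin 1) A), ?_, ?_, rfl⟩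
    · rw [norm_one_one] at hmem
      have e3 : ((CStarMatrix.ofMatrix fun _ i => R i : CStarMatrix (Fin 1) (Fin k) A).map
          (RedCrossed.ι α σ) * X * (CStarMatrix.ofMatrix fun j _ => C j :
            CStarMatrix (Fin k) (Fin 1) A).map (RedCrossed.ι α σ)) 0 0 =
          ∑ i, ∑ j, RedCrossed.ι α σ (R i) * X i j * RedCrossed.ι α σ (C j) := by
        rw [CStarMatrix.mul_apply, Finset.sum_comm]
        refine Finset.sum_congr rfl fun j _ => ?_
        rw [CStarMatrix.mul_apply, Finset.sum_mul]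
        rfl
      rw [e3] at hmem
      exact absurd hlt2 (not_lt.mpr hmem)
    · have h1 := norm_row_sq (CStarMatrix.ofMatrix fun _ i => R i : CStarMatrix (Fin 1) (Fin k) A)
      have h2 : ‖(CStarMatrix.ofMatrix fun _ i => R i : CStarMatrix (Fin 1) (Fin k) A)‖ ^ 2
          ≤ 1 ^ 2 := by
        rw [h1, one_pow]
        exact hR
      exact (pow_le_pow_iff_left₀ (norm_nonneg _) zero_le_one two_ne_zero).mp h2
    · have h1 := norm_col_sq (CStarMatrix.ofMatrix fun j _ => C j : CStarMatrix (Fin k) (Fin 1) A)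
      have h2 : ‖(CStarMatrix.ofMatrix fun j _ => C j : CStarMatrix (Fin k) (Fin 1) A)‖ ^ 2
          ≤ 1 ^ 2 := by
        rw [h1, one_pow]
        exact hC
      exact (pow_le_pow_iff_left₀ (norm_nonneg _) zero_le_one two_ne_zero).mp h2

end

end Pool.Agent.MP_dbaee1_an
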