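import Mathlib
import Pool.Agent.Lib.MP_dbaee1_an.Norming

/-!
# Uniqueness of the pseudo-expectation implies that the action is free
-/

open scoped ComplexOrder InnerProductSpace ENNReal CStarAlgebra

namespace Pool.Agent.MP_dbaee1_an

universe u v w x

lemma nonneg_of_map_nonneg {B B' : Type*} [CStarAlgebra B] [PartialOrder B] [StarOrderedRing B]
    [CStarAlgebra B'] [PartialOrder B'] [StarOrderedRing B'] (φ : B →⋆ₐ[ℂ] B')
    (hφ : Function.Injective φ) (b : B) (h : 0 ≤ φ b) : 0 ≤ b := by
  have hsa : IsSelfAdjoint b := by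
    apply hφ
    rw [map_star]
    exact (IsSelfAdjoint.of_nonneg h).star_eq
  rw [StarOrderedRing.nonneg_iff_spectrum_nonneg (R := ℝ) b]
  rw [StarOrderedRing.nonneg_iff_spectrum_nonneg (R := ℝ) (φ b)] at h
  rwa [hsa.map_spectrum_real φ hφ] at h

/-- Complete positivity of a linear map. -/
def IsCP {B B' : Type*} [CStarAlgebra B] [PartialOrder B] [StarOrderedRing B]
    [CStarAlgebra B'] [PartialOrder B'] [StarOrderedRing B'] (φ : B →ₗ[ℂ] B') : Prop :=
  ∀ (k : ℕ) (M : CStarMatrix (Fin k) (Fin k) B), 0 ≤ M → 0 ≤ M.map φ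

section cp

variable {B B' B'' : Type*} [CStarAlgebra B] [PartialOrder B] [StarOrderedRing B]
    [CStarAlgebra B'] [PartialOrder B'] [StarOrderedRing B']
    [CStarAlgebra B''] [PartialOrder B''] [StarOrderedRing B'']

lemma IsCP.comp {ψ : B' →ₗ[ℂ] B''} {φ : B →ₗ[ℂ] B'} (hψ : IsCP ψ) (hφ : IsCP φ) :
    IsCP (ψ ∘ₗ φ) := fun k M hM => hψ k _ (hφ k M hM)

lemma IsCP.add {ψ φ : B →ₗ[ℂ] B'} (hψ : IsCP ψ) (hφ : IsCP φ) : IsCP (ψ + φ) := by
  intro k M hM
  have h : M.map (ψ + φ) = M.map ψ + M.map φ := by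
    ext i j
    rfl
  rw [h]
  exact add_nonneg (hψ k M hM) (hφ k M hM)

lemma isCP_starAlgHom (φ : B →⋆ₐ[ℂ] B') : IsCP (φ : B →ₗ[ℂ] B') := by
  intro k M hM
  exact CompletelyPositiveMapClass.map_cstarMatrix_nonneg' φ k M hM

/-- Conjugation `x ↦ s* x s`. -/
noncomputable def conjMap (s : B) : B →ₗ[ℂ] B where
  toFun x := star s * x * s
  map_add' x y := by rw [mul_add, add_mul]
  map_smul' c x := by simp

lemma conjMap_apply (s x : B) : conjMap s x = star s * x * s := rfl

lemma isCP_conjMap (s : B) : IsCP (conjMap s) := by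
  intro k M hM
  let S : CStarMatrix (Fin k) (Fin k) B := CStarMatrix.ofMatrix fun i j => if i = j then s else 0
  have h : M.map (conjMap s) = star S * M * S := by
    ext i j
    rw [CStarMatrix.map_apply, CStarMatrix.mul_apply, Finset.sum_eq_single j]
    · rw [CStarMatrix.mul_apply, Finset.sum_eq_single i]
      · simp [S, conjMap_apply, CStarMatrix.star_apply]
      · intro l _ hl
        simp [S, CStarMatrix.star_apply, hl]
      · simp
    · intro l _ hl
      simp [S, hl]
    · simp
  rw [h]
  exact star_left_conjugate_nonneg hM S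

end cp

section

variable {A : Type u} [CStarAlgebra A] {G : Type v} [Group G] {H : Type w}
  [NormedAddCommGroup H] [InnerProductSpace ℂ H] [CompleteSpace H]
  {α : G →* (A ≃⋆ₐ[ℂ] A)} {σ : A →⋆ₐ[ℂ] (H →L[ℂ] H)}

/-- The canonical conditional expectation. -/
noncomputable def condE (hσ : Function.Injective σ) : RedCrossed α σ →ₗ[ℂ] A where
  toFun x := entA hσ x 1 1
  map_add' x y := entA_add hσ x y 1 1
  map_smul' c x := entA_smul hσ c x 1 1

lemma condE_apply (hσ : Function.Injective σ) (x : RedCrossed α σ) :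
    condE hσ x = entA hσ x 1 1 := rfl

lemma condE_ι_mul (hσ : Function.Injective σ) (a : A) (x : RedCrossed α σ) :
    condE hσ (RedCrossed.ι α σ a * x) = a * condE hσ x := by
  rw [condE_apply, entA_ι_mul, inv_one, map_one]
  rfl

lemma condE_mul_ι (hσ : Function.Injective σ) (a : A) (x : RedCrossed α σ) :
    condE hσ (x * RedCrossed.ι α σ a) = condE hσ x * a := by
  rw [condE_apply, entA_mul_ι, inv_one, map_one]
  rfl

lemma condE_one (hσ : Function.Injective σ) : condE hσ (1 : RedCrossed α σ) = 1 := by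
  apply hσ
  ext v
  rw [condE_apply, entA_spec', map_one, map_one]
  rw [one_apply_eq_self, one_apply_eq_self, sgl_apply, if_pos rfl]

lemma condE_ι (hσ : Function.Injective σ) (a : A) : condE hσ (RedCrossed.ι α σ a) = a := by
  have := condE_mul_ι hσ a (1 : RedCrossed α σ)
  rw [one_mul, condE_one, one_mul] at this
  exact this

lemma inner_sgl_right (s : G) (v : H) (ξ : L2 G H) : ⟪ξ, sgl s v⟫_ℂ = ⟪ξ s, v⟫_ℂ := by
  rw [← inner_conj_symm, inner_sgl, inner_conj_symm]

lemma condE_star (hσ : Function.Injective σ) (x : RedCrossed α σ) :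
    condE hσ (star x) = star (condE hσ x) := by
  apply hσ
  have h : σ (star (condE hσ x)) = star (σ (condE hσ x)) := map_star σ _
  rw [h, ContinuousLinearMap.star_eq_adjoint, ContinuousLinearMap.eq_adjoint_iff]
  intro v w
  have h2 : RedCrossed.incl α σ (star x) = star (RedCrossed.incl α σ x) := map_star _ _
  rw [condE_apply, condE_apply, entA_spec', entA_spec', ← inner_sgl_right, ← inner_sgl, h2,
    ContinuousLinearMap.star_eq_adjoint, ContinuousLinearMap.adjoint_inner_left]

variable [PartialOrder A] [StarOrderedRing A]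

lemma isCP_condE (hσ : Function.Injective σ) : IsCP (condE (α := α) hσ) := by
  intro k M hM
  apply nonneg_of_map_nonneg (repMat σ) (repMat_injective σ hσ)
  rw [ContinuousLinearMap.nonneg_iff_isPositive, ContinuousLinearMap.isPositive_iff_complex]
  intro x
  let y : PiLp 2 (fun _ : Fin k => L2 G H) := WithLp.toLp 2 fun i => sgl 1 (x i)
  have key : ⟪repMat σ (M.map (condE (α := α) hσ)) x, x⟫_ℂ =
      ⟪repMat (RedCrossed.incl α σ) M y, y⟫_ℂ := by
    rw [PiLp.inner_apply, PiLp.inner_apply]
    refine Finset.sum_congr rfl fun i _ => ?_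
    have e1 : y i = sgl 1 (x i) := rfl
    rw [e1, inner_sgl_right]
    congr 1
    rw [repMat_apply, repMat_apply, ← evl_apply, map_sum]
    refine Finset.sum_congr rfl fun j _ => ?_
    have e2 : y j = sgl 1 (x j) := rfl
    rw [CStarMatrix.map_apply, condE_apply, entA_spec', e2, evl_apply]
  have hpos : 0 ≤ repMat (RedCrossed.incl α σ) M := map_nonneg _ hM
  rw [ContinuousLinearMap.nonneg_iff_isPositive, ContinuousLinearMap.isPositive_iff_complex]
    at hpos
  rw [key]
  exact hpos y

end

section unique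

variable {A : Type u} [CStarAlgebra A] [PartialOrder A] [StarOrderedRing A]
  {G : Type v} [Group G] {H : Type w}
  [NormedAddCommGroup H] [InnerProductSpace ℂ H] [CompleteSpace H]
  {α : G →* (A ≃⋆ₐ[ℂ] A)} {σ : A →⋆ₐ[ℂ] (H →L[ℂ] H)}
  {I : Type x} [CStarAlgebra I] [PartialOrder I] [StarOrderedRing I]

/-- The unitary of the crossed product implementing `g`. -/
noncomputable def ush (α : G →* (A ≃⋆ₐ[ℂ] A)) (σ : A →⋆ₐ[ℂ] (H →L[ℂ] H)) (g : G) :
    RedCrossed α σ := ⟨regShift G H g, regShift_mem α σ g⟩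

omit [PartialOrder A] [StarOrderedRing A] in
lemma ush_mul_ι (g : G) (a : A) : ush α σ g * RedCrossed.ι α σ a =
    RedCrossed.ι α σ (α g a) * ush α σ g := Subtype.ext (covariance α σ g a)

omit [PartialOrder A] [StarOrderedRing A] in
lemma star_ush (g : G) : star (ush α σ g) = ush α σ g⁻¹ := Subtype.ext (regShift_adjoint g)

omit [PartialOrder A] [StarOrderedRing A] in
lemma ush_mul (g h : G) : ush α σ g * ush α σ h = ush α σ (g * h) :=
  Subtype.ext (regShift_mul g h).symm

omit [PartialOrder A] [StarOrderedRing A] in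
lemma ush_one : ush α σ 1 = 1 := Subtype.ext regShift_one

omit [PartialOrder A] [StarOrderedRing A] in
lemma condE_ush (hσ : Function.Injective σ) (g : G) (hg : g ≠ 1) : condE hσ (ush α σ g) = 0 := by
  apply hσ
  ext v
  rw [condE_apply, entA_spec', map_zero]
  change (regShift G H g (sgl 1 v)) 1 = _
  rw [regShift_sgl, sgl_apply, if_neg]
  · rfl
  · intro h
    apply hg
    rw [mul_one] at h
    exact h.symm

omit [PartialOrder A] [StarOrderedRing A] in
lemma ι_injective (hσ : Function.Injective σ) : Function.Injective (RedCrossed.ι α σ) := by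
  intro a b h
  have := congrArg (condE hσ) h
  rwa [condE_ι, condE_ι] at this

/-- If the canonical conditional expectation is the only completely positive projection then the
action is free. -/
theorem free_of_cp_unique (hσ : Function.Injective σ)
    (hA : ∀ φ : RedCrossed α σ →ₗ[ℂ] A, IsCP φ → (∀ a, φ (RedCrossed.ι α σ a) = a) →
      ∀ x, φ x = condE hσ x) : FreelyActing α := by
  intro g hg z₀ hz₀
  by_contra hne
  -- normalise
  obtain ⟨z, hz, hzn, hzne⟩ : ∃ z : A, (∀ a, z * a = α g a * z) ∧ ‖z‖ ≤ 1 ∧ z ≠ 0 := by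
    refine ⟨((‖z₀‖⁻¹ : ℝ) : ℂ) • z₀, fun a => ?_, ?_, ?_⟩
    · rw [smul_mul_assoc, mul_smul_comm, hz₀]
    · rw [norm_smul, Complex.norm_real, norm_inv, norm_norm,
        inv_mul_cancel₀ (norm_ne_zero_iff.mpr hne)]
    · apply smul_ne_zero _ hne
      rw [Ne, Complex.ofReal_eq_zero]
      exact inv_ne_zero (norm_ne_zero_iff.mpr hne)
  apply hzne
  set ι := RedCrossed.ι α σ with hι
  set u := ush α σ g with hu
  set E := condE (α := α) hσ with hE
  let w := ι (star z) * u
  -- `w` commutes with `A`
  have hzs : ∀ a, star z * α g a = a * star z := by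
    intro a
    have h1 := congrArg star (hz (star a))
    rw [star_mul, star_mul, star_star, map_star, star_star] at h1
    exact h1.symm
  have hwc : ∀ a, w * ι a = ι a * w := by
    intro a
    calc w * ι a = ι (star z) * (u * ι a) := by simp only [w, mul_assoc]
      _ = ι (star z * α g a) * u := by rw [hu, ush_mul_ι, map_mul, mul_assoc]
      _ = ι a * w := by rw [hzs, map_mul, mul_assoc]
  have hwsc : ∀ a, star w * ι a = ι a * star w := by
    intro a
    have h1 := congrArg star (hwc (star a))
    have h2 : star (ι (star a)) = ι a := by rw [← map_star, star_star]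
    rw [star_mul (w), star_mul (ι (star a)), h2] at h1
    exact h1.symm
  set c := α g⁻¹ (z * star z) with hc
  have hww : star w * w = ι c := by
    calc star w * w = star u * (ι z * ι (star z)) * u := by
          simp only [w, star_mul, ← map_star, star_star, mul_assoc]
      _ = star u * ι (z * star z) * u := by rw [← map_mul]
      _ = ι c * (star u * u) := by
          rw [hu, star_ush, ush_mul_ι, mul_assoc]
      _ = ι c := by
          rw [hu, star_ush, ush_mul, inv_mul_cancel, ush_one, mul_one]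
  have hcc : ∀ a, c * a = a * c := by
    intro a
    apply ι_injective (α := α) hσ
    change ι (c * a) = ι (a * c)
    rw [map_mul, map_mul, ← hww, mul_assoc, hwc, ← mul_assoc, hwsc, mul_assoc]
  have hc0 : 0 ≤ c := by
    rw [hc]
    have h1 : α g⁻¹ (z * star z) = α g⁻¹ z * star (α g⁻¹ z) := by
      rw [map_mul, map_star]
    rw [h1]
    exact mul_star_self_nonneg _
  have hcn : ‖c‖ ≤ 1 := by
    calc ‖c‖ ≤ ‖z * star z‖ := NonUnitalStarAlgHom.norm_apply_le (α g⁻¹) (z * star z)
      _ ≤ ‖z‖ * ‖star z‖ := norm_mul_le _ _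
      _ ≤ 1 * 1 := by
        rw [norm_star]
        gcongr
      _ = 1 := one_mul 1
  have hc1 : c ≤ 1 := (CStarAlgebra.norm_le_one_iff_of_nonneg c hc0).mp hcn
  -- the square root
  obtain ⟨k, hks, hkk, hkc⟩ : ∃ k : A, star k = k ∧
      k * k = (3 / 4 : ℝ) • (1 : A) - (1 / 4 : ℝ) • c ∧ ∀ a, k * a = a * k := by
    have hh : 0 ≤ (3 / 4 : ℝ) • (1 : A) - (1 / 4 : ℝ) • c := by
      have h1 : (1 / 4 : ℝ) • c ≤ (1 / 4 : ℝ) • (1 : A) :=
        smul_le_smul_of_nonneg_left hc1 (by norm_num)
      have h2 : (1 / 4 : ℝ) • (1 : A) ≤ (3 / 4 : ℝ) • (1 : A) :=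
        smul_le_smul_of_nonneg_right (by norm_num) zero_le_one
      exact sub_nonneg.mpr (h1.trans h2)
    refine ⟨CFC.sqrt ((3 / 4 : ℝ) • (1 : A) - (1 / 4 : ℝ) • c), ?_, ?_, ?_⟩
    · exact (IsSelfAdjoint.of_nonneg (CFC.sqrt_nonneg _)).star_eq
    · exact CFC.sqrt_mul_sqrt_self _ hh
    · intro a
      have h1 : Commute ((3 / 4 : ℝ) • (1 : A) - (1 / 4 : ℝ) • c) a := by
        change _ * _ = _ * _
        rw [sub_mul, mul_sub, smul_mul_assoc, smul_mul_assoc, mul_smul_comm, mul_smul_comm,
          one_mul, mul_one, hcc]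
      exact (Commute.cfcₙ_nnreal h1 NNReal.sqrt).eq
  -- the conditional expectation of some words
  have hEmul : ∀ a x, E (ι a * x) = a * E x := fun a x => condE_ι_mul hσ a x
  have hEmul' : ∀ a x, E (x * ι a) = E x * a := fun a x => condE_mul_ι hσ a x
  have hEι : ∀ a, E (ι a) = a := fun a => condE_ι hσ a
  have hE1 : E 1 = 1 := condE_one hσ
  have hEs : ∀ x, E (star x) = star (E x) := fun x => condE_star hσ x
  have hEw : E w = 0 := by
    rw [hEmul, hu, hE, condE_ush hσ g hg, mul_zero]
  have hEws : E (star w) = 0 := by rw [hEs, hEw, star_zero]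
  set e := E (star w * star w) with he
  have main : ∀ l : ℂ, star l * l = 1 → l • c + star l • e = 0 := by
    intro l hl
    let s : RedCrossed α σ := (1 / 2 : ℂ) • (1 + l • w)
    have hss : star s = (1 / 2 : ℂ) • (1 + star l • star w) := by
      simp only [s, star_smul, star_add, star_one]
      congr 1
      simp
    have hsc : ∀ a, s * ι a = ι a * s := by
      intro a
      simp only [s, smul_mul_assoc, mul_smul_comm, add_mul, mul_add, one_mul, mul_one, hwc]
    have hsc' : ∀ a, star s * ι a = ι a * star s := by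
      intro a
      rw [hss]
      simp only [smul_mul_assoc, mul_smul_comm, add_mul, mul_add, one_mul, mul_one, hwsc]
    have hkι : star (ι k) = ι k := by rw [← map_star, hks]
    let φ : RedCrossed α σ →ₗ[ℂ] A := E ∘ₗ conjMap s + E ∘ₗ conjMap (ι k)
    have hφ : ∀ x, φ x = E (star s * x * s) + k * E x * k := by
      intro x
      change E (star s * x * s) + E (star (ι k) * x * ι k) = _
      rw [hkι, hEmul', hEmul]
    have hEss : E (star s * s) = (1 / 4 : ℂ) • (1 + c) := by
      rw [hss]
      simp only [s, smul_mul_assoc, mul_smul_comm, add_mul, mul_add, one_mul, mul_one, hww,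
        map_smul, map_add, hEw, hEws, hEι, hE1]
      have h3 : (star l * l) • c = c := by rw [hl, one_smul]
      linear_combination (norm := module) (1 / 4 : ℂ) • h3
    have hφcp : IsCP φ :=
      ((isCP_condE hσ).comp (isCP_conjMap s)).add ((isCP_condE hσ).comp (isCP_conjMap (ι k)))
    have hφι : ∀ a, φ (ι a) = a := by
      intro a
      rw [hφ, hsc', mul_assoc, hEmul, hEss, hEι, hkc, mul_assoc, hkk]
      have e1 : ((3 / 4 : ℝ) • (1 : A) - (1 / 4 : ℝ) • c) =
          (3 / 4 : ℂ) • (1 : A) - (1 / 4 : ℂ) • c := by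
        rw [← Complex.coe_smul, ← Complex.coe_smul]
        norm_num
      rw [e1, ← mul_add]
      have e2 : ((1 / 4 : ℂ) • (1 + c) + ((3 / 4 : ℂ) • (1 : A) - (1 / 4 : ℂ) • c)) = 1 := by
        module
      rw [e2, mul_one]
    have h1 := hA φ hφcp hφι (star w)
    rw [hφ] at h1
    change _ = E (star w) at h1
    rw [hEws, mul_zero, zero_mul, add_zero, hss] at h1
    have e3 : ((1 / 2 : ℂ) • (1 + star l • star w)) * star w * s =
        (1 / 4 : ℂ) • (star w + l • ι c + star l • (star w * star w) + star w * ι c) := by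
      simp only [s, smul_mul_assoc, mul_smul_comm, add_mul, mul_add, one_mul, mul_one]
      rw [mul_assoc (star w) (star w) w, hww]
      have h3 : (star l * l) • (star w * ι c) = star w * ι c := by rw [hl, one_smul]
      linear_combination (norm := module) (1 / 4 : ℂ) • h3
    rw [e3] at h1
    simp only [map_smul, map_add, hEws, hEι, hEmul', zero_mul, zero_add, add_zero, ← he] at h1
    linear_combination (norm := module) (4 : ℂ) • h1
  have m1 := main 1 (by simp)
  have m2 := main Complex.I (by simp)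
  have m3 : c = 0 := by
    have h5 : star Complex.I = -Complex.I := Complex.conj_I
    rw [star_one, one_smul, one_smul] at m1
    rw [h5] at m2
    have h6 : (Complex.I * Complex.I) • c = (-1 : ℂ) • c := by rw [Complex.I_mul_I]
    have h7 : (Complex.I * Complex.I) • e = (-1 : ℂ) • e := by rw [Complex.I_mul_I]
    linear_combination (norm := module) (1 / 2 : ℂ) • m1 - (Complex.I / 2) • m2 +
      (1 / 2 : ℂ) • h6 - (1 / 2 : ℂ) • h7
  have m4 : z * star z = 0 := by
    have : α g (α g⁻¹ (z * star z)) = 0 := by rw [← hc, m3, map_zero]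
    have h5 : α g (α g⁻¹ (z * star z)) = (α g * α g⁻¹) (z * star z) := rfl
    rw [h5, ← map_mul, mul_inv_cancel, map_one] at this
    exact this
  exact CStarRing.mul_star_self_eq_zero_iff z |>.mp m4

/-- If the pseudo-expectation is unique then the action is free. -/
theorem free_of_unique (hσ : Function.Injective σ) (j : A →⋆ₐ[ℂ] I) (hj : Function.Injective j)
    (huniq : ∀ θ₁ θ₂ : CompletelyPositiveMap (RedCrossed α σ) I,
      IsPseudoExpectation (RedCrossed.ι α σ) j θ₁ → IsPseudoExpectation (RedCrossed.ι α σ) j θ₂ →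
        θ₁ = θ₂) : FreelyActing α := by
  -- uniqueness for `A`-valued maps
  have hA : ∀ φ : RedCrossed α σ →ₗ[ℂ] A, IsCP φ → (∀ a, φ (RedCrossed.ι α σ a) = a) →
      ∀ x, φ x = condE hσ x := by
    intro φ hφ hφι x
    let θ₁ : CompletelyPositiveMap (RedCrossed α σ) I :=
      { toLinearMap := (j : A →ₗ[ℂ] I) ∘ₗ φ
        map_cstarMatrix_nonneg' := (isCP_starAlgHom j).comp hφ }
    let θ₂ : CompletelyPositiveMap (RedCrossed α σ) I :=
      { toLinearMap := (j : A →ₗ[ℂ] I) ∘ₗ (condE hσ)
        map_cstarMatrix_nonneg' := (isCP_starAlgHom j).comp (isCP_condE hσ) }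
    have h1 : IsPseudoExpectation (RedCrossed.ι α σ) j θ₁ := by
      intro a
      change j (φ (RedCrossed.ι α σ a)) = j a
      rw [hφι]
    have h2 : IsPseudoExpectation (RedCrossed.ι α σ) j θ₂ := by
      intro a
      change j (condE hσ (RedCrossed.ι α σ a)) = j a
      rw [condE_ι]
    have h3 := huniq θ₁ θ₂ h1 h2
    apply hj
    exact DFunLike.congr_fun h3 x
  exact free_of_cp_unique hσ hA

end unique

end Pool.Agent.MP_dbaee1_an
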