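import Mathlib
import Pool.Agent.Lib.MP_dbaee1_an.Unique

/-!
# From an abstract reduced crossed product to the concrete one
-/

open scoped ComplexOrder InnerProductSpace ENNReal CStarAlgebra

namespace Pool.Agent.MP_dbaee1_an

universe u v w x y z

variable {A : Type u} [CStarAlgebra A] {G : Type v} [Group G]
    {α : G →* (A ≃⋆ₐ[ℂ] A)} {H : Type w} [NormedAddCommGroup H] [InnerProductSpace ℂ H]
    [CompleteSpace H] {σ : A →⋆ₐ[ℂ] (H →L[ℂ] H)} {D : Type x} [CStarAlgebra D]
    {ι : A →⋆ₐ[ℂ] D} {u : G → D} {K : Type y} [NormedAddCommGroup K] [InnerProductSpace ℂ K]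
    [CompleteSpace K] {V : G → H →ₗᵢ[ℂ] K} {ρ : D →⋆ₐ[ℂ] (K →L[ℂ] K)}

omit [Group G] [CompleteSpace H] in
/-- Two bounded operators on `ℓ²(G, H)` which agree on the coordinate subspaces are equal. -/
lemma ext_sgl {S T : L2 G H →L[ℂ] L2 G H} (h : ∀ s v, S (sgl s v) = T (sgl s v)) : S = T := by
  classical
  ext1 ξ
  have h1 := lp.hasSum_single (E := fun _ : G => H) (p := 2) (by norm_num) ξ
  have h2 : HasSum (fun s => S (sgl s (ξ s))) (S ξ) := h1.mapL S
  have h3 : HasSum (fun s => T (sgl s (ξ s))) (T ξ) := h1.mapL T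
  simp only [h] at h2
  exact h2.unique h3

/-- The concrete form of an abstract reduced crossed product. -/
theorem exists_equiv (hD : IsReducedCrossedProduct α σ ι u V ρ) :
    ∃ e : D ≃⋆ₐ[ℂ] RedCrossed α σ, ∀ a, e (ι a) = RedCrossed.ι α σ a := by
  classical
  let Φ : K ≃ₗᵢ[ℂ] L2 G H := hD.hilbertSum.linearIsometryEquiv
  have hΦV : ∀ s v, Φ.symm (sgl s v) = V s v := fun s v =>
    hD.hilbertSum.linearIsometryEquiv_symm_apply_single v
  have hΦV' : ∀ s v, Φ (V s v) = sgl s v := by
    intro s v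
    rw [← hΦV, LinearIsometryEquiv.apply_symm_apply]
  let ρ' : D →⋆ₐ[ℂ] (L2 G H →L[ℂ] L2 G H) :=
    Φ.conjStarAlgEquiv.toStarAlgHom.comp ρ
  have hρ' : ∀ d ξ, ρ' d ξ = Φ (ρ d (Φ.symm ξ)) := fun d ξ => rfl
  have hinj : Function.Injective ρ' := by
    intro d d' h
    apply hD.injective
    ext1 y
    have h1 : ρ' d (Φ y) = ρ' d' (Φ y) := by rw [h]
    rw [hρ', hρ', LinearIsometryEquiv.symm_apply_apply] at h1
    exact Φ.injective h1
  have hρι : ∀ a, ρ' (ι a) = regMul α σ a := by
    intro a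
    apply ext_sgl
    intro s v
    rw [hρ', hΦV, hD.coeff, hΦV', regMul_sgl]
  have hρu : ∀ g, ρ' (u g) = regShift G H g := by
    intro g
    apply ext_sgl
    intro s v
    rw [hρ', hΦV, hD.shift, hΦV', regShift_sgl]
  have hmem : ∀ d, ρ' d ∈ redCrossed α σ := by
    intro d
    have h1 : (Submodule.span ℂ {d : D | ∃ a g, d = ι a * u g} : Set D) ⊆
        ρ' ⁻¹' (redCrossed α σ : Set (L2 G H →L[ℂ] L2 G H)) := by
      intro d hd
      induction hd using Submodule.span_induction with
      | mem x hx =>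
        obtain ⟨a, g, rfl⟩ := hx
        rw [Set.mem_preimage, map_mul, hρι, hρu]
        exact mul_mem (regMul_mem α σ a) (regShift_mem α σ g)
      | zero =>
        rw [Set.mem_preimage, map_zero]
        exact zero_mem _
      | add x y _ _ hx hy =>
        rw [Set.mem_preimage, map_add]
        exact add_mem hx hy
      | smul c x _ hx =>
        rw [Set.mem_preimage, map_smul]
        exact (redCrossed α σ).smul_mem hx c
    have hcl : IsClosed (redCrossed α σ : Set (L2 G H →L[ℂ] L2 G H)) :=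
      StarSubalgebra.isClosed_topologicalClosure _
    have hcont : Continuous ρ' := (NonUnitalStarAlgHom.isometry ρ' hinj).continuous
    exact closure_minimal h1 (hcl.preimage hcont) (hD.dense d)
  let φ : D →⋆ₐ[ℂ] RedCrossed α σ := StarAlgHom.codRestrict ρ' (redCrossed α σ) hmem
  have hφ : ∀ d, RedCrossed.incl α σ (φ d) = ρ' d := fun d => rfl
  have hφi : Function.Injective φ := by
    intro d d' h
    apply hinj
    rw [← hφ, ← hφ, h]
  have hφs : Function.Surjective φ := by
    intro T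
    have hcl : IsClosed (Set.range ρ') :=
      (NonUnitalStarAlgHom.isometry ρ' hinj).isClosedEmbedding.isClosed_range
    have h1 : (redCrossed α σ : Set (L2 G H →L[ℂ] L2 G H)) ⊆ Set.range ρ' := by
      have h2 : StarAlgebra.adjoin ℂ (Set.range (regMul α σ) ∪ Set.range (regShift G H)) ≤
          ρ'.range := by
        apply StarAlgebra.adjoin_le
        rintro _ (⟨a, rfl⟩ | ⟨g, rfl⟩)
        · exact ⟨ι a, hρι a⟩
        · exact ⟨u g, hρu g⟩
      have h3 : (StarAlgebra.adjoin ℂ (Set.range (regMul α σ) ∪ Set.range (regShift G H)) :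
          Set (L2 G H →L[ℂ] L2 G H)) ⊆ Set.range ρ' := fun T hT => h2 hT
      rw [redCrossed, StarSubalgebra.topologicalClosure_coe]
      exact closure_minimal h3 hcl
    obtain ⟨d, hd⟩ := h1 T.2
    exact ⟨d, Subtype.ext hd⟩
  refine ⟨StarAlgEquiv.ofBijective φ ⟨hφi, hφs⟩, fun a => ?_⟩
  exact Subtype.ext (hρι a)

section norms

variable [PartialOrder D] [StarOrderedRing D]

lemma norm_map_equiv {n : Type*} [Fintype n] [DecidableEq n]
    (e : D ≃⋆ₐ[ℂ] RedCrossed α σ) (X : CStarMatrix n n D) :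
    ‖X.map e‖ = ‖X‖ := by
  rw [← norm_repMat (RedCrossed.incl α σ) incl_injective,
    ← norm_repMat ((RedCrossed.incl α σ).comp e.toStarAlgHom)
      (incl_injective.comp e.injective) X]
  congr 1

variable [PartialOrder A] [StarOrderedRing A]

lemma norms_transfer (e : D ≃⋆ₐ[ℂ] RedCrossed α σ)
    (he : ∀ a, e (ι a) = RedCrossed.ι α σ a) (h : Norms (RedCrossed.ι α σ)) : Norms ι := by
  intro k X
  have h1 := h k (X.map e)
  rw [norm_map_equiv e X] at h1
  have key : ∀ (R : CStarMatrix (Fin 1) (Fin k) A) (S : CStarMatrix (Fin k) (Fin 1) A),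
      ‖R.map ι * X * S.map ι‖ =
        ‖R.map (RedCrossed.ι α σ) * X.map e * S.map (RedCrossed.ι α σ)‖ := by
    intro R S
    rw [← norm_map_equiv e]
    congr 1
    ext i j
    simp only [CStarMatrix.map_apply, CStarMatrix.mul_apply, map_sum, map_mul, he]
  simp only [key]
  exact h1

end norms

section unique

variable {I : Type z} [CStarAlgebra I] [PartialOrder I] [StarOrderedRing I]
  [PartialOrder D] [StarOrderedRing D]

lemma unique_transfer (e : D ≃⋆ₐ[ℂ] RedCrossed α σ)
    (he : ∀ a, e (ι a) = RedCrossed.ι α σ a) (j : A →⋆ₐ[ℂ] I)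
    (huniq : ∀ θ₁ θ₂ : CompletelyPositiveMap D I,
      IsPseudoExpectation ι j θ₁ → IsPseudoExpectation ι j θ₂ → θ₁ = θ₂)
    (θ₁ θ₂ : CompletelyPositiveMap (RedCrossed α σ) I)
    (h₁ : IsPseudoExpectation (RedCrossed.ι α σ) j θ₁)
    (h₂ : IsPseudoExpectation (RedCrossed.ι α σ) j θ₂) : θ₁ = θ₂ := by
  let c : CompletelyPositiveMap (RedCrossed α σ) I → CompletelyPositiveMap D I := fun θ =>
    { toLinearMap := θ.toLinearMap ∘ₗ (e.toStarAlgHom : D →ₗ[ℂ] RedCrossed α σ)
      map_cstarMatrix_nonneg' := by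
        intro k M hM
        exact θ.map_cstarMatrix_nonneg' k _ (isCP_starAlgHom e.toStarAlgHom k M hM) }
  have hc : ∀ θ d, c θ d = θ (e d) := fun θ d => rfl
  have hcp : ∀ θ, IsPseudoExpectation (RedCrossed.ι α σ) j θ → IsPseudoExpectation ι j (c θ) := by
    intro θ hθ a
    rw [hc, he, hθ]
  have h := huniq (c θ₁) (c θ₂) (hcp θ₁ h₁) (hcp θ₂ h₂)
  apply DFunLike.ext
  intro T
  obtain ⟨d, rfl⟩ := e.surjective T
  exact DFunLike.congr_fun h d

end unique

/-- The concrete model is a reduced crossed product. -/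
theorem isReducedCrossedProduct_redCrossed (hσ : Function.Injective σ) :
    ∃ V : G → H →ₗᵢ[ℂ] L2 G H, IsReducedCrossedProduct α σ (RedCrossed.ι α σ) (ush α σ) V
      (RedCrossed.incl α σ) := by
  classical
  let V : G → H →ₗᵢ[ℂ] L2 G H := fun s =>
    { toLinearMap := (sgl s : H →L[ℂ] L2 G H)
      norm_map' := fun v => by
        have h1 : ‖(sgl s v : L2 G H)‖ ^ 2 = ‖v‖ ^ 2 := by
          have h2 : ((‖(sgl s v : L2 G H)‖ ^ 2 : ℝ) : ℂ) = ((‖v‖ ^ 2 : ℝ) : ℂ) := by
            have h3 := inner_sgl s v (sgl s v : L2 G H)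
            rw [sgl_apply, if_pos rfl, inner_self_eq_norm_sq_to_K, inner_self_eq_norm_sq_to_K]
              at h3
            push_cast
            exact h3
          exact_mod_cast h2
        exact (pow_left_inj₀ (norm_nonneg _) (norm_nonneg _) two_ne_zero).mp h1 }
  have hV : ∀ s v, V s v = sgl s v := fun s v => rfl
  refine ⟨V, hσ, incl_injective, ?_, ?_, ?_, ?_⟩
  · apply IsHilbertSum.mk
    · intro s t hst v w
      rw [hV, hV, inner_sgl, sgl_apply, if_neg hst, inner_zero_right]
    · intro ξ _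
      rw [← SetLike.mem_coe, Submodule.topologicalClosure_coe]
      refine mem_closure_of_tendsto (tendsto_emb ξ) (Filter.Eventually.of_forall fun F => ?_)
      rw [emb]
      refine Submodule.sum_mem _ fun s _ => ?_
      exact Submodule.mem_iSup_of_mem (s : G) ⟨ξ s, rfl⟩
  · intro a s v
    rw [hV, hV, incl_ι, regMul_sgl]
  · intro g s v
    rw [hV, hV]
    exact regShift_sgl g s v
  · intro T
    have hT : (T.1 : L2 G H →L[ℂ] L2 G H) ∈ closure (StarAlgebra.adjoin ℂ
        (Set.range (regMul α σ) ∪ Set.range (regShift G H)) : Set (L2 G H →L[ℂ] L2 G H)) := by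
      rw [← StarSubalgebra.topologicalClosure_coe]
      exact T.2
    rw [Metric.mem_closure_iff] at hT ⊢
    intro ε hε
    obtain ⟨S, hS, hd⟩ := hT ε hε
    have hlift : ∀ S ∈ Submodule.span ℂ (monos α σ), ∃ S' ∈ Submodule.span ℂ
        {d : RedCrossed α σ | ∃ a g, d = RedCrossed.ι α σ a * ush α σ g},
        RedCrossed.incl α σ S' = S := by
      intro S hS
      induction hS using Submodule.span_induction with
      | mem x hx =>
        obtain ⟨a, g, rfl⟩ := hx
        exact ⟨RedCrossed.ι α σ a * ush α σ g, Submodule.subset_span ⟨a, g, rfl⟩, rfl⟩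
      | zero => exact ⟨0, Submodule.zero_mem _, map_zero _⟩
      | add x y _ _ hx hy =>
        obtain ⟨x', hx', rfl⟩ := hx
        obtain ⟨y', hy', rfl⟩ := hy
        exact ⟨x' + y', Submodule.add_mem _ hx' hy', map_add _ _ _⟩
      | smul c x _ hx =>
        obtain ⟨x', hx', rfl⟩ := hx
        exact ⟨c • x', Submodule.smul_mem _ c hx', map_smul _ _ _⟩
    obtain ⟨S', hS', hSS'⟩ := hlift S (adjoin_le_span α σ S hS)
    refine ⟨S', hS', ?_⟩
    rw [dist_eq_norm, ← norm_incl, map_sub, hSS']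
    rw [dist_eq_norm] at hd
    exact hd

end Pool.Agent.MP_dbaee1_an
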